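import Pool.Agent.Lib.MP_ff62c8_lc.Inv

/-! # Approximation in measure by members of a dense sequence of continuous functions -/

set_option autoImplicit false

open MeasureTheory Set ProbabilityTheory Filter Topology
open scoped ENNReal NNReal BoundedContinuousFunction

namespace Pool.Agent.CBER

lemma exists_bound_measure {Y : Type*} [MeasurableSpace Y] (μ : Measure Y) [IsFiniteMeasure μ]
    {N : Y → ℝ} (hN : Measurable N) {δ : ℝ} (hδ : 0 < δ) :
    ∃ M : ℕ, μ.real {y | (M : ℝ) < |N y|} ≤ δ := by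
  have h1 : Tendsto (fun M : ℕ => μ {y | (M : ℝ) < |N y|}) atTop
      (𝓝 (μ (⋂ M : ℕ, {y | (M : ℝ) < |N y|}))) := by
    refine tendsto_measure_iInter_atTop (fun M => ?_) ?_ ⟨0, measure_ne_top _ _⟩
    · exact (measurableSet_lt measurable_const (by fun_prop)).nullMeasurableSet
    · intro m n hmn y hy
      have : (m : ℝ) ≤ n := by exact_mod_cast hmn
      exact lt_of_le_of_lt this hy
  have h2 : (⋂ M : ℕ, {y | (M : ℝ) < |N y|}) = ∅ := by
    ext y
    simp only [mem_iInter, mem_ofPred_eq, mem_empty_iff_false, iff_false, not_forall, not_lt]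
    obtain ⟨n, hn⟩ := exists_nat_ge |N y|
    exact ⟨n, hn⟩
  rw [h2, measure_empty] at h1
  have h3 := (h1.eventually (ge_mem_nhds (ENNReal.ofReal_pos.2 hδ))).exists
  obtain ⟨M, hM⟩ := h3
  exact ⟨M, (ENNReal.le_ofReal_iff_toReal_le (measure_ne_top _ _) hδ.le).1 hM⟩

theorem approx {Y : Type*} [TopologicalSpace Y] [CompactSpace Y] [PolishSpace Y]
    [MeasurableSpace Y] [BorelSpace Y] (μ : Measure Y) [IsFiniteMeasure μ] {N : Y → ℝ}
    (hN : Measurable N) {ε δ : ℝ} (hε : 0 < ε) (hδ : 0 < δ) {D : ℕ → C(Y, ℝ)}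
    (hD : DenseRange D) : ∃ n, μ.real {y | ¬ |D n y - N y| ≤ ε} ≤ δ := by
  obtain ⟨M, hM⟩ := exists_bound_measure μ hN (half_pos hδ)
  let T : Set Y := {y | |N y| ≤ M}
  have hT : MeasurableSet T := measurableSet_le (by fun_prop) measurable_const
  let N' : Y → ℝ := T.indicator N
  have hN' : Measurable N' := hN.indicator hT
  have hNb : ∀ y, ‖N' y‖ ≤ M := by
    intro y
    by_cases h : y ∈ T
    · simp only [N', indicator_of_mem h]; exact h
    · simp only [N', indicator_of_notMem h]; simp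
  have hint : Integrable N' μ :=
    Integrable.of_bound hN'.aestronglyMeasurable M (ae_of_all _ hNb)
  obtain ⟨g, hg, hgi⟩ := hint.exists_boundedContinuous_integral_sub_le
    (mul_pos (half_pos hε) (half_pos hδ))
  have hmk : μ.real {y | ε / 2 ≤ ‖N' y - g y‖} ≤ δ / 2 := by
    have := mul_meas_ge_le_integral_of_nonneg (μ := μ) (f := fun y => ‖N' y - g y‖)
      (ae_of_all _ fun y => norm_nonneg _) (hint.sub hgi).norm (ε / 2)
    have h2 : ε / 2 * μ.real {y | ε / 2 ≤ ‖N' y - g y‖} ≤ ε / 2 * (δ / 2) := this.trans hg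
    exact le_of_mul_le_mul_left h2 (half_pos hε)
  obtain ⟨n, hn⟩ := hD.exists_dist_lt (g.toContinuousMap) (half_pos hε)
  refine ⟨n, ?_⟩
  have hsub : {y | ¬ |D n y - N y| ≤ ε} ⊆ {y | (M : ℝ) < |N y|} ∪ {y | ε / 2 ≤ ‖N' y - g y‖} := by
    intro y hy
    by_contra hcon
    simp only [mem_union, mem_ofPred_eq, not_or, not_lt, not_le] at hcon
    apply hy
    have hyT : y ∈ T := hcon.1
    have e1 : N' y = N y := indicator_of_mem hyT _
    have e2 : dist (g y) (D n y) ≤ dist g.toContinuousMap (D n) :=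
      ContinuousMap.dist_apply_le_dist y
    rw [Real.dist_eq] at e2
    have e3 := hcon.2
    rw [e1, Real.norm_eq_abs] at e3
    have e4 : |D n y - N y| ≤ |D n y - g y| + |g y - N y| := abs_sub_le _ _ _
    rw [abs_sub_comm (D n y) (g y), abs_sub_comm (g y) (N y)] at e4
    linarith
  have := (measureReal_mono (μ := μ) hsub).trans (measureReal_union_le _ _)
  linarith

end Pool.Agent.CBER
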