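import Mathlib

/-! # Ping-pong rigidity for measures on the two-torus -/

set_option autoImplicit false

open MeasureTheory Set

namespace Pool.Agent.CBER

/-- the circle -/
abbrev T1 := UnitAddCircle
/-- the two-torus -/
abbrev T2 := T1 × T1

/-- first unipotent -/
def f1 (z : T2) : T2 := (z.1 + (2 : ℕ) • z.2, z.2)
/-- its inverse -/
def f1i (z : T2) : T2 := (z.1 - (2 : ℕ) • z.2, z.2)
/-- second unipotent -/
def f2 (z : T2) : T2 := (z.1, z.2 + (2 : ℕ) • z.1)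
/-- its inverse -/
def f2i (z : T2) : T2 := (z.1, z.2 - (2 : ℕ) • z.1)

lemma f1_f1i (z : T2) : f1 (f1i z) = z := by simp [f1, f1i]
lemma f1i_f1 (z : T2) : f1i (f1 z) = z := by simp [f1, f1i]
lemma f2_f2i (z : T2) : f2 (f2i z) = z := by simp [f2, f2i]
lemma f2i_f2 (z : T2) : f2i (f2 z) = z := by simp [f2, f2i]

lemma continuous_f1 : Continuous f1 := by unfold f1; fun_prop
lemma continuous_f1i : Continuous f1i := by unfold f1i; fun_prop
lemma continuous_f2 : Continuous f2 := by unfold f2; fun_prop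
lemma continuous_f2i : Continuous f2i := by unfold f2i; fun_prop

lemma f1_sub (z w : T2) : f1 (z - w) = f1 z - f1 w := by
  simp only [f1, Prod.fst_sub, Prod.snd_sub, smul_sub, Prod.mk_sub_mk]
  congr 1; abel
lemma f2_sub (z w : T2) : f2 (z - w) = f2 z - f2 w := by
  simp only [f2, Prod.fst_sub, Prod.snd_sub, smul_sub, Prod.mk_sub_mk]
  congr 1; abel

lemma exists_rep (a : T1) : ∃ x : ℝ, (x : T1) = a ∧ |x| = ‖a‖ := by
  obtain ⟨y, rfl⟩ := QuotientAddGroup.mk_surjective a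
  refine ⟨y - round y, ?_, ?_⟩
  · have : ((y - round y : ℝ) : T1) = (y : T1) - ((round y : ℝ) : T1) := rfl
    rw [this]
    have h2 : (((round y : ℤ) : ℝ) : T1) = 0 := by
      have := AddCircle.coe_period (1 : ℝ)
      have h3 : (((round y : ℤ) : ℝ) : T1) = (round y) • ((1 : ℝ) : T1) := by
        rw [← AddCircle.coe_zsmul]; simp
      rw [h3, this, smul_zero]
    rw [h2, sub_zero]
  · exact (UnitAddCircle.norm_eq).symm

lemma norm_nsmul_eq (n : ℕ) (a : T1) (h : n * ‖a‖ ≤ 1 / 2) : ‖n • a‖ = n * ‖a‖ := by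
  obtain ⟨x, rfl, hx⟩ := exists_rep a
  rw [← hx] at h ⊢
  have h1 : n • (x : T1) = ((n * x : ℝ) : T1) := by
    rw [← AddCircle.coe_nsmul]; simp
  rw [h1]
  have h2 : |(n : ℝ) * x| = n * |x| := by rw [abs_mul, Nat.abs_cast]
  rw [← h2] at h ⊢
  exact (AddCircle.norm_coe_eq_abs_iff 1 (by norm_num)).2 (by simpa using h)

lemma eq_or_neg_of_norm_eq (a b : T1) (h : ‖a‖ = ‖b‖) : a = b ∨ a = -b := by
  obtain ⟨x, rfl, hx⟩ := exists_rep a
  obtain ⟨y, rfl, hy⟩ := exists_rep b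
  have : |x| = |y| := by rw [hx, hy, h]
  rcases abs_eq_abs.1 this with h | h
  · left; rw [h]
  · right; rw [h]; rfl

lemma norm_three (a : T1) (h : ‖a‖ ≤ 1 / 8) : ‖(3 : ℕ) • a‖ = 3 * ‖a‖ := by
  have := norm_nsmul_eq 3 a (by push_cast; linarith)
  simpa using this

lemma norm_two (a : T1) (h : ‖a‖ ≤ 1 / 8) : ‖(2 : ℕ) • a‖ = 2 * ‖a‖ := by
  have := norm_nsmul_eq 2 a (by push_cast; linarith)
  simpa using this

lemma norm_four (a : T1) (h : ‖a‖ ≤ 1 / 8) : ‖(4 : ℕ) • a‖ = 4 * ‖a‖ := by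
  have := norm_nsmul_eq 4 a (by push_cast; linarith)
  simpa using this

/-- the small box -/
def box : Set T2 := {w | ‖w.1‖ ≤ 1 / 8 ∧ ‖w.2‖ ≤ 1 / 8}
def cone1 : Set T2 := {w | w ∈ box ∧ ‖w.2‖ < ‖w.1‖}
def cone2 : Set T2 := {w | w ∈ box ∧ ‖w.1‖ < ‖w.2‖}
def dg : Set T2 := {w | w ∈ box ∧ w.1 = w.2 ∧ w.2 ≠ 0}
def adg : Set T2 := {w | w ∈ box ∧ w.1 = -w.2 ∧ w.2 ≠ 0}

lemma isClosed_box : IsClosed box :=
  (isClosed_le continuous_fst.norm continuous_const).inter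
    (isClosed_le continuous_snd.norm continuous_const)
lemma meas_box : MeasurableSet box := isClosed_box.measurableSet
lemma meas_cone1 : MeasurableSet cone1 :=
  meas_box.inter (measurableSet_lt measurable_snd.norm measurable_fst.norm)
lemma meas_cone2 : MeasurableSet cone2 :=
  meas_box.inter (measurableSet_lt measurable_fst.norm measurable_snd.norm)
lemma meas_dg : MeasurableSet dg :=
  meas_box.inter ((measurableSet_eq_fun (by fun_prop) (by fun_prop)).inter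
    (measurableSet_eq_fun (by fun_prop) (by fun_prop)).compl)
lemma meas_adg : MeasurableSet adg :=
  meas_box.inter ((measurableSet_eq_fun (by fun_prop) (by fun_prop)).inter
    (measurableSet_eq_fun (by fun_prop) (by fun_prop)).compl)

/-- the wide cone -/
def wide1 : Set T2 := {w | ‖w.2‖ < ‖w.1‖}
def wide2 : Set T2 := {w | ‖w.1‖ < ‖w.2‖}
lemma meas_wide1 : MeasurableSet wide1 := measurableSet_lt (by fun_prop) (by fun_prop)
lemma meas_wide2 : MeasurableSet wide2 := measurableSet_lt (by fun_prop) (by fun_prop)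

lemma aux_plus (a b : T1) (ha : ‖a‖ ≤ 1 / 8) (hb : ‖b‖ ≤ 1 / 8)
    (h : ‖a‖ < ‖b‖ ∨ (a = b ∧ b ≠ 0)) : ‖b‖ < ‖a + (2 : ℕ) • b‖ := by
  rcases h with h | ⟨rfl, h⟩
  · have h2 := norm_two b hb
    have h3 : ‖(2 : ℕ) • b‖ ≤ ‖a + (2 : ℕ) • b‖ + ‖a‖ := by
      calc ‖(2 : ℕ) • b‖ = ‖(a + (2 : ℕ) • b) - a‖ := by congr 1; abel
        _ ≤ _ := norm_sub_le _ _
    linarith
  · have h2 := norm_three a ha
    have h3 : a + (2 : ℕ) • a = (3 : ℕ) • a := by abel
    rw [h3, h2]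
    have : 0 < ‖a‖ := norm_pos_iff.2 h
    linarith

lemma aux_minus (a b : T1) (ha : ‖a‖ ≤ 1 / 8) (hb : ‖b‖ ≤ 1 / 8)
    (h : ‖a‖ < ‖b‖ ∨ (a = -b ∧ b ≠ 0)) : ‖b‖ < ‖a - (2 : ℕ) • b‖ := by
  have := aux_plus (-a) b (by rwa [norm_neg]) hb (by
    rcases h with h | ⟨rfl, h⟩
    · left; rwa [norm_neg]
    · right; exact ⟨by simp, h⟩)
  have h2 : a - (2 : ℕ) • b = -(-a + (2 : ℕ) • b) := by abel
  rw [h2, norm_neg]; exact this

lemma aux_disj (a a' b : T1) (hb : ‖b‖ ≤ 1 / 8)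
    (hab : ‖a‖ ≤ ‖b‖) (hab' : ‖a'‖ ≤ ‖b‖) (h : a + (2 : ℕ) • b = a' - (2 : ℕ) • b) : b = 0 := by
  have h4 := norm_four b hb
  have : (4 : ℕ) • b = a' - a := by
    have : a' = a + (2 : ℕ) • b + (2 : ℕ) • b := by rw [h]; abel
    rw [this]; abel
  rw [this] at h4
  have h5 := norm_sub_le a' a
  have h6 : ‖b‖ ≤ 0 := by linarith
  exact norm_le_zero_iff.1 h6

/-- one half of ping-pong -/
lemma half1 (σ : Measure T2) [IsProbabilityMeasure σ] (η : ℝ)
    (hN : σ.real boxᶜ ≤ η)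
    (h1 : ∀ B, MeasurableSet B → |σ.real (f1 ⁻¹' B) - σ.real B| ≤ η) :
    2 * σ.real cone2 + σ.real dg + σ.real adg ≤ σ.real cone1 + 3 * η := by
  have hU : MeasurableSet (cone2 ∪ dg) := meas_cone2.union meas_dg
  have hV : MeasurableSet (cone2 ∪ adg) := meas_cone2.union meas_adg
  have hB1 : MeasurableSet (f1i ⁻¹' (cone2 ∪ dg)) := continuous_f1i.measurable hU
  have hB2 : MeasurableSet (f1 ⁻¹' (cone2 ∪ adg)) := continuous_f1.measurable hV
  have e1 : σ.real (cone2 ∪ dg) = σ.real cone2 + σ.real dg := by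
    apply measureReal_union _ meas_dg
    rw [Set.disjoint_left]
    rintro w ⟨_, hw⟩ ⟨_, hw', _⟩
    rw [hw'] at hw; exact lt_irrefl _ hw
  have e2 : σ.real (cone2 ∪ adg) = σ.real cone2 + σ.real adg := by
    apply measureReal_union _ meas_adg
    rw [Set.disjoint_left]
    rintro w ⟨_, hw⟩ ⟨_, hw', _⟩
    rw [hw', norm_neg] at hw; exact lt_irrefl _ hw
  have i1 : σ.real (cone2 ∪ dg) ≤ σ.real (f1i ⁻¹' (cone2 ∪ dg)) + η := by
    have := h1 _ hB1
    rw [← preimage_comp] at this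
    have hid : f1i ∘ f1 = id := funext f1i_f1
    rw [hid, preimage_id] at this
    linarith [abs_le.1 this]
  have i2 : σ.real (cone2 ∪ adg) ≤ σ.real (f1 ⁻¹' (cone2 ∪ adg)) + η := by
    have := h1 _ hV
    linarith [abs_le.1 this]
  have hdisj : Disjoint (f1i ⁻¹' (cone2 ∪ dg)) (f1 ⁻¹' (cone2 ∪ adg)) := by
    rw [Set.disjoint_left]
    intro w hw hw'
    simp only [mem_preimage, f1i, f1, mem_union, cone2, dg, adg, box, mem_ofPred_eq] at hw hw'
    have a1 : ‖w.1 - (2:ℕ) • w.2‖ ≤ ‖w.2‖ := by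
      rcases hw with ⟨_, h⟩ | ⟨_, h, _⟩
      · exact h.le
      · rw [h]
    have a2 : ‖w.1 + (2:ℕ) • w.2‖ ≤ ‖w.2‖ := by
      rcases hw' with ⟨_, h⟩ | ⟨_, h, _⟩
      · exact h.le
      · rw [h, norm_neg]
    have a3 : ‖w.1 - (2:ℕ) • w.2‖ ≤ 1 / 8 ∧ ‖w.2‖ ≤ 1 / 8 := by
      rcases hw with ⟨h, _⟩ | ⟨h, _, _⟩ <;> exact h
    have a4 : ‖w.1 + (2:ℕ) • w.2‖ ≤ 1 / 8 ∧ ‖w.2‖ ≤ 1 / 8 := by
      rcases hw' with ⟨h, _⟩ | ⟨h, _, _⟩ <;> exact h
    have a5 := aux_disj _ _ w.2 a3.2 a1 a2 (by abel)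
    have a6 : w.2 ≠ 0 := by
      rcases hw with ⟨_, h⟩ | ⟨_, _, h⟩
      · intro h0; rw [h0, norm_zero] at h
        exact absurd h (not_lt.2 (norm_nonneg _))
      · exact h
    exact a6 a5
  have hsub : f1i ⁻¹' (cone2 ∪ dg) ∪ f1 ⁻¹' (cone2 ∪ adg) ⊆ cone1 ∪ boxᶜ := by
    intro w hw
    by_cases hb : w ∈ box
    · left
      refine ⟨hb, ?_⟩
      rcases hw with hw | hw
      · simp only [mem_preimage, f1i, mem_union, cone2, dg, box, mem_ofPred_eq] at hw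
        have a3 : ‖w.1 - (2:ℕ) • w.2‖ ≤ 1 / 8 ∧ ‖w.2‖ ≤ 1 / 8 := by
          rcases hw with ⟨h, _⟩ | ⟨h, _, _⟩ <;> exact h
        have := aux_plus (w.1 - (2:ℕ) • w.2) w.2 a3.1 a3.2 (by
          rcases hw with ⟨_, h⟩ | ⟨_, h, h'⟩
          · left; exact h
          · right; exact ⟨h, h'⟩)
        simpa using this
      · simp only [mem_preimage, f1, mem_union, cone2, adg, box, mem_ofPred_eq] at hw
        have a3 : ‖w.1 + (2:ℕ) • w.2‖ ≤ 1 / 8 ∧ ‖w.2‖ ≤ 1 / 8 := by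
          rcases hw with ⟨h, _⟩ | ⟨h, _, _⟩ <;> exact h
        have := aux_minus (w.1 + (2:ℕ) • w.2) w.2 a3.1 a3.2 (by
          rcases hw with ⟨_, h⟩ | ⟨_, h, h'⟩
          · left; exact h
          · right; exact ⟨h, h'⟩)
        simpa using this
    · right; exact hb
  have i3 : σ.real (f1i ⁻¹' (cone2 ∪ dg)) + σ.real (f1 ⁻¹' (cone2 ∪ adg))
      ≤ σ.real cone1 + σ.real boxᶜ := by
    rw [← measureReal_union hdisj hB2]
    exact (measureReal_mono hsub).trans (measureReal_union_le _ _)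
  linarith

lemma half2 (σ : Measure T2) [IsProbabilityMeasure σ] (η : ℝ)
    (hN : σ.real boxᶜ ≤ η)
    (h2 : ∀ B, MeasurableSet B → |σ.real (f2 ⁻¹' B) - σ.real B| ≤ η) :
    2 * σ.real cone1 + σ.real dg + σ.real adg ≤ σ.real cone2 + 3 * η := by
  have hU : MeasurableSet (cone1 ∪ dg) := meas_cone1.union meas_dg
  have hV : MeasurableSet (cone1 ∪ adg) := meas_cone1.union meas_adg
  have hB1 : MeasurableSet (f2i ⁻¹' (cone1 ∪ dg)) := continuous_f2i.measurable hU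
  have hB2 : MeasurableSet (f2 ⁻¹' (cone1 ∪ adg)) := continuous_f2.measurable hV
  have e1 : σ.real (cone1 ∪ dg) = σ.real cone1 + σ.real dg := by
    apply measureReal_union _ meas_dg
    rw [Set.disjoint_left]
    rintro w ⟨_, hw⟩ ⟨_, hw', _⟩
    rw [hw'] at hw; exact lt_irrefl _ hw
  have e2 : σ.real (cone1 ∪ adg) = σ.real cone1 + σ.real adg := by
    apply measureReal_union _ meas_adg
    rw [Set.disjoint_left]
    rintro w ⟨_, hw⟩ ⟨_, hw', _⟩
    rw [hw', norm_neg] at hw; exact lt_irrefl _ hw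
  have i1 : σ.real (cone1 ∪ dg) ≤ σ.real (f2i ⁻¹' (cone1 ∪ dg)) + η := by
    have := h2 _ hB1
    rw [← preimage_comp] at this
    have hid : f2i ∘ f2 = id := funext f2i_f2
    rw [hid, preimage_id] at this
    linarith [abs_le.1 this]
  have i2 : σ.real (cone1 ∪ adg) ≤ σ.real (f2 ⁻¹' (cone1 ∪ adg)) + η := by
    have := h2 _ hV
    linarith [abs_le.1 this]
  have n1 : ∀ w : T2, w ∈ cone1 ∪ dg → w.1 ≠ 0 := by
    rintro w (⟨_, h⟩ | ⟨_, h, h'⟩)
    · intro h0; rw [h0, norm_zero] at h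
      exact absurd h (not_lt.2 (norm_nonneg _))
    · rw [h]; exact h'
  have hdisj : Disjoint (f2i ⁻¹' (cone1 ∪ dg)) (f2 ⁻¹' (cone1 ∪ adg)) := by
    rw [Set.disjoint_left]
    intro w hw hw'
    have a6 : w.1 ≠ 0 := n1 (f2i w) hw
    simp only [mem_preimage, f2i, f2, mem_union, cone1, dg, adg, box, mem_ofPred_eq] at hw hw'
    have a1 : ‖w.2 - (2:ℕ) • w.1‖ ≤ ‖w.1‖ := by
      rcases hw with ⟨_, h⟩ | ⟨_, h, _⟩
      · exact h.le
      · exact (congrArg norm h).ge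
    have a2 : ‖w.2 + (2:ℕ) • w.1‖ ≤ ‖w.1‖ := by
      rcases hw' with ⟨_, h⟩ | ⟨_, h, _⟩
      · exact h.le
      · exact ((congrArg norm h).trans (norm_neg _)).ge
    have a3 : ‖w.1‖ ≤ 1 / 8 ∧ ‖w.2 - (2:ℕ) • w.1‖ ≤ 1 / 8 := by
      rcases hw with ⟨h, _⟩ | ⟨h, _, _⟩ <;> exact h
    have a4 : ‖w.1‖ ≤ 1 / 8 ∧ ‖w.2 + (2:ℕ) • w.1‖ ≤ 1 / 8 := by
      rcases hw' with ⟨h, _⟩ | ⟨h, _, _⟩ <;> exact h
    have a5 := aux_disj _ _ w.1 a3.1 a1 a2 (by abel)
    exact a6 a5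
  have hsub : f2i ⁻¹' (cone1 ∪ dg) ∪ f2 ⁻¹' (cone1 ∪ adg) ⊆ cone2 ∪ boxᶜ := by
    intro w hw
    by_cases hb : w ∈ box
    · left
      refine ⟨hb, ?_⟩
      rcases hw with hw | hw
      · have a6 : w.1 ≠ 0 := n1 (f2i w) hw
        simp only [mem_preimage, f2i, mem_union, cone1, dg, box, mem_ofPred_eq] at hw
        have a3 : ‖w.1‖ ≤ 1 / 8 ∧ ‖w.2 - (2:ℕ) • w.1‖ ≤ 1 / 8 := by
          rcases hw with ⟨h, _⟩ | ⟨h, _, _⟩ <;> exact h
        have := aux_plus (w.2 - (2:ℕ) • w.1) w.1 a3.2 a3.1 (by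
          rcases hw with ⟨_, h⟩ | ⟨_, h, h'⟩
          · left; exact h
          · right; exact ⟨h.symm, a6⟩)
        simpa using this
      · simp only [mem_preimage, f2, mem_union, cone1, adg, box, mem_ofPred_eq] at hw
        have a3 : ‖w.1‖ ≤ 1 / 8 ∧ ‖w.2 + (2:ℕ) • w.1‖ ≤ 1 / 8 := by
          rcases hw with ⟨h, _⟩ | ⟨h, _, _⟩ <;> exact h
        have := aux_minus (w.2 + (2:ℕ) • w.1) w.1 a3.2 a3.1 (by
          rcases hw with ⟨_, h⟩ | ⟨_, h, h'⟩
          · left; exact h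
          · right
            refine ⟨?_, ?_⟩
            · have := congrArg Neg.neg h
              rw [neg_neg] at this; exact this.symm
            · intro h0
              have h3 := congrArg Neg.neg h
              rw [neg_neg, h0, neg_zero] at h3
              rw [h0] at h'
              exact h' h3.symm)
        simpa using this
    · right; exact hb
  have i3 : σ.real (f2i ⁻¹' (cone1 ∪ dg)) + σ.real (f2 ⁻¹' (cone1 ∪ adg))
      ≤ σ.real cone2 + σ.real boxᶜ := by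
    rw [← measureReal_union hdisj hB2]
    exact (measureReal_mono hsub).trans (measureReal_union_le _ _)
  linarith

/-- An almost invariant measure concentrated near `0` is concentrated at `0`. -/
theorem burger (σ : Measure T2) [IsProbabilityMeasure σ] (η : ℝ)
    (hN : σ.real boxᶜ ≤ η)
    (h1 : ∀ B, MeasurableSet B → |σ.real (f1 ⁻¹' B) - σ.real B| ≤ η)
    (h2 : ∀ B, MeasurableSet B → |σ.real (f2 ⁻¹' B) - σ.real B| ≤ η) :
    σ.real {w | w ≠ 0} ≤ 7 * η := by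
  have a := half1 σ η hN h1
  have b := half2 σ η hN h2
  have hsub : {w : T2 | w ≠ 0} ⊆ boxᶜ ∪ (cone1 ∪ (cone2 ∪ (dg ∪ adg))) := by
    intro w hw
    by_cases hb : w ∈ box
    · right
      rcases lt_trichotomy ‖w.1‖ ‖w.2‖ with h | h | h
      · right; left; exact ⟨hb, h⟩
      · have h0 : w.2 ≠ 0 := by
          intro h0
          rw [h0, norm_zero, norm_eq_zero] at h
          exact hw (Prod.ext h h0)
        rcases eq_or_neg_of_norm_eq _ _ h with h' | h'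
        · right; right; left; exact ⟨hb, h', h0⟩
        · right; right; right; exact ⟨hb, h', h0⟩
      · left; exact ⟨hb, h⟩
    · left; exact hb
  have c := (measureReal_mono (μ := σ) hsub).trans (measureReal_union_le _ _)
  have d := measureReal_union_le (μ := σ) cone1 (cone2 ∪ (dg ∪ adg))
  have e := measureReal_union_le (μ := σ) cone2 (dg ∪ adg)
  have f := measureReal_union_le (μ := σ) dg adg
  have g : 0 ≤ σ.real dg := measureReal_nonneg
  have h : 0 ≤ σ.real adg := measureReal_nonneg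
  linarith

end Pool.Agent.CBER
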