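import Pool.Agent.Lib.MP_ff62c8_lc.Trans

/-! # The Baire category choice of the parameter set -/

set_option autoImplicit false

open MeasureTheory Set ProbabilityTheory Filter Topology
open scoped ENNReal NNReal BoundedContinuousFunction

namespace Pool.Agent.CBER

lemma irr_compl_countable : {x : T1 | ¬ Irr x}.Countable := by
  refine (countable_range (fun q : ℚ => (((q : ℝ)) : T1))).mono ?_
  intro x hx
  simp only [Irr, mem_ofPred_eq, not_forall, not_not, exists_prop] at hx
  obtain ⟨n, hn, h⟩ := hx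
  induction x using QuotientAddGroup.induction_on with
  | H r =>
    have h1 : ((n * r : ℝ) : T1) = 0 := by
      have : ((n • r : ℝ) : T1) = n • (r : T1) := by
        exact AddCircle.coe_zsmul 1
      rw [zsmul_eq_mul] at this
      rw [this]; exact h
    rw [AddCircle.coe_eq_zero_iff] at h1
    obtain ⟨m, hm⟩ := h1
    refine ⟨(m : ℚ) / n, ?_⟩
    have hn' : (n : ℝ) ≠ 0 := by exact_mod_cast hn
    have : r = (m : ℝ) / n := by
      field_simp
      simp at hm
      linarith
    rw [this]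
    push_cast
    rfl

/-- the fibre measures as probability measures -/
noncomputable def pmx (x : T1) : ProbabilityMeasure V := ⟨mx x, inferInstance⟩

lemma continuous_pmx : Continuous pmx := by
  rw [continuous_iff_continuousAt]
  intro x
  rw [ContinuousAt, ProbabilityMeasure.tendsto_iff_forall_integral_tendsto]
  intro f
  have hint : ∀ y : T1, ∫ p, f p ∂(pmx y : Measure V) = ∫ z, f (y, z) ∂(volume : Measure T2) := by
    intro y
    change ∫ p, f p ∂(mx y) = _
    rw [mx, integral_map (by fun_prop) f.continuous.aestronglyMeasurable]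
  simp_rw [hint]
  have hc : Continuous (fun y : T1 => ∫ z, f (y, z) ∂(volume : Measure T2)) := by
    refine continuous_of_dominated (bound := fun _ => ‖f‖) ?_ ?_ ?_ ?_
    · intro y
      exact (f.continuous.comp (by fun_prop)).aestronglyMeasurable
    · intro y
      exact ae_of_all _ fun z => f.norm_coe_le_norm _
    · exact integrable_const _
    · exact ae_of_all _ fun z => f.continuous.comp (by fun_prop)
  exact hc.tendsto x

/-- the index set of data -/
abbrev J := (Fin 3 → ℕ) × (Fin 3 → ℕ) × (Fin 2 → ℕ)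

/-- good data with index `j` -/
def GoodJ {Y : Type*} [TopologicalSpace Y] [MeasurableSpace Y]
    (g : ℕ → Y ≃ₜ Y) (D : ℕ → C(Y, ℝ)) (δ : ℝ) (j : J) (d : T1) (ν : Measure Y) : Prop :=
  Good g (fun s => D (j.1 s)) (fun s => D (j.2.1 s)) (fun t => D (j.2.2 t)) δ d ν

/-- an enumeration of the group -/
noncomputable def ew : ℕ → FreeGroup (Fin 4) := (exists_surjective_nat (FreeGroup (Fin 4))).choose

lemma ew_surj : Function.Surjective ew := (exists_surjective_nat (FreeGroup (Fin 4))).choose_spec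

/-- the enumerated action -/
noncomputable def gV (n : ℕ) : V ≃ₜ V := act (ew n)

lemma gV_mp (x : T1) (n : ℕ) : MeasurePreserving (gV n) (mx x) (mx x) := act_mp _ x

/-- a dense sequence of continuous functions -/
noncomputable def DV : ℕ → C(V, ℝ) := TopologicalSpace.denseSeq C(V, ℝ)

lemma DV_dense : DenseRange DV := TopologicalSpace.denseRange_denseSeq _

/-- the bad set of pairs -/
def BB (δ : ℝ) (j : J) : Set (T1 × T1) := {p | GoodJ gV DV δ j p.1 (mx p.2)}

lemma closure_BB {δ : ℝ} {j : J} {p : T1 × T1} (hp : p ∈ closure (BB δ j)) :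
    GoodJ gV DV (57 * δ) j p.1 (mx p.2) := by
  obtain ⟨x, hx, hlim⟩ := mem_closure_iff_seq_limit.1 hp
  have hu : ((hyperfilter ℕ : Ultrafilter ℕ) : Filter ℕ) ≤ atTop := Nat.hyperfilter_le_atTop
  have h1 : Tendsto (fun n => (x n).1) (hyperfilter ℕ : Ultrafilter ℕ) (𝓝 p.1) :=
    ((continuous_fst.tendsto p).comp hlim).mono_left hu
  have h2 : Tendsto (fun n => pmx (x n).2) (hyperfilter ℕ : Ultrafilter ℕ) (𝓝 (pmx p.2)) :=
    (((continuous_pmx.comp continuous_snd).tendsto p).comp hlim).mono_left hu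
  exact Good.limit (hyperfilter ℕ) h1 h2 (fun i n => gV_mp _ n) hx

theorem choice (δ : ℝ) (hδ : 57 * δ < 1 / 30) :
    ∃ (A D : Set T1) (𝒞 : Set (Set T1)), 𝒞.Countable ∧
      (∀ C ∈ 𝒞, IsClosed C ∧ interior C = ∅) ∧ Aᶜ = ⋃₀ 𝒞 ∧ (∀ x ∈ A, Irr x) ∧ Dense D ∧
      (∀ d ∈ D, ∀ x ∈ A, ∀ j, ¬ GoodJ gV DV δ j d (mx x)) := by
  classical
  -- parameters with a fat section
  let Fat : Set T1 := {d | ∃ j : J, ∃ U ∈ TopologicalSpace.countableBasis T1,
    U.Nonempty ∧ ∀ x ∈ U, (d, x) ∈ closure (BB δ j)}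
  have hFat : Fat.Countable := by
    have : Fat = ⋃ j : J, ⋃ U ∈ TopologicalSpace.countableBasis T1,
        {d | U.Nonempty ∧ ∀ x ∈ U, (d, x) ∈ closure (BB δ j)} := by
      ext d
      simp only [Fat, mem_ofPred_eq, mem_iUnion, exists_prop]
    rw [this]
    refine countable_iUnion fun j => ?_
    refine (TopologicalSpace.countable_countableBasis T1).biUnion fun U _ => ?_
    refine Set.Subsingleton.countable ?_
    rintro d₁ ⟨⟨x, hx⟩, h1⟩ d₂ ⟨_, h2⟩
    exact Good.unique hδ (gV_mp x) (closure_BB (h1 x hx)) (closure_BB (h2 x hx))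
  have hdense : Dense Fatᶜ := by
    have : Fatᶜ = ⋂ d ∈ Fat, {d}ᶜ := by
      ext y; simp only [mem_compl_iff, mem_iInter, mem_singleton_iff]
      constructor
      · intro h d hd e; exact h (e ▸ hd)
      · intro h hy; exact h y hy rfl
    rw [this]
    exact dense_biInter_of_isOpen (fun d _ => isClosed_singleton.isOpen_compl) hFat
      fun d _ => dense_compl_singleton d
  obtain ⟨D, hDs, hDc, hDd⟩ := hdense.exists_countable_dense_subset
  let Sec : T1 × J → Set T1 := fun q => {x | (q.1, x) ∈ closure (BB δ q.2)}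
  let 𝒞 : Set (Set T1) := ((fun d => ({d} : Set T1)) '' {x : T1 | ¬ Irr x}) ∪
    Sec '' (D ×ˢ (univ : Set J))
  refine ⟨(⋃₀ 𝒞)ᶜ, D, 𝒞, ?_, ?_, compl_compl _, ?_, hDd, ?_⟩
  · exact (irr_compl_countable.image _).union ((hDc.prod countable_univ).image _)
  · rintro C (⟨d, _, rfl⟩ | ⟨⟨d, j⟩, hd, rfl⟩)
    · exact ⟨isClosed_singleton, interior_singleton d⟩
    · refine ⟨isClosed_closure.preimage (by fun_prop), ?_⟩
      by_contra hne
      obtain ⟨x, hx⟩ := nonempty_iff_ne_empty.2 hne
      obtain ⟨U, hU, hxU, hUs⟩ := (TopologicalSpace.isBasis_countableBasis T1).exists_subset_of_mem_open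
        hx isOpen_interior
      refine hDs hd.1 ⟨j, U, hU, ⟨x, hxU⟩, fun y hy => ?_⟩
      have h3 : y ∈ Sec (d, j) := interior_subset (hUs hy)
      exact h3
  · intro x hx
    by_contra hirr
    exact hx ⟨{x}, Or.inl ⟨x, hirr, rfl⟩, rfl⟩
  · intro d hd x hx j hg
    exact hx ⟨Sec (d, j), Or.inr ⟨(d, j), ⟨hd, mem_univ _⟩, rfl⟩, subset_closure hg⟩

end Pool.Agent.CBER
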