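import Pool.Agent.Lib.MP_ff62c8_lc.Burger

/-! # Data sets, partial injections, and the uniqueness lemma -/

set_option autoImplicit false

open MeasureTheory Set

namespace Pool.Agent.CBER

/-- the three maps on the torus -/
def S (d : T1) (s : Fin 3) (z : T2) : T2 :=
  if s = 0 then f1 z else if s = 1 then f2 z else (z.1 + d, z.2)

lemma S_zero (d : T1) : S d 0 = f1 := by funext z; simp [S]
lemma S_one (d : T1) : S d 1 = f2 := by funext z; simp [S]
lemma S_two (d : T1) (z : T2) : S d 2 z = (z.1 + d, z.2) := by simp [S]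

lemma continuous_S (s : Fin 3) : Continuous (fun p : T1 × T2 => S p.1 s p.2) := by
  fin_cases s
  · have : (fun p : T1 × T2 => S p.1 0 p.2) = fun p => f1 p.2 := by
      funext p; rw [S_zero]
    exact this ▸ (continuous_f1.comp continuous_snd)
  · have : (fun p : T1 × T2 => S p.1 1 p.2) = fun p => f2 p.2 := by
      funext p; rw [S_one]
    exact this ▸ (continuous_f2.comp continuous_snd)
  · have : (fun p : T1 × T2 => S p.1 2 p.2) = fun p => (p.2.1 + p.1, p.2.2) := by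
      funext p; rw [S_two]
    rw [show (⟨2, by norm_num⟩ : Fin 3) = 2 from rfl, this]
    fun_prop

lemma continuous_S' (d : T1) (s : Fin 3) : Continuous (S d s) :=
  (continuous_S s).comp (Continuous.prodMk_right d)

variable {Y : Type*} [TopologicalSpace Y]

/-- the partial injection attached to two real functions -/
def Rl (g : ℕ → Y ≃ₜ Y) (k k' : Y → ℝ) (y y' : Y) : Prop :=
  ∃ n : ℕ, |k y - n| ≤ 1 / 4 ∧ |k' y' - n| ≤ 1 / 4 ∧ y' = g n y

lemma nat_unique {a : ℝ} {n m : ℕ} (h : |a - n| ≤ 1 / 4) (h' : |a - m| ≤ 1 / 4) : n = m := by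
  have h1 := abs_le.1 h
  have h2 := abs_le.1 h'
  have h3 : |(n : ℝ) - m| < 1 := by
    rw [abs_lt]; constructor <;> linarith
  have h4 : |(n : ℤ) - m| < 1 := by exact_mod_cast h3
  have := Int.abs_lt_one_iff.1 h4
  omega

lemma Rl.fun_of {g : ℕ → Y ≃ₜ Y} {k k' : Y → ℝ} {y a b : Y} (h : Rl g k k' y a)
    (h' : Rl g k k' y b) : a = b := by
  obtain ⟨n, h1, _, rfl⟩ := h
  obtain ⟨m, h1', _, rfl⟩ := h'
  rw [nat_unique h1 h1']

lemma Rl.inj_of {g : ℕ → Y ≃ₜ Y} {k k' : Y → ℝ} {y a b : Y} (h : Rl g k k' a y)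
    (h' : Rl g k k' b y) : a = b := by
  obtain ⟨n, _, h1, e⟩ := h
  obtain ⟨m, _, h1', e'⟩ := h'
  obtain rfl := nat_unique h1 h1'
  exact (g n).injective (e.symm.trans e')

variable [MeasurableSpace Y] [BorelSpace Y]

/-- domain of a restricted partial injection -/
def dm (g : ℕ → Y ≃ₜ Y) (k k' : Y → ℝ) (E : Set (Y × Y)) : Set Y :=
  {y | ∃ y', Rl g k k' y y' ∧ (y, y') ∈ E}
/-- range of a restricted partial injection -/
def rn (g : ℕ → Y ≃ₜ Y) (k k' : Y → ℝ) (E : Set (Y × Y)) : Set Y :=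
  {y' | ∃ y, Rl g k k' y y' ∧ (y, y') ∈ E}

/-- pieces -/
def pc (g : ℕ → Y ≃ₜ Y) (k k' : Y → ℝ) (E : Set (Y × Y)) (n : ℕ) : Set Y :=
  {y | |k y - n| ≤ 1 / 4 ∧ |k' (g n y) - n| ≤ 1 / 4 ∧ (y, g n y) ∈ E}

omit [MeasurableSpace Y] [BorelSpace Y] in
lemma dm_eq (g : ℕ → Y ≃ₜ Y) (k k' : Y → ℝ) (E : Set (Y × Y)) :
    dm g k k' E = ⋃ n, pc g k k' E n := by
  ext y
  simp only [dm, pc, Rl, mem_ofPred_eq, mem_iUnion]
  constructor
  · rintro ⟨y', ⟨n, h1, h2, rfl⟩, h3⟩; exact ⟨n, h1, h2, h3⟩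
  · rintro ⟨n, h1, h2, h3⟩; exact ⟨_, ⟨n, h1, h2, rfl⟩, h3⟩

omit [MeasurableSpace Y] [BorelSpace Y] in
lemma rn_eq (g : ℕ → Y ≃ₜ Y) (k k' : Y → ℝ) (E : Set (Y × Y)) :
    rn g k k' E = ⋃ n, (g n) '' (pc g k k' E n) := by
  ext y
  simp only [rn, pc, Rl, mem_ofPred_eq, mem_iUnion, mem_image]
  constructor
  · rintro ⟨y', ⟨n, h1, h2, rfl⟩, h3⟩; exact ⟨n, y', ⟨h1, h2, h3⟩, rfl⟩
  · rintro ⟨n, y', ⟨h1, h2, h3⟩, rfl⟩; exact ⟨_, ⟨n, h1, h2, rfl⟩, h3⟩

variable {g : ℕ → Y ≃ₜ Y} {k k' : Y → ℝ}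

lemma meas_pc [SecondCountableTopology Y] (hk : Continuous k) (hk' : Continuous k')
    {E : Set (Y × Y)} (hE : MeasurableSet E)
    (n : ℕ) : MeasurableSet (pc g k k' E n) := by
  have hg : Continuous (g n) := (g n).continuous
  have h1 : IsClosed {y | |k y - n| ≤ 1 / 4} := isClosed_le (by fun_prop) continuous_const
  have h2 : IsClosed {y | |k' (g n y) - n| ≤ 1 / 4} := isClosed_le (by fun_prop) continuous_const
  have h3 : MeasurableSet {y | (y, g n y) ∈ E} := by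
    have : Measurable (fun y => (y, g n y)) := by fun_prop
    exact this hE
  exact h1.measurableSet.inter (h2.measurableSet.inter h3)

lemma meas_dm [SecondCountableTopology Y] (hk : Continuous k) (hk' : Continuous k')
    {E : Set (Y × Y)} (hE : MeasurableSet E) : MeasurableSet (dm g k k' E) := by
  rw [dm_eq]; exact MeasurableSet.iUnion fun n => meas_pc hk hk' hE n

lemma meas_rn [SecondCountableTopology Y] (hk : Continuous k) (hk' : Continuous k')
    {E : Set (Y × Y)} (hE : MeasurableSet E) : MeasurableSet (rn g k k' E) := by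
  rw [rn_eq]
  refine MeasurableSet.iUnion fun n => ?_
  exact (g n).toMeasurableEquiv.measurableEmbedding.measurableSet_image' (meas_pc hk hk' hE n)

/-- A partial injection made of measure preserving pieces preserves the measure. -/
lemma measure_dm_eq_rn [SecondCountableTopology Y] (hk : Continuous k) (hk' : Continuous k')
    {ν : Measure Y} (hν : ∀ n, MeasurePreserving (g n) ν ν)
    {E : Set (Y × Y)} (hE : MeasurableSet E) : ν (dm g k k' E) = ν (rn g k k' E) := by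
  rw [dm_eq, rn_eq, measure_iUnion _ (meas_pc hk hk' hE), measure_iUnion]
  · congr 1; funext n
    have hm : MeasurableSet ((g n) '' (pc g k k' E n)) :=
      (g n).toMeasurableEquiv.measurableEmbedding.measurableSet_image' (meas_pc hk hk' hE n)
    have := (hν n).measure_preimage hm.nullMeasurableSet
    rw [preimage_image_eq _ (g n).injective] at this
    exact this
  · intro n m hnm
    rw [Function.onFun, Set.disjoint_left]
    rintro _ ⟨y, ⟨_, h2, _⟩, rfl⟩ ⟨y', ⟨_, h2', _⟩, e⟩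
    rw [e] at h2'
    exact hnm (nat_unique h2 h2')
  · intro n
    exact (g n).toMeasurableEquiv.measurableEmbedding.measurableSet_image' (meas_pc hk hk' hE n)
  · intro n m hnm
    rw [Function.onFun, Set.disjoint_left]
    rintro y ⟨h1, _⟩ ⟨h1', _⟩
    exact hnm (nat_unique h1 h1')


/-- `z` is close to the class of `a` -/
def near (z : T2) (a b : ℝ) : Prop := ‖z.1 - (a : T1)‖ ≤ 1 / 16 ∧ ‖z.2 - (b : T1)‖ ≤ 1 / 16

/-- the main property: an approximate copy of the action inside the partial injections -/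
def Good (g : ℕ → Y ≃ₜ Y) (k k' : Fin 3 → C(Y, ℝ)) (κ : Fin 2 → C(Y, ℝ)) (δ : ℝ) (d : T1)
    (ν : Measure Y) : Prop :=
  ∃ ζ : Y → T2, Measurable ζ ∧
    (∀ s, ν.real (dm g (k s) (k' s) {p | ζ p.2 = S d s (ζ p.1)})ᶜ ≤ δ) ∧
    ν.real {y | ¬ near (ζ y) (κ 0 y) (κ 1 y)} ≤ δ

lemma meas_near {ζ : Y → T2} (hζ : Measurable ζ) (κ : Fin 2 → C(Y, ℝ)) :
    MeasurableSet {y | near (ζ y) (κ 0 y) (κ 1 y)} := by
  have hc : ∀ i, Measurable (fun y => ((κ i y : ℝ) : T1)) := fun i =>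
    ((AddCircle.continuous_mk' (1 : ℝ)).comp (κ i).continuous).measurable
  exact (measurableSet_le (hζ.fst.sub (hc 0)).norm measurable_const).inter
    (measurableSet_le (hζ.snd.sub (hc 1)).norm measurable_const)

lemma near_sub {z w : T2} {a b : ℝ} (hz : near z a b) (hw : near w a b) : z - w ∈ box := by
  constructor
  · have : (z - w).1 = (z.1 - (a : T1)) - (w.1 - (a : T1)) := by simp
    rw [this]
    have := norm_sub_le (z.1 - (a : T1)) (w.1 - (a : T1))
    linarith [hz.1, hw.1]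
  · have : (z - w).2 = (z.2 - (b : T1)) - (w.2 - (b : T1)) := by simp
    rw [this]
    have := norm_sub_le (z.2 - (b : T1)) (w.2 - (b : T1))
    linarith [hz.2, hw.2]

/-- **Uniqueness lemma**: with the same data and the same measure, the parameter is unique. -/
theorem Good.unique [SecondCountableTopology Y] {g : ℕ → Y ≃ₜ Y} {k k' : Fin 3 → C(Y, ℝ)}
    {κ : Fin 2 → C(Y, ℝ)} {δ : ℝ} (hδ : δ < 1 / 30) {d₁ d₂ : T1}
    {ν : Measure Y} [IsProbabilityMeasure ν] (hν : ∀ n, MeasurePreserving (g n) ν ν)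
    (h₁ : Good g k k' κ δ d₁ ν) (h₂ : Good g k k' κ δ d₂ ν) : d₁ = d₂ := by
  obtain ⟨ζ₁, m₁, a₁, b₁⟩ := h₁
  obtain ⟨ζ₂, m₂, a₂, b₂⟩ := h₂
  have hS : ∀ d s, Measurable (S d s) := fun d s => (continuous_S' d s).measurable
  have hE₁ : ∀ s, MeasurableSet {p : Y × Y | ζ₁ p.2 = S d₁ s (ζ₁ p.1)} := fun s =>
    measurableSet_eq_fun (m₁.comp measurable_snd) ((hS _ _).comp (m₁.comp measurable_fst))
  have hE₂ : ∀ s, MeasurableSet {p : Y × Y | ζ₂ p.2 = S d₂ s (ζ₂ p.1)} := fun s =>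
    measurableSet_eq_fun (m₂.comp measurable_snd) ((hS _ _).comp (m₂.comp measurable_fst))
  -- joint good set
  let w : Y → T2 := fun y => ζ₁ y - ζ₂ y
  have hw : Measurable w := m₁.sub m₂
  let E : Fin 3 → Set (Y × Y) := fun s =>
    {p | ζ₁ p.2 = S d₁ s (ζ₁ p.1)} ∩ {p | ζ₂ p.2 = S d₂ s (ζ₂ p.1)}
  have hE : ∀ s, MeasurableSet (E s) := fun s => (hE₁ s).inter (hE₂ s)
  have hdm : ∀ s, ν.real (dm g (k s) (k' s) (E s))ᶜ ≤ 2 * δ := by
    intro s
    have hsub : (dm g (k s) (k' s) (E s))ᶜ ⊆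
        (dm g (k s) (k' s) {p | ζ₁ p.2 = S d₁ s (ζ₁ p.1)})ᶜ ∪
        (dm g (k s) (k' s) {p | ζ₂ p.2 = S d₂ s (ζ₂ p.1)})ᶜ := by
      intro y hy
      by_contra hcon
      simp only [mem_union, mem_compl_iff, not_or, not_not] at hcon
      obtain ⟨⟨y₁, r₁, e₁⟩, ⟨y₂, r₂, e₂⟩⟩ := hcon
      obtain rfl := r₁.fun_of r₂
      exact hy ⟨y₁, r₁, e₁, e₂⟩
    have := (measureReal_mono (μ := ν) hsub).trans (measureReal_union_le _ _)
    linarith [a₁ s, a₂ s]
  -- law of `w`
  have key : ∀ s (F : T2 → T2), Measurable F →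
      (∀ y y', (y, y') ∈ E s → w y' = F (w y)) →
      ∀ B, MeasurableSet B → ν.real (w ⁻¹' (F ⁻¹' B)) ≤ ν.real (w ⁻¹' B) + 2 * δ := by
    intro s F hF hEF B hB
    have hEB : MeasurableSet (E s ∩ {p | w p.2 ∈ B}) :=
      (hE s).inter ((hw.comp measurable_snd) hB)
    have h1 : w ⁻¹' (F ⁻¹' B) ⊆
        dm g (k s) (k' s) (E s ∩ {p | w p.2 ∈ B}) ∪ (dm g (k s) (k' s) (E s))ᶜ := by
      intro y hy
      by_cases hd : y ∈ dm g (k s) (k' s) (E s)
      · left
        obtain ⟨y', r, e⟩ := hd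
        refine ⟨y', r, e, ?_⟩
        change w y' ∈ B
        rw [hEF y y' e]; exact hy
      · right; exact hd
    have h2 : rn g (k s) (k' s) (E s ∩ {p | w p.2 ∈ B}) ⊆ w ⁻¹' B := by
      rintro y' ⟨y, _, _, h⟩; exact h
    have h3 : ν.real (dm g (k s) (k' s) (E s ∩ {p | w p.2 ∈ B})) =
        ν.real (rn g (k s) (k' s) (E s ∩ {p | w p.2 ∈ B})) := by
      rw [Measure.real, Measure.real,
        measure_dm_eq_rn (k s).continuous (k' s).continuous hν hEB]
    have h4 := (measureReal_mono (μ := ν) h1).trans (measureReal_union_le _ _)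
    have h5 := measureReal_mono (μ := ν) h2
    linarith [hdm s]
  have key2 : ∀ s (F : T2 → T2), Measurable F →
      (∀ y y', (y, y') ∈ E s → w y' = F (w y)) →
      ∀ B, MeasurableSet B → |ν.real (w ⁻¹' (F ⁻¹' B)) - ν.real (w ⁻¹' B)| ≤ 2 * δ := by
    intro s F hF hEF B hB
    have h1 := key s F hF hEF B hB
    have h2 := key s F hF hEF Bᶜ hB.compl
    rw [preimage_compl, preimage_compl, preimage_compl, probReal_compl_eq_one_sub (hw (hF hB)),
      probReal_compl_eq_one_sub (hw hB)] at h2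
    rw [abs_le]; constructor <;> linarith
  have hw1 : ∀ y y', (y, y') ∈ E 0 → w y' = f1 (w y) := by
    rintro y y' ⟨e1, e2⟩
    change ζ₁ y' = _ at e1; change ζ₂ y' = _ at e2
    change ζ₁ y' - ζ₂ y' = _
    rw [e1, e2, S_zero, S_zero, ← f1_sub]
  have hw2 : ∀ y y', (y, y') ∈ E 1 → w y' = f2 (w y) := by
    rintro y y' ⟨e1, e2⟩
    change ζ₁ y' = _ at e1; change ζ₂ y' = _ at e2
    change ζ₁ y' - ζ₂ y' = _
    rw [e1, e2, S_one, S_one, ← f2_sub]
  have hbox : ν.real (w ⁻¹' boxᶜ) ≤ 2 * δ := by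
    have hsub : w ⁻¹' boxᶜ ⊆ {y | ¬ near (ζ₁ y) (κ 0 y) (κ 1 y)} ∪
        {y | ¬ near (ζ₂ y) (κ 0 y) (κ 1 y)} := by
      intro y hy
      by_contra hcon
      simp only [mem_union, mem_ofPred_eq, not_or, not_not] at hcon
      exact hy (near_sub hcon.1 hcon.2)
    have := (measureReal_mono (μ := ν) hsub).trans (measureReal_union_le _ _)
    linarith
  have hprob : IsProbabilityMeasure (ν.map w) := Measure.isProbabilityMeasure_map hw.aemeasurable
  have hmr : ∀ B, MeasurableSet B → (ν.map w).real B = ν.real (w ⁻¹' B) := fun B hB => by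
    rw [Measure.real, Measure.map_apply hw hB, Measure.real]
  have hb := burger (ν.map w) (2 * δ) (by rw [hmr _ meas_box.compl]; exact hbox)
    (by intro B hB
        rw [hmr _ hB, hmr _ (continuous_f1.measurable hB)]
        exact key2 0 f1 continuous_f1.measurable hw1 B hB)
    (by intro B hB
        rw [hmr _ hB, hmr _ (continuous_f2.measurable hB)]
        exact key2 1 f2 continuous_f2.measurable hw2 B hB)
  have hne : MeasurableSet {v : T2 | v ≠ 0} := (measurableSet_singleton (0 : T2)).compl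
  rw [hmr _ hne] at hb
  -- the translation
  have hE2 : MeasurableSet (E 2 ∩ {p | w p.2 ≠ 0}) :=
    (hE 2).inter ((hw.comp measurable_snd) hne)
  have h3 : ν.real (dm g (k 2) (k' 2) (E 2 ∩ {p | w p.2 ≠ 0})) ≤ 7 * (2 * δ) := by
    have : ν.real (dm g (k 2) (k' 2) (E 2 ∩ {p | w p.2 ≠ 0})) =
        ν.real (rn g (k 2) (k' 2) (E 2 ∩ {p | w p.2 ≠ 0})) := by
      rw [Measure.real, Measure.real,
        measure_dm_eq_rn (k 2).continuous (k' 2).continuous hν hE2]
    rw [this]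
    refine le_trans (measureReal_mono ?_) hb
    rintro y' ⟨y, _, _, h⟩; exact h
  by_contra hd
  have hcov : (univ : Set Y) ⊆ (dm g (k 2) (k' 2) (E 2))ᶜ ∪
      (w ⁻¹' {v : T2 | v ≠ 0} ∪ dm g (k 2) (k' 2) (E 2 ∩ {p | w p.2 ≠ 0})) := by
    intro y _
    by_cases h : y ∈ dm g (k 2) (k' 2) (E 2)
    · right
      obtain ⟨y', r, e⟩ := h
      by_cases hy : w y = 0
      · right
        refine ⟨y', r, e, ?_⟩
        change w y' ≠ 0
        intro hy'
        have e1 : ζ₁ y' = S d₁ 2 (ζ₁ y) := e.1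
        have e2 : ζ₂ y' = S d₂ 2 (ζ₂ y) := e.2
        have e3 : ζ₁ y = ζ₂ y := sub_eq_zero.1 hy
        have e4 : ζ₁ y' = ζ₂ y' := sub_eq_zero.1 hy'
        rw [e1, e2, S_two, S_two, e3] at e4
        exact hd (add_left_cancel (Prod.mk.inj e4).1)
      · left; exact hy
    · left; exact h
  have h4 := (measureReal_mono (μ := ν) hcov).trans (measureReal_union_le _ _)
  have h5 := measureReal_union_le (μ := ν) (w ⁻¹' {v : T2 | v ≠ 0})
    (dm g (k 2) (k' 2) (E 2 ∩ {p | w p.2 ≠ 0}))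
  have h6 : ν.real (univ : Set Y) = 1 := by simp
  linarith [hdm 2]

end Pool.Agent.CBER
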