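import Pool.Agent.Lib.MP_ff62c8_lc.Limit2

/-! # Invariant measures of the fibred translation -/

set_option autoImplicit false

open MeasureTheory Set ProbabilityTheory Filter Topology
open scoped ENNReal NNReal BoundedContinuousFunction

namespace Pool.Agent.CBER

/-- infinite order -/
def Irr (x : T1) : Prop := ∀ n : ℤ, n ≠ 0 → n • x ≠ 0

lemma integral_fourier_eq_zero (κ : Measure T1) [IsFiniteMeasure κ] {θ : T1} (hθ : Irr θ)
    (h : κ.map (fun z => z + θ) = κ) {n : ℤ} (hn : n ≠ 0) :
    ∫ z, (fourier n z : ℂ) ∂κ = 0 := by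
  have hm : Measurable (fun z : T1 => z + θ) := by fun_prop
  have h1 : ∫ z, (fourier n z : ℂ) ∂κ = ∫ z, (fourier n (z + θ) : ℂ) ∂κ := by
    conv_lhs => rw [← h]
    rw [integral_map hm.aemeasurable]
    exact (fourier n).continuous.aestronglyMeasurable
  have h2 : ∀ z : T1, (fourier n (z + θ) : ℂ) = fourier n z * fourier n θ := by
    intro z
    rw [fourier_apply, fourier_apply, fourier_apply, smul_add, AddCircle.toCircle_add]
    simp
  simp_rw [h2] at h1
  rw [integral_mul_const] at h1
  have h3 : (fourier n θ : ℂ) ≠ 1 := by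
    rw [fourier_apply]
    intro h4
    have h5 : AddCircle.toCircle (n • θ) = 1 := by
      apply Subtype.ext
      simpa using h4
    have h6 : (AddCircle.toCircle (n • θ)) = AddCircle.toCircle (0 : T1) := by
      rw [h5, AddCircle.toCircle_zero]
    exact hθ n hn (AddCircle.injective_toCircle one_ne_zero h6)
  have h4 : (∫ z, (fourier n z : ℂ) ∂κ) * (1 - fourier n θ) = 0 := by
    rw [mul_sub, mul_one, ← h1, sub_self]
  rcases mul_eq_zero.1 h4 with h5 | h5
  · exact h5
  · exact absurd (sub_eq_zero.1 h5).symm h3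

lemma eq_of_fourier (κ κ' : Measure T1) [IsProbabilityMeasure κ] [IsProbabilityMeasure κ']
    (h : ∀ n : ℤ, n ≠ 0 → ∫ z, (fourier n z : ℂ) ∂κ = ∫ z, (fourier n z : ℂ) ∂κ') : κ = κ' := by
  have hall : ∀ f : C(T1, ℂ), ∫ z, f z ∂κ = ∫ z, f z ∂κ' := by
    have hint : ∀ (μ : Measure T1) [IsProbabilityMeasure μ] (f : C(T1, ℂ)), Integrable f μ :=
      fun μ _ f => f.continuous.integrable_of_hasCompactSupport
        (HasCompactSupport.of_compactSpace _)
    have hcont : ∀ (μ : Measure T1) [IsProbabilityMeasure μ],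
        Continuous (fun f : C(T1, ℂ) => ∫ z, f z ∂μ) := by
      intro μ _
      refine LipschitzWith.continuous (K := 1) (LipschitzWith.of_dist_le_mul fun f g => ?_)
      rw [dist_eq_norm, ← integral_sub (hint μ f) (hint μ g)]
      refine (norm_integral_le_of_norm_le_const (C := dist f g) (ae_of_all _ fun z => ?_)).trans ?_
      · rw [← dist_eq_norm]; exact ContinuousMap.dist_apply_le_dist z
      · simp
    let M : Submodule ℂ C(T1, ℂ) :=
      { carrier := {f | ∫ z, f z ∂κ = ∫ z, f z ∂κ'}
        add_mem' := by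
          intro f g hf hg
          simp only [mem_ofPred_eq, ContinuousMap.add_apply] at hf hg ⊢
          rw [integral_add (hint κ f) (hint κ g), integral_add (hint κ' f) (hint κ' g), hf, hg]
        zero_mem' := by simp
        smul_mem' := by
          intro c f hf
          simp only [mem_ofPred_eq, ContinuousMap.smul_apply] at hf ⊢
          rw [integral_smul, integral_smul, hf] }
    have hMc : IsClosed (M : Set C(T1, ℂ)) := isClosed_eq (hcont κ) (hcont κ')
    have hsub : (Submodule.span ℂ (range (@fourier 1))).topologicalClosure ≤ M := by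
      refine Submodule.topologicalClosure_minimal _ (Submodule.span_le.2 ?_) hMc
      rintro _ ⟨n, rfl⟩
      by_cases hn : n = 0
      · subst hn
        change ∫ z, (fourier 0 z : ℂ) ∂κ = ∫ z, (fourier 0 z : ℂ) ∂κ'
        simp
      · exact h n hn
    rw [span_fourier_closure_eq_top] at hsub
    exact fun f => hsub trivial
  refine ext_of_forall_integral_eq_of_IsFiniteMeasure fun f => ?_
  let F : C(T1, ℂ) := ⟨fun z => ((f z : ℝ) : ℂ), by fun_prop⟩
  have : ∫ z, ((f z : ℝ) : ℂ) ∂κ = ∫ z, ((f z : ℝ) : ℂ) ∂κ' := hall F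
  rw [integral_complex_ofReal, integral_complex_ofReal] at this
  exact_mod_cast this

lemma volume_inv (θ : T1) : (volume : Measure T1).map (fun z => z + θ) = volume :=
  (measurePreserving_add_right volume θ).map_eq

instance : IsProbabilityMeasure (volume : Measure T1) :=
  ⟨by rw [AddCircle.measure_univ]; simp⟩

lemma torus_unique (κ : Measure T1) [IsProbabilityMeasure κ] {θ : T1} (hθ : Irr θ)
    (h : κ.map (fun z => z + θ) = κ) : κ = volume :=
  eq_of_fourier _ _ fun _ hn => by
    rw [integral_fourier_eq_zero κ hθ h hn, integral_fourier_eq_zero volume hθ (volume_inv θ) hn]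

/-- A measure on `W × T1` invariant under the fibred translation is a product. -/
theorem inv_prod {W : Type*} [MeasurableSpace W] (μ : Measure (W × T1))
    [IsFiniteMeasure μ] {θ : W → T1} (hθm : Measurable θ) (hθ : ∀ᵐ w ∂μ.fst, Irr (θ w))
    (h : μ.map (fun p => (p.1, p.2 + θ p.1)) = μ) : μ = μ.fst.prod volume := by
  let K : Kernel W T1 := μ.condKernel
  have hK : μ.fst ⊗ₘ K = μ := μ.disintegrate μ.condKernel
  have hm2 : Measurable (fun p : W × T1 => p.2 + θ p.1) :=
    measurable_snd.add (hθm.comp measurable_fst)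
  let K' : Kernel W T1 := (Kernel.id ×ₖ K).map (fun p => p.2 + θ p.1)
  have hK' : ∀ w, K' w = (K w).map (fun z => z + θ w) := by
    intro w
    rw [Kernel.map_apply _ hm2, Kernel.prod_apply, Kernel.id_apply, Measure.dirac_prod,
      Measure.map_map hm2 measurable_prodMk_left]
    rfl
  have hK'm : IsMarkovKernel K' := Kernel.IsMarkovKernel.map _ hm2
  have e1 : μ.fst ⊗ₘ K' = μ := by
    refine Eq.trans ?_ h
    refine Eq.trans ?_ (congrArg (Measure.map (fun p : W × T1 => (p.1, p.2 + θ p.1))) hK)
    ext A hA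
    have hm3 : Measurable (fun p : W × T1 => (p.1, p.2 + θ p.1)) := measurable_fst.prodMk hm2
    rw [Measure.map_apply hm3 hA, Measure.compProd_apply hA, Measure.compProd_apply (hm3 hA)]
    refine lintegral_congr fun w => ?_
    rw [hK' w, Measure.map_apply (by fun_prop) (measurable_prodMk_left hA)]
    rfl
  have e2 : K' =ᵐ[μ.fst] K := Kernel.ae_eq_of_compProd_eq (e1.trans hK.symm)
  have e4 : K =ᵐ[μ.fst] Kernel.const W (volume : Measure T1) := by
    filter_upwards [e2, hθ] with w hw hw'
    rw [Kernel.const_apply]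
    refine torus_unique (K w) hw' ?_
    rw [← hK' w, hw]
  conv_lhs => rw [← hK]
  rw [Measure.compProd_congr e4, Measure.compProd_const]

lemma irr_meas : MeasurableSet {x : T1 | Irr x} := by
  have : {x : T1 | Irr x} = ⋂ (n : ℤ), ⋂ (_ : n ≠ 0), {x : T1 | n • x ≠ 0} := by
    ext x; simp [Irr]
  rw [this]
  refine MeasurableSet.iInter fun n => MeasurableSet.iInter fun _ => ?_
  have : IsClosed {x : T1 | n • x = 0} := isClosed_eq (by fun_prop) continuous_const
  exact this.measurableSet.compl

/-- fibred translations of `T1 × T2` -/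
def ta (p : T1 × T2) : T1 × T2 := (p.1, (p.2.1 + p.1, p.2.2))
def tb (p : T1 × T2) : T1 × T2 := (p.1, (p.2.1, p.2.2 + p.1))

lemma continuous_ta : Continuous ta := by unfold ta; fun_prop
lemma continuous_tb : Continuous tb := by unfold tb; fun_prop

theorem inv_prod2 (m : Measure (T1 × T2)) [IsFiniteMeasure m] (hθ : ∀ᵐ p ∂m, Irr p.1)
    (h1 : m.map ta = m) (h2 : m.map tb = m) :
    m = m.fst.prod (volume : Measure T2) := by
  -- first coordinate
  let e1 : T1 × T2 → (T1 × T1) × T1 := fun p => ((p.1, p.2.2), p.2.1)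
  have he1 : Measurable e1 := by fun_prop
  let μ1 : Measure ((T1 × T1) × T1) := m.map e1
  have hi1 : μ1 = μ1.fst.prod volume := by
    refine inv_prod μ1 (θ := fun w : T1 × T1 => w.1) measurable_fst ?_ ?_
    · have : μ1.fst = m.map (fun p => (p.1, p.2.2)) := by
        rw [Measure.fst, Measure.map_map measurable_fst he1]; rfl
      rw [this, ae_map_iff (by fun_prop)]
      · exact hθ
      · exact measurable_fst irr_meas
    · have hmm : Measurable (fun p : (T1 × T1) × T1 => (p.1, p.2 + p.1.1)) := by fun_prop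
      rw [Measure.map_map hmm he1]
      have : (fun p : (T1 × T1) × T1 => (p.1, p.2 + p.1.1)) ∘ e1 = e1 ∘ ta := rfl
      rw [this, ← Measure.map_map he1 continuous_ta.measurable, h1]
  let e2 : T1 × T2 → T1 × T1 := fun p => (p.1, p.2.2)
  have he2 : Measurable e2 := by fun_prop
  let μ2 : Measure (T1 × T1) := m.map e2
  have hi2 : μ2 = μ2.fst.prod volume := by
    refine inv_prod μ2 (θ := fun w : T1 => w) measurable_id ?_ ?_
    · have : μ2.fst = m.map (fun p => p.1) := by
        rw [Measure.fst, Measure.map_map measurable_fst he2]; rfl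
      rw [this, ae_map_iff (by fun_prop)]
      · exact hθ
      · exact irr_meas
    · have hmm : Measurable (fun p : T1 × T1 => (p.1, p.2 + p.1)) := by fun_prop
      rw [Measure.map_map hmm he2]
      have : (fun p : T1 × T1 => (p.1, p.2 + p.1)) ∘ e2 = e2 ∘ tb := rfl
      rw [this, ← Measure.map_map he2 continuous_tb.measurable, h2]
  refine Measure.ext_prod₃ fun {A B C} hA hB hC => ?_
  rw [Measure.prod_prod, Measure.volume_eq_prod, Measure.prod_prod]
  have a1 : m (A ×ˢ B ×ˢ C) = μ1 ((A ×ˢ C) ×ˢ B) := by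
    rw [Measure.map_apply he1 ((hA.prod hC).prod hB)]
    congr 1
    ext ⟨x, a, b⟩
    simp only [mem_prod, mem_preimage, e1]
    tauto
  have a2 : μ1 ((A ×ˢ C) ×ˢ B) = μ1 ((A ×ˢ C) ×ˢ univ) * volume B := by
    rw [hi1, Measure.prod_prod, Measure.prod_prod, measure_univ, mul_one]
  have a3 : μ1 ((A ×ˢ C) ×ˢ univ) = μ2 (A ×ˢ C) := by
    rw [Measure.map_apply he1 ((hA.prod hC).prod MeasurableSet.univ),
      Measure.map_apply he2 (hA.prod hC)]
    congr 1
    ext ⟨x, a, b⟩
    simp [e1, e2]
  have a4 : μ2 (A ×ˢ C) = μ2 (A ×ˢ univ) * volume C := by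
    rw [hi2, Measure.prod_prod, Measure.prod_prod, measure_univ, mul_one]
  have a5 : μ2 (A ×ˢ univ) = m.fst A := by
    rw [Measure.map_apply he2 (hA.prod MeasurableSet.univ), Measure.fst_apply hA]
    congr 1
    ext ⟨x, a, b⟩
    simp [e2]
  rw [a1, a2, a3, a4, a5]
  ring

end Pool.Agent.CBER
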