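import Pool.Agent.Lib.MP_ff62c8_lc.Data

/-! # Kernel inequalities and the pair lemma -/

set_option autoImplicit false

open MeasureTheory Set ProbabilityTheory
open scoped ENNReal

namespace Pool.Agent.CBER

section K
variable {α β : Type*} {mα : MeasurableSpace α} {mβ : MeasurableSpace β} {μ : Measure α}

/-- a sub-measure of a composition product is a composition product with a sub-kernel -/
lemma exists_subkernel [IsFiniteMeasure μ] (η : Kernel α β) [IsFiniteKernel η]
    {Q : Measure (α × β)} (h : Q ≤ μ ⊗ₘ η) :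
    ∃ κ : Kernel α β, (∀ a, κ a ≤ η a) ∧ IsFiniteKernel κ ∧ μ ⊗ₘ κ = Q := by
  have hQ : IsFiniteMeasure Q := ⟨(h _).trans_lt (measure_lt_top _ _)⟩
  let f : α → β → ℝ≥0∞ := fun a b => min (Q.rnDeriv (μ ⊗ₘ η) (a, b)) 1
  have hf : Measurable (Function.uncurry f) := by
    have : Function.uncurry f = fun p => min (Q.rnDeriv (μ ⊗ₘ η) p) 1 := by
      funext p; rfl
    rw [this]; exact (Measure.measurable_rnDeriv _ _).min measurable_const
  have hle : ∀ a, η.withDensity f a ≤ η a := by
    intro a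
    rw [Kernel.withDensity_apply _ hf]
    calc (η a).withDensity (f a) ≤ (η a).withDensity 1 :=
          withDensity_mono (Filter.Eventually.of_forall fun b => min_le_right _ _)
      _ = η a := withDensity_one
  have hfin : IsFiniteKernel (η.withDensity f) := by
    refine ⟨⟨η.bound, η.bound_lt_top, fun a => ?_⟩⟩
    exact (hle a univ).trans (Kernel.measure_le_bound η a univ)
  refine ⟨η.withDensity f, hle, hfin, ?_⟩
  rw [Measure.compProd_withDensity hf]
  have h1 : (fun p : α × β => f p.1 p.2) =ᵐ[μ ⊗ₘ η] Q.rnDeriv (μ ⊗ₘ η) := by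
    filter_upwards [Measure.rnDeriv_le_one_of_le h] with p hp
    exact min_eq_left hp
  rw [withDensity_congr_ae h1]
  exact Measure.withDensity_rnDeriv_eq _ _ (Measure.absolutelyContinuous_of_le h)

lemma kernel_le_of_compProd_le [MeasurableSpace.CountableOrCountablyGenerated α β]
    [IsFiniteMeasure μ] (κ η : Kernel α β) [IsFiniteKernel κ] [IsFiniteKernel η]
    (h : μ ⊗ₘ κ ≤ μ ⊗ₘ η) : ∀ᵐ a ∂μ, κ a ≤ η a := by
  obtain ⟨κ', h1, h2, h3⟩ := exists_subkernel η h
  have := Kernel.ae_eq_of_compProd_eq h3.symm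
  filter_upwards [this] with a ha
  rw [ha]; exact h1 a

end K

section Pair
variable {Y Z Ω : Type*} [MeasurableSpace Y] [MeasurableSpace Z] [MeasurableSpace Ω]

/-- the law of a pair of conditionally independent copies -/
noncomputable def pairLaw (ν : Measure Y) (K : Kernel Y Z) : Measure (Z × Z) :=
  ν.bind (fun y => (K y).prod (K y))

lemma measurable_pair (K : Kernel Y Z) [IsFiniteKernel K] :
    Measurable (fun y => (K y).prod (K y)) := by
  have : (fun y => (K y).prod (K y)) = fun y => (K ×ₖ K) y := by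
    funext y; rw [Kernel.prod_apply]
  rw [this]; exact (K ×ₖ K).measurable

lemma pairLaw_apply (ν : Measure Y) (K : Kernel Y Z) [IsFiniteKernel K] {B : Set (Z × Z)}
    (hB : MeasurableSet B) : pairLaw ν K B = ∫⁻ y, ((K y).prod (K y)) B ∂ν :=
  Measure.bind_apply hB (measurable_pair K).aemeasurable

instance (ν : Measure Y) [IsProbabilityMeasure ν] (K : Kernel Y Z) [IsMarkovKernel K] :
    IsProbabilityMeasure (pairLaw ν K) := by
  constructor
  rw [pairLaw_apply _ _ MeasurableSet.univ]
  simp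

lemma ineq_aux {μ₁ μ₂ : Measure (Z × Z)} (h : μ₁ ≤ μ₂) (h2 : μ₂ univ = 1) {m : ℝ≥0∞}
    (hm : m ≤ 1) (h1 : μ₁ univ = m * m) {C : Set (Z × Z)} (hC : MeasurableSet C) :
    μ₂ C ≤ μ₁ C + 2 * (1 - m) := by
  have hmt : m ≠ ∞ := ne_top_of_le_ne_top ENNReal.one_ne_top hm
  have hmm : m * m ≠ ∞ := ENNReal.mul_ne_top hmt hmt
  have e1 : μ₂ C + μ₁ Cᶜ ≤ 1 := by
    rw [← h2, ← measure_add_measure_compl hC]
    gcongr
  have e2 : μ₁ C + μ₁ Cᶜ = m * m := by rw [measure_add_measure_compl hC, h1]
  have e3 : (1 : ℝ≥0∞) ≤ m * m + 2 * (1 - m) := by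
    lift m to NNReal using hmt
    have hm' : m ≤ 1 := by exact_mod_cast hm
    have : (1 : NNReal) ≤ m * m + 2 * (1 - m) := by
      rw [← NNReal.coe_le_coe]
      push_cast [NNReal.coe_sub hm']
      nlinarith [sq_nonneg ((m : ℝ) - 1)]
    exact_mod_cast this
  have e4 : μ₂ C + m * m ≤ μ₁ C + 2 * (1 - m) + m * m := by
    calc μ₂ C + m * m = μ₂ C + μ₁ Cᶜ + μ₁ C := by rw [← e2]; ring
      _ ≤ 1 + μ₁ C := by gcongr
      _ ≤ (m * m + 2 * (1 - m)) + μ₁ C := by gcongr
      _ = _ := by ring
  exact (ENNReal.add_le_add_iff_right hmm).1 e4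

variable [TopologicalSpace Y] [SecondCountableTopology Y] [BorelSpace Y]
variable {g : ℕ → Y ≃ₜ Y} {k k' : Y → ℝ}

theorem pair_lemma [MeasurableSpace.CountableOrCountablyGenerated Y Z]
    {ν : Measure Y} [IsProbabilityMeasure ν] (hν : ∀ n, MeasurePreserving (g n) ν ν)
    (hk : Continuous k) (hk' : Continuous k') (K : Kernel Y Z) [IsMarkovKernel K]
    (ρ : Measure Ω) [IsProbabilityMeasure ρ] {a a' : Ω → Y} {z z' : Ω → Z}
    (ha : Measurable a) (ha' : Measurable a') (hz : Measurable z) (hz' : Measurable z')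
    {s : Z → Z} (hs : Measurable s) {G : Set Ω} (hG : MeasurableSet G)
    (H1 : ρ.map (fun ω => (a ω, z ω)) = ν ⊗ₘ K)
    (H2 : (ρ.restrict G).map (fun ω => (a' ω, z' ω)) ≤ ν ⊗ₘ K)
    (H3 : ∀ᵐ ω ∂ρ, ω ∈ G → Rl g k k' (a ω) (a' ω) ∧ z' ω = s (z ω))
    {B : Set (Z × Z)} (hB : MeasurableSet B) :
    pairLaw ν K ((Prod.map s s) ⁻¹' B) ≤ pairLaw ν K B + 2 * ρ Gᶜ := by
  classical
  -- the sub-kernel
  have hQ : (ρ.restrict G).map (fun ω => (a ω, z ω)) ≤ ν ⊗ₘ K := by
    rw [← H1]
    exact Measure.map_mono Measure.restrict_le_self (ha.prodMk hz)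
  obtain ⟨κ, hκ, hfin, hκQ⟩ := exists_subkernel K hQ
  let D : ℕ → Set Y := fun n => pc g k k' univ n
  have hD : ∀ n, MeasurableSet (D n) := fun n => meas_pc hk hk' MeasurableSet.univ n
  have hDd : Pairwise (Function.onFun Disjoint D) := by
    intro n m hnm
    rw [Function.onFun, Set.disjoint_left]
    rintro y ⟨h1, _⟩ ⟨h1', _⟩
    exact hnm (nat_unique h1 h1')
  have hgm : ∀ n, Measurable (g n) := fun n => (g n).continuous.measurable
  have hgi : ∀ n, Measurable (g n).symm := fun n => (g n).symm.continuous.measurable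
  -- domination on each piece
  have step : ∀ n, ∀ᵐ y ∂(ν.restrict (D n)), (κ y).map s ≤ K (g n y) := by
    intro n
    have hle : (ν.restrict (D n)) ⊗ₘ (κ.map s) ≤ (ν.restrict (D n)) ⊗ₘ (K.comap (g n) (hgm n)) := by
      refine Measure.le_iff.2 fun A hA => ?_
      have hA' : MeasurableSet {p : Y × Z | p.1 ∈ D n ∧ (p.1, s p.2) ∈ A} :=
        (measurable_fst (hD n)).inter ((measurable_fst.prodMk (hs.comp measurable_snd)) hA)
      have hA'' : MeasurableSet {p : Y × Z | (g n).symm p.1 ∈ D n ∧ ((g n).symm p.1, p.2) ∈ A} :=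
        (((hgi n).comp measurable_fst) (hD n)).inter
          ((((hgi n).comp measurable_fst).prodMk measurable_snd) hA)
      have l1 : ((ν.restrict (D n)) ⊗ₘ (κ.map s)) A =
          (ν ⊗ₘ κ) {p : Y × Z | p.1 ∈ D n ∧ (p.1, s p.2) ∈ A} := by
        rw [Measure.compProd_apply hA, Measure.compProd_apply hA',
          ← lintegral_indicator (hD n)]
        refine lintegral_congr fun y => ?_
        by_cases hy : y ∈ D n
        · rw [indicator_of_mem hy, Kernel.map_apply' _ hs _ (measurable_prodMk_left hA)]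
          congr 1
          ext z; simp [hy]
        · rw [indicator_of_notMem hy]
          have : Prod.mk y ⁻¹' {p : Y × Z | p.1 ∈ D n ∧ (p.1, s p.2) ∈ A} = ∅ := by
            ext z; simp [hy]
          rw [this, measure_empty]
      have l2 : (ν ⊗ₘ κ) {p : Y × Z | p.1 ∈ D n ∧ (p.1, s p.2) ∈ A} ≤
          ((ρ.restrict G).map (fun ω => (a' ω, z' ω)))
            {p : Y × Z | (g n).symm p.1 ∈ D n ∧ ((g n).symm p.1, p.2) ∈ A} := by
        rw [hκQ, Measure.map_apply (ha.prodMk hz) hA', Measure.map_apply (ha'.prodMk hz') hA'',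
          Measure.restrict_apply ((ha.prodMk hz) hA'),
          Measure.restrict_apply ((ha'.prodMk hz') hA'')]
        refine measure_mono_ae ?_
        filter_upwards [H3] with ω hω
        rintro ⟨⟨h1, h2⟩, h3⟩
        obtain ⟨⟨m, r1, r2, r3⟩, r4⟩ := hω h3
        have hnm : m = n := nat_unique r1 h1.1
        subst hnm
        have h1' : a ω ∈ D m := h1
        have h2' : (a ω, s (z ω)) ∈ A := h2
        have e : (g m).symm (a' ω) = a ω := by rw [r3]; exact (g m).symm_apply_apply _
        refine ⟨⟨?_, ?_⟩, h3⟩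
        · change (g m).symm (a' ω) ∈ D m
          rw [e]; exact h1'
        · change ((g m).symm (a' ω), z' ω) ∈ A
          rw [e, r4]; exact h2'
      have l3 : (ν ⊗ₘ K) {p : Y × Z | (g n).symm p.1 ∈ D n ∧ ((g n).symm p.1, p.2) ∈ A} =
          ((ν.restrict (D n)) ⊗ₘ (K.comap (g n) (hgm n))) A := by
        rw [Measure.compProd_apply hA, Measure.compProd_apply hA'',
          ← lintegral_indicator (hD n)]
        have hmeas : Measurable (fun y => (K y) (Prod.mk y ⁻¹'
            {p : Y × Z | (g n).symm p.1 ∈ D n ∧ ((g n).symm p.1, p.2) ∈ A})) :=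
          Kernel.measurable_kernel_prodMk_left hA''
        rw [← (hν n).lintegral_comp hmeas]
        refine lintegral_congr fun y => ?_
        by_cases hy : y ∈ D n
        · rw [indicator_of_mem hy, Kernel.comap_apply]
          congr 1
          ext z; simp [hy]
        · rw [indicator_of_notMem hy]
          have : Prod.mk (g n y) ⁻¹'
            {p : Y × Z | (g n).symm p.1 ∈ D n ∧ ((g n).symm p.1, p.2) ∈ A} = ∅ := by
            ext z; simp [hy]
          rw [this, measure_empty]
      rw [l1, ← l3]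
      exact l2.trans (H2 _)
    filter_upwards [kernel_le_of_compProd_le _ _ hle] with y hy
    rwa [Kernel.map_apply _ hs, Kernel.comap_apply] at hy
  -- the sub-kernel vanishes outside the domain
  have step2 : ∀ᵐ y ∂ν, y ∉ (⋃ n, D n) → κ y = 0 := by
    have hU : MeasurableSet (⋃ n, D n) := MeasurableSet.iUnion hD
    have h0 : (ν ⊗ₘ κ) ((⋃ n, D n)ᶜ ×ˢ univ) = 0 := by
      rw [hκQ, Measure.map_apply (ha.prodMk hz) (hU.compl.prod MeasurableSet.univ),
        Measure.restrict_apply ((ha.prodMk hz) (hU.compl.prod MeasurableSet.univ))]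
      refine measure_mono_null_ae ?_ (measure_empty (μ := ρ))
      filter_upwards [H3] with ω hω
      rintro ⟨⟨h1, _⟩, h3⟩
      obtain ⟨⟨m, r1, r2, r3⟩, r4⟩ := hω h3
      exact h1 (mem_iUnion.2 ⟨m, r1, by rw [← r3]; exact r2, mem_univ _⟩)
    rw [Measure.compProd_apply_prod hU.compl MeasurableSet.univ] at h0
    rw [lintegral_eq_zero_iff (κ.measurable_coe MeasurableSet.univ)] at h0
    have := (ae_restrict_iff' hU.compl).1 h0
    filter_upwards [this] with y hy hyU
    exact Measure.measure_univ_eq_zero.1 (hy hyU)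
  -- first inequality
  have hC : MeasurableSet ((Prod.map s s) ⁻¹' B) := (hs.prodMap hs) hB
  have i1 : pairLaw ν K ((Prod.map s s) ⁻¹' B) ≤
      ∫⁻ y, ((κ y).prod (κ y)) ((Prod.map s s) ⁻¹' B) ∂ν + 2 * ρ Gᶜ := by
    rw [pairLaw_apply _ _ hC]
    have hpt : ∀ y, ((K y).prod (K y)) ((Prod.map s s) ⁻¹' B) ≤
        ((κ y).prod (κ y)) ((Prod.map s s) ⁻¹' B) + 2 * (1 - κ y univ) := by
      intro y
      refine ineq_aux (Measure.prod_mono (hκ y) (hκ y)) (by simp) ?_ ?_ hC
      · calc κ y univ ≤ K y univ := hκ y univ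
          _ = 1 := measure_univ
      · rw [← univ_prod_univ, Measure.prod_prod]
    refine (lintegral_mono hpt).trans ?_
    have hm2 : Measurable (fun y => 1 - κ y univ) :=
      measurable_const.sub (κ.measurable_coe MeasurableSet.univ)
    rw [lintegral_add_right _ (hm2.const_mul 2), lintegral_const_mul _ hm2]
    gcongr
    have hκ1 : ∀ y, κ y univ ≤ 1 := fun y => (hκ y univ).trans (by simp)
    have hint : ∫⁻ y, κ y univ ∂ν = ρ G := by
      have : (ν ⊗ₘ κ) univ = ρ G := by
        rw [hκQ, Measure.map_apply (ha.prodMk hz) MeasurableSet.univ]; simp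
      rw [← this, ← univ_prod_univ, Measure.compProd_apply_prod MeasurableSet.univ
        MeasurableSet.univ]; simp
    rw [lintegral_sub (κ.measurable_coe MeasurableSet.univ) (by rw [hint]; exact measure_ne_top _ _)
      (Filter.Eventually.of_forall hκ1), hint, measure_compl hG (measure_ne_top _ _)]
    simp
  refine i1.trans ?_
  gcongr
  -- second inequality
  have hU : MeasurableSet (⋃ n, D n) := MeasurableSet.iUnion hD
  rw [pairLaw_apply _ _ hB]
  calc ∫⁻ y, ((κ y).prod (κ y)) ((Prod.map s s) ⁻¹' B) ∂ν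
      = ∫⁻ y in (⋃ n, D n), ((κ y).prod (κ y)) ((Prod.map s s) ⁻¹' B) ∂ν := by
        rw [← lintegral_indicator hU]
        refine lintegral_congr_ae ?_
        filter_upwards [step2] with y hy
        by_cases h : y ∈ ⋃ n, D n
        · rw [indicator_of_mem h]
        · rw [indicator_of_notMem h, hy h]; simp
    _ = ∑' n, ∫⁻ y in D n, ((κ y).prod (κ y)) ((Prod.map s s) ⁻¹' B) ∂ν :=
        lintegral_iUnion hD hDd _
    _ ≤ ∑' n, ∫⁻ y in (g n) '' (D n), ((K y).prod (K y)) B ∂ν := by
        refine ENNReal.tsum_le_tsum fun n => ?_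
        have hmeas : Measurable (fun y => ((K y).prod (K y)) B) :=
          (Measure.measurable_coe hB).comp (measurable_pair K)
        have himg : MeasurableSet ((g n) '' (D n)) :=
          (g n).toMeasurableEquiv.measurableEmbedding.measurableSet_image' (hD n)
        have e1 : ∫⁻ y in (g n) '' (D n), ((K y).prod (K y)) B ∂ν =
            ∫⁻ y in D n, ((K (g n y)).prod (K (g n y))) B ∂ν := by
          have := (hν n).setLIntegral_comp_preimage himg hmeas
          rw [preimage_image_eq _ (g n).injective] at this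
          exact this.symm
        rw [e1]
        refine lintegral_mono_ae ?_
        filter_upwards [step n] with y hy
        rw [← Measure.map_apply (hs.prodMap hs) hB, ← Measure.map_prod_map _ _ hs hs]
        exact Measure.prod_mono hy hy B
    _ = ∫⁻ y in (⋃ n, (g n) '' (D n)), ((K y).prod (K y)) B ∂ν := by
        rw [lintegral_iUnion]
        · intro n
          exact (g n).toMeasurableEquiv.measurableEmbedding.measurableSet_image' (hD n)
        · intro n m hnm
          rw [Function.onFun, Set.disjoint_left]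
          rintro _ ⟨y, ⟨_, h2, _⟩, rfl⟩ ⟨y', ⟨_, h2', _⟩, e⟩
          rw [e] at h2'
          exact hnm (nat_unique h2 h2')
    _ ≤ ∫⁻ y, ((K y).prod (K y)) B ∂ν := setLIntegral_le_lintegral _ _

end Pair

end Pool.Agent.CBER
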