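import Pool.Agent.Lib.MP_ff62c8_lc.Weak

/-! # The limit lemma -/

set_option autoImplicit false

open MeasureTheory Set ProbabilityTheory Filter Topology
open scoped ENNReal NNReal BoundedContinuousFunction

namespace Pool.Agent.CBER

section A
variable {Y : Type*} [TopologicalSpace Y]

/-- explicit map extending the partial injection -/
noncomputable def Hm (g : ℕ → Y ≃ₜ Y) (k : Y → ℝ) (y : Y) : Y := g ⌊k y + 1 / 2⌋₊ y

lemma Rl.eq_Hm {g : ℕ → Y ≃ₜ Y} {k k' : Y → ℝ} {y y' : Y} (h : Rl g k k' y y') :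
    y' = Hm g k y := by
  obtain ⟨n, h1, h2, rfl⟩ := h
  have : ⌊k y + 1 / 2⌋₊ = n := by
    have := abs_le.1 h1
    rw [Nat.floor_eq_iff (by
      have : (0 : ℝ) ≤ n := Nat.cast_nonneg n
      linarith)]
    constructor <;> linarith
  rw [Hm, this]

lemma isClosed_Rl [CompactSpace Y] [T2Space Y] {g : ℕ → Y ≃ₜ Y} {k k' : Y → ℝ}
    (hk : Continuous k) (hk' : Continuous k') : IsClosed {p : Y × Y | Rl g k k' p.1 p.2} := by
  obtain ⟨C, hC⟩ := (isCompact_range hk).bddAbove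
  obtain ⟨N, hN⟩ := exists_nat_gt (C + 1)
  have : {p : Y × Y | Rl g k k' p.1 p.2} =
      ⋃ n ∈ Finset.range N, {p : Y × Y | |k p.1 - n| ≤ 1 / 4 ∧ |k' p.2 - n| ≤ 1 / 4 ∧
        p.2 = g n p.1} := by
    ext p
    simp only [Rl, mem_ofPred_eq, mem_iUnion, Finset.mem_range, exists_prop]
    constructor
    · rintro ⟨n, h1, h2, h3⟩
      refine ⟨n, ?_, h1, h2, h3⟩
      have h4 : k p.1 ≤ C := hC ⟨p.1, rfl⟩
      have h5 := abs_le.1 h1
      have : (n : ℝ) < N := by linarith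
      exact_mod_cast this
    · rintro ⟨n, _, h⟩; exact ⟨n, h⟩
  rw [this]
  refine (Finset.range N).finite_toSet.isClosed_biUnion fun n _ => ?_
  have hg : Continuous (g n) := (g n).continuous
  have c1 : IsClosed {p : Y × Y | |k p.1 - n| ≤ 1 / 4} :=
    isClosed_le (by fun_prop) continuous_const
  have c2 : IsClosed {p : Y × Y | |k' p.2 - n| ≤ 1 / 4} :=
    isClosed_le (by fun_prop) continuous_const
  have c3 : IsClosed {p : Y × Y | p.2 = g n p.1} := isClosed_eq (by fun_prop) (by fun_prop)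
  exact c1.inter (c2.inter c3)

variable [MeasurableSpace Y] [BorelSpace Y]

lemma measurable_Hm {g : ℕ → Y ≃ₜ Y} {k : Y → ℝ} (hk : Measurable k) :
    Measurable (Hm g k) := by
  have h1 : Measurable (fun p : ℕ × Y => g p.1 p.2) :=
    measurable_from_prod_countable_right fun n => (g n).continuous.measurable
  have h2 : Measurable (fun y => ((⌊k y + 1 / 2⌋₊ : ℕ), y)) :=
    (Nat.measurable_floor.comp (hk.add_const _)).prodMk measurable_id
  exact h1.comp h2

lemma map_Hm_le [SecondCountableTopology Y] {g : ℕ → Y ≃ₜ Y} {k k' : Y → ℝ}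
    (hk : Continuous k) (hk' : Continuous k')
    {ν : Measure Y} (hν : ∀ n, MeasurePreserving (g n) ν ν) {E : Set (Y × Y)}
    (hE : MeasurableSet E) : (ν.restrict (dm g k k' E)).map (Hm g k) ≤ ν := by
  refine Measure.le_iff.2 fun A hA => ?_
  have hEA : MeasurableSet (E ∩ {p | p.2 ∈ A}) := hE.inter (measurable_snd hA)
  rw [Measure.map_apply (measurable_Hm hk.measurable) hA,
    Measure.restrict_apply ((measurable_Hm hk.measurable) hA)]
  have h1 : Hm g k ⁻¹' A ∩ dm g k k' E ⊆ dm g k k' (E ∩ {p | p.2 ∈ A}) := by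
    rintro y ⟨hy, y', r, e⟩
    refine ⟨y', r, e, ?_⟩
    change y' ∈ A
    rw [r.eq_Hm]; exact hy
  have h2 : rn g k k' (E ∩ {p | p.2 ∈ A}) ⊆ A := by
    rintro y' ⟨y, _, _, h⟩; exact h
  calc ν (Hm g k ⁻¹' A ∩ dm g k k' E) ≤ ν (dm g k k' (E ∩ {p | p.2 ∈ A})) := measure_mono h1
    _ = ν (rn g k k' (E ∩ {p | p.2 ∈ A})) := measure_dm_eq_rn hk hk' hν hEA
    _ ≤ ν A := measure_mono h2

end A

section B
variable {Y : Type*} [TopologicalSpace Y] [CompactSpace Y] [PolishSpace Y]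
  [MeasurableSpace Y] [BorelSpace Y]

/-- the big space -/
abbrev Om (Y : Type*) := T1 × (T2 × (Y × (Y × Bool)))

omit [CompactSpace Y] [PolishSpace Y] [MeasurableSpace Y] [BorelSpace Y] in
lemma isOpen_not_near (κ : Fin 2 → C(Y, ℝ)) :
    IsOpen {p : T2 × Y | ¬ near p.1 (κ 0 p.2) (κ 1 p.2)} := by
  have hc : ∀ i, Continuous (fun p : T2 × Y => ((κ i p.2 : ℝ) : T1)) := fun i =>
    (AddCircle.continuous_mk' (1 : ℝ)).comp ((κ i).continuous.comp continuous_snd)
  have h1 : IsClosed {p : T2 × Y | ‖p.1.1 - ((κ 0 p.2 : ℝ) : T1)‖ ≤ 1 / 16} :=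
    isClosed_le ((continuous_fst.fst.sub (hc 0)).norm) continuous_const
  have h2 : IsClosed {p : T2 × Y | ‖p.1.2 - ((κ 1 p.2 : ℝ) : T1)‖ ≤ 1 / 16} :=
    isClosed_le ((continuous_fst.snd.sub (hc 1)).norm) continuous_const
  exact (h1.inter h2).isOpen_compl

/-- rigidity: the joining is carried by the graph of a function, up to a small error -/
theorem rigid {g : ℕ → Y ≃ₜ Y} {k k' : Fin 3 → C(Y, ℝ)} {κ : Fin 2 → C(Y, ℝ)} {δ : ℝ}
    (d0 : T1) (ν0 : Measure Y) [IsProbabilityMeasure ν0]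
    (hν0 : ∀ n, MeasurePreserving (g n) ν0 ν0)
    (j0 : Measure (T2 × Y)) [IsProbabilityMeasure j0] (hj : j0.map Prod.snd = ν0)
    (hnear : j0.real {p : T2 × Y | ¬ near p.1 (κ 0 p.2) (κ 1 p.2)} ≤ δ)
    (ρ : Fin 3 → Measure (Om Y)) [∀ s, IsProbabilityMeasure (ρ s)]
    (F1 : ∀ s, (ρ s).map (fun ω => (ω.2.1, ω.2.2.1)) = j0)
    (F2 : ∀ s, (ρ s) {ω | ω.2.2.2.2 = true ∧ ¬ Rl g (k s) (k' s) ω.2.2.1 ω.2.2.2.1} = 0)
    (F3 : ∀ s, (ρ s).real {ω | ω.2.2.2.2 = false} ≤ δ)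
    (F4 : ∀ s, ((ρ s).restrict {ω | ω.2.2.2.2 = true}).map
      (fun ω => (S ω.1 s ω.2.1, ω.2.2.2.1)) ≤ j0)
    (F7 : ∀ s, (ρ s) {ω | ω.1 ≠ d0} = 0) :
    Good g k k' κ (57 * δ) d0 ν0 := by
  have hδ : 0 ≤ δ := measureReal_nonneg.trans hnear
  let P : Measure (Y × T2) := j0.map Prod.swap
  have hPp : IsProbabilityMeasure P := Measure.isProbabilityMeasure_map measurable_swap.aemeasurable
  have hPfst : P.fst = ν0 := by
    rw [Measure.fst, Measure.map_map measurable_fst measurable_swap, ← hj]; rfl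
  let K : Kernel Y T2 := P.condKernel
  have hPK : P = ν0 ⊗ₘ K := by
    rw [← hPfst]; exact (P.disintegrate P.condKernel).symm
  have hbt : MeasurableSet {ω : Om Y | ω.2.2.2.2 = true} :=
    (measurable_snd.comp (measurable_snd.comp (measurable_snd.comp measurable_snd)))
      (measurableSet_singleton true)
  have hcompl : {ω : Om Y | ω.2.2.2.2 = true}ᶜ = {ω : Om Y | ω.2.2.2.2 = false} := by
    ext ω; simp
  -- the pair law
  have hpair : ∀ s, ∀ f : T2 → T2, f = S d0 s → Measurable f → ∀ B : Set (T2 × T2),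
      MeasurableSet B → (pairLaw ν0 K).real ((Prod.map f f) ⁻¹' B) ≤
        (pairLaw ν0 K).real B + 2 * δ := by
    intro s f hf hfm B hB
    have H := pair_lemma (g := g) (k := k s) (k' := k' s) hν0 (k s).continuous (k' s).continuous
      K (ρ s) (a := fun ω => ω.2.2.1) (a' := fun ω => ω.2.2.2.1) (z := fun ω => ω.2.1)
      (z' := fun ω => S ω.1 s ω.2.1) (by fun_prop) (by fun_prop) (by fun_prop)
      ((continuous_S s).measurable.comp (by fun_prop : Measurable fun ω : Om Y => (ω.1, ω.2.1)))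
      hfm (G := {ω | ω.2.2.2.2 = true}) hbt ?_ ?_ ?_ hB
    · have h3 : (ρ s) {ω : Om Y | ω.2.2.2.2 = true}ᶜ ≤ ENNReal.ofReal δ := by
        rw [hcompl]
        exact (ENNReal.le_ofReal_iff_toReal_le (measure_ne_top _ _) hδ).2 (F3 s)
      have h4 : pairLaw ν0 K ((Prod.map f f) ⁻¹' B) ≤
          pairLaw ν0 K B + 2 * ENNReal.ofReal δ := H.trans (by gcongr)
      have h5 := ENNReal.toReal_mono (by finiteness) h4
      rw [ENNReal.toReal_add (by finiteness) (by finiteness), ENNReal.toReal_mul,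
        ENNReal.toReal_ofReal hδ] at h5
      simpa [Measure.real] using h5
    · rw [← hPK]
      have : (fun ω : Om Y => (ω.2.2.1, ω.2.1)) = Prod.swap ∘ (fun ω => (ω.2.1, ω.2.2.1)) := rfl
      rw [this, ← Measure.map_map measurable_swap (by fun_prop), F1 s]
    · rw [← hPK]
      have : (fun ω : Om Y => (ω.2.2.2.1, S ω.1 s ω.2.1)) =
          Prod.swap ∘ (fun ω => (S ω.1 s ω.2.1, ω.2.2.2.1)) := rfl
      have hm : Measurable (fun ω : Om Y => (S ω.1 s ω.2.1, ω.2.2.2.1)) :=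
        ((continuous_S s).measurable.comp
          (by fun_prop : Measurable fun ω : Om Y => (ω.1, ω.2.1))).prodMk (by fun_prop)
      rw [this, ← Measure.map_map measurable_swap hm]
      exact Measure.map_mono (F4 s) measurable_swap
    · have a1 : ∀ᵐ ω ∂(ρ s), ¬ (ω.2.2.2.2 = true ∧ ¬ Rl g (k s) (k' s) ω.2.2.1 ω.2.2.2.1) :=
        measure_eq_zero_iff_ae_notMem.1 (F2 s)
      have a2 : ∀ᵐ ω ∂(ρ s), ¬ (ω.1 ≠ d0) := measure_eq_zero_iff_ae_notMem.1 (F7 s)
      filter_upwards [a1, a2] with ω h1 h2 h3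
      refine ⟨not_not.1 fun h => h1 ⟨h3, h⟩, ?_⟩
      rw [not_not.1 h2, hf]
  have hpair2 : ∀ s, ∀ f : T2 → T2, f = S d0 s → Measurable f → ∀ B : Set (T2 × T2),
      MeasurableSet B → |(pairLaw ν0 K).real ((Prod.map f f) ⁻¹' B) -
        (pairLaw ν0 K).real B| ≤ 2 * δ := by
    intro s f hf hfm B hB
    have h1 := hpair s f hf hfm B hB
    have h2 := hpair s f hf hfm Bᶜ hB.compl
    rw [preimage_compl, probReal_compl_eq_one_sub ((hfm.prodMap hfm) hB),
      probReal_compl_eq_one_sub hB] at h2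
    rw [abs_le]; constructor <;> linarith
  -- law of the difference
  let w : T2 × T2 → T2 := fun p => p.1 - p.2
  have hw : Measurable w := by
    have : Continuous w := by fun_prop
    exact this.measurable
  have hprob : IsProbabilityMeasure ((pairLaw ν0 K).map w) :=
    Measure.isProbabilityMeasure_map hw.aemeasurable
  have hmr : ∀ B, MeasurableSet B →
      ((pairLaw ν0 K).map w).real B = (pairLaw ν0 K).real (w ⁻¹' B) := fun B hB => by
    rw [Measure.real, Measure.map_apply hw hB, Measure.real]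
  have hnm : MeasurableSet {p : T2 × Y | ¬ near p.1 (κ 0 p.2) (κ 1 p.2)} :=
    (isOpen_not_near κ).measurableSet
  have hPnear : P {p : Y × T2 | ¬ near p.2 (κ 0 p.1) (κ 1 p.1)} ≤ ENNReal.ofReal δ := by
    have : P {p : Y × T2 | ¬ near p.2 (κ 0 p.1) (κ 1 p.1)} =
        j0 {p : T2 × Y | ¬ near p.1 (κ 0 p.2) (κ 1 p.2)} := by
      rw [Measure.map_apply measurable_swap]
      · rfl
      · have : {p : Y × T2 | ¬ near p.2 (κ 0 p.1) (κ 1 p.1)} =
          Prod.swap ⁻¹' {p : T2 × Y | ¬ near p.1 (κ 0 p.2) (κ 1 p.2)} := rfl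
        rw [this]; exact measurable_swap hnm
    rw [this]
    exact (ENNReal.le_ofReal_iff_toReal_le (measure_ne_top _ _) hδ).2 hnear
  have hbox : (pairLaw ν0 K).real (w ⁻¹' boxᶜ) ≤ 2 * δ := by
    have h1 : pairLaw ν0 K (w ⁻¹' boxᶜ) ≤ 2 * ENNReal.ofReal δ := by
      rw [pairLaw_apply _ _ (hw meas_box.compl)]
      have hn : ∀ y, MeasurableSet {z : T2 | ¬ near z (κ 0 y) (κ 1 y)} := fun y =>
        (measurable_id.prodMk measurable_const) hnm
      have hnP : MeasurableSet {p : Y × T2 | ¬ near p.2 (κ 0 p.1) (κ 1 p.1)} := by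
        have : {p : Y × T2 | ¬ near p.2 (κ 0 p.1) (κ 1 p.1)} =
          Prod.swap ⁻¹' {p : T2 × Y | ¬ near p.1 (κ 0 p.2) (κ 1 p.2)} := rfl
        rw [this]; exact measurable_swap hnm
      have hpt : ∀ y, ((K y).prod (K y)) (w ⁻¹' boxᶜ) ≤
          2 * K y {z : T2 | ¬ near z (κ 0 y) (κ 1 y)} := by
        intro y
        have hsub : w ⁻¹' boxᶜ ⊆ ({z : T2 | ¬ near z (κ 0 y) (κ 1 y)} ×ˢ univ) ∪
            (univ ×ˢ {z : T2 | ¬ near z (κ 0 y) (κ 1 y)}) := by
          rintro ⟨z, z'⟩ hz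
          by_contra hcon
          simp only [mem_union, mem_prod, mem_ofPred_eq, mem_univ, and_true, true_and, not_or,
            not_not] at hcon
          exact hz (near_sub hcon.1 hcon.2)
        refine (measure_mono hsub).trans ((measure_union_le _ _).trans ?_)
        rw [Measure.prod_prod, Measure.prod_prod, measure_univ, mul_one, one_mul, two_mul]
      refine (lintegral_mono hpt).trans ?_
      have hKm : Measurable (fun y => K y {z : T2 | ¬ near z (κ 0 y) (κ 1 y)}) :=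
        Kernel.measurable_kernel_prodMk_left hnP
      rw [lintegral_const_mul _ hKm]
      gcongr
      refine le_trans (le_of_eq ?_) hPnear
      rw [hPK, Measure.compProd_apply hnP]
      rfl
    have h5 := ENNReal.toReal_mono (by finiteness) h1
    rw [ENNReal.toReal_mul, ENNReal.toReal_ofReal hδ] at h5
    simpa [Measure.real] using h5
  have hb := burger ((pairLaw ν0 K).map w) (2 * δ) (by rw [hmr _ meas_box.compl]; exact hbox)
    (by intro B hB
        rw [hmr _ hB, hmr _ (continuous_f1.measurable hB)]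
        have := hpair2 0 f1 (S_zero d0).symm continuous_f1.measurable (w ⁻¹' B) (hw hB)
        have e : (Prod.map f1 f1) ⁻¹' (w ⁻¹' B) = w ⁻¹' (f1 ⁻¹' B) := by
          ext ⟨z, z'⟩
          change f1 z - f1 z' ∈ B ↔ f1 (z - z') ∈ B
          rw [f1_sub]
        rwa [e] at this)
    (by intro B hB
        rw [hmr _ hB, hmr _ (continuous_f2.measurable hB)]
        have := hpair2 1 f2 (S_one d0).symm continuous_f2.measurable (w ⁻¹' B) (hw hB)
        have e : (Prod.map f2 f2) ⁻¹' (w ⁻¹' B) = w ⁻¹' (f2 ⁻¹' B) := by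
          ext ⟨z, z'⟩
          change f2 z - f2 z' ∈ B ↔ f2 (z - z') ∈ B
          rw [f2_sub]
        rwa [e] at this)
  have hne : MeasurableSet {v : T2 | v ≠ 0} := (measurableSet_singleton (0 : T2)).compl
  rw [hmr _ hne] at hb
  have hb' : pairLaw ν0 K {p | p.1 ≠ p.2} ≤ ENNReal.ofReal (14 * δ) := by
    have e : {p : T2 × T2 | p.1 ≠ p.2} = w ⁻¹' {v : T2 | v ≠ 0} := by
      ext p
      change p.1 ≠ p.2 ↔ p.1 - p.2 ≠ 0
      rw [sub_ne_zero]
    rw [e]
    refine (ENNReal.le_ofReal_iff_toReal_le (measure_ne_top _ _) (by positivity)).2 ?_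
    have : (pairLaw ν0 K (w ⁻¹' {v : T2 | v ≠ 0})).toReal ≤ 7 * (2 * δ) := hb
    linarith
  obtain ⟨ζ, hζ, hζP⟩ := exists_selection ν0 K _ hb'
  rw [← hPK] at hζP
  have hζj : j0.real {p : T2 × Y | p.1 ≠ ζ p.2} ≤ 28 * δ := by
    have e : P {p | p.2 ≠ ζ p.1} = j0 {p : T2 × Y | p.1 ≠ ζ p.2} := by
      rw [Measure.map_apply measurable_swap]
      · rfl
      · exact (measurableSet_eq_fun measurable_snd (hζ.comp measurable_fst)).compl
    rw [e] at hζP
    have h5 := ENNReal.toReal_mono (by finiteness) hζP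
    rw [ENNReal.toReal_mul, ENNReal.toReal_ofReal (by positivity)] at h5
    have : j0.real {p : T2 × Y | p.1 ≠ ζ p.2} ≤ 2 * (14 * δ) := by
      simpa [Measure.real] using h5
    linarith
  refine ⟨ζ, hζ, fun s => ?_, ?_⟩
  · -- the equivariance
    have hE : MeasurableSet {p : Y × Y | ζ p.2 = S d0 s (ζ p.1)} :=
      measurableSet_eq_fun (hζ.comp measurable_snd)
        ((continuous_S' d0 s).measurable.comp (hζ.comp measurable_fst))
    have hdm := meas_dm (g := g) (k s).continuous (k' s).continuous hE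
    have e1 : ν0.real (dm g (k s) (k' s) {p | ζ p.2 = S d0 s (ζ p.1)})ᶜ =
        (ρ s).real {ω | ω.2.2.1 ∉ dm g (k s) (k' s) {p | ζ p.2 = S d0 s (ζ p.1)}} := by
      rw [Measure.real, Measure.real, ← hj, ← F1 s,
        Measure.map_map measurable_snd (by fun_prop),
        Measure.map_apply (by fun_prop) hdm.compl]
      rfl
    rw [e1]
    have hsub : {ω : Om Y | ω.2.2.1 ∉ dm g (k s) (k' s) {p | ζ p.2 = S d0 s (ζ p.1)}} ⊆
        {ω | ω.2.2.2.2 = false} ∪
        ({ω | ω.2.2.2.2 = true ∧ ¬ Rl g (k s) (k' s) ω.2.2.1 ω.2.2.2.1} ∪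
        ({ω | ω.1 ≠ d0} ∪
        ({ω | ω.2.1 ≠ ζ ω.2.2.1} ∪
         {ω | ω.2.2.2.2 = true ∧ S ω.1 s ω.2.1 ≠ ζ ω.2.2.2.1}))) := by
      intro ω hω
      by_contra hcon
      simp only [mem_union, mem_ofPred_eq, not_or, not_and, not_not, ne_eq] at hcon
      obtain ⟨c1, c2, c3, c4, c5⟩ := hcon
      have c1' : ω.2.2.2.2 = true := by simpa using c1
      refine hω ⟨ω.2.2.2.1, c2 c1', ?_⟩
      change ζ ω.2.2.2.1 = S d0 s (ζ ω.2.2.1)
      rw [← c4, ← c3, c5 c1']
    have b1 := (measureReal_mono (μ := ρ s) hsub).trans (measureReal_union_le _ _)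
    have b2 := measureReal_union_le (μ := ρ s)
      {ω | ω.2.2.2.2 = true ∧ ¬ Rl g (k s) (k' s) ω.2.2.1 ω.2.2.2.1} ({ω | ω.1 ≠ d0} ∪
        ({ω | ω.2.1 ≠ ζ ω.2.2.1} ∪
         {ω | ω.2.2.2.2 = true ∧ S ω.1 s ω.2.1 ≠ ζ ω.2.2.2.1}))
    have b3 := measureReal_union_le (μ := ρ s) {ω | ω.1 ≠ d0}
        ({ω | ω.2.1 ≠ ζ ω.2.2.1} ∪
         {ω | ω.2.2.2.2 = true ∧ S ω.1 s ω.2.1 ≠ ζ ω.2.2.2.1})
    have b4 := measureReal_union_le (μ := ρ s) {ω | ω.2.1 ≠ ζ ω.2.2.1}
         {ω | ω.2.2.2.2 = true ∧ S ω.1 s ω.2.1 ≠ ζ ω.2.2.2.1}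
    have z1 : (ρ s).real {ω | ω.2.2.2.2 = true ∧ ¬ Rl g (k s) (k' s) ω.2.2.1 ω.2.2.2.1} = 0 := by
      rw [Measure.real, F2 s]; rfl
    have z2 : (ρ s).real {ω | ω.1 ≠ d0} = 0 := by
      rw [Measure.real, F7 s]; rfl
    have hneq : MeasurableSet {p : T2 × Y | p.1 ≠ ζ p.2} :=
      (measurableSet_eq_fun measurable_fst (hζ.comp measurable_snd)).compl
    have z3 : (ρ s).real {ω | ω.2.1 ≠ ζ ω.2.2.1} ≤ 28 * δ := by
      refine le_trans (le_of_eq ?_) hζj
      rw [Measure.real, Measure.real, ← F1 s, Measure.map_apply (by fun_prop) hneq]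
      rfl
    have z4 : (ρ s).real {ω | ω.2.2.2.2 = true ∧ S ω.1 s ω.2.1 ≠ ζ ω.2.2.2.1} ≤ 28 * δ := by
      have hm : Measurable (fun ω : Om Y => (S ω.1 s ω.2.1, ω.2.2.2.1)) :=
        ((continuous_S s).measurable.comp
          (by fun_prop : Measurable fun ω : Om Y => (ω.1, ω.2.1))).prodMk (by fun_prop)
      refine le_trans ?_ hζj
      rw [Measure.real, Measure.real]
      refine ENNReal.toReal_mono (measure_ne_top _ _) ?_
      have := F4 s {p : T2 × Y | p.1 ≠ ζ p.2}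
      rw [Measure.map_apply hm hneq, Measure.restrict_apply (hm hneq)] at this
      refine le_trans (measure_mono ?_) this
      rintro ω ⟨h1, h2⟩
      exact ⟨h2, h1⟩
    linarith [F3 s]
  · -- nearness
    have e1 : ν0.real {y | ¬ near (ζ y) (κ 0 y) (κ 1 y)} =
        j0.real {p | ¬ near (ζ p.2) (κ 0 p.2) (κ 1 p.2)} := by
      have hns : MeasurableSet {y | ¬ near (ζ y) (κ 0 y) (κ 1 y)} := (meas_near hζ κ).compl
      rw [Measure.real, Measure.real, ← hj, Measure.map_apply measurable_snd hns]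
      rfl
    rw [e1]
    have hsub : {p : T2 × Y | ¬ near (ζ p.2) (κ 0 p.2) (κ 1 p.2)} ⊆
        {p : T2 × Y | p.1 ≠ ζ p.2} ∪ {p : T2 × Y | ¬ near p.1 (κ 0 p.2) (κ 1 p.2)} := by
      intro p hp
      by_contra hcon
      simp only [mem_union, mem_ofPred_eq, not_or, not_not, ne_eq] at hcon
      rw [hcon.1] at hcon
      exact hp hcon.2
    have b1 := (measureReal_mono (μ := j0) hsub).trans (measureReal_union_le _ _)
    linarith

end B

end Pool.Agent.CBER
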