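import Pool.Agent.Lib.MP_ff62c8_lc.Limit

/-! # The limit lemma, part 2: compactness -/

set_option autoImplicit false

open MeasureTheory Set ProbabilityTheory Filter Topology
open scoped ENNReal NNReal BoundedContinuousFunction

namespace Pool.Agent.CBER

lemma exists_lim {Ω ι : Type*} [MeasurableSpace Ω] [TopologicalSpace Ω] [CompactSpace Ω]
    [T2Space Ω] [BorelSpace Ω] (u : Ultrafilter ι) (μ : ι → ProbabilityMeasure Ω) :
    ∃ μ0, Tendsto μ u (𝓝 μ0) := by
  have h := isCompact_univ (X := ProbabilityMeasure Ω)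
  rw [isCompact_iff_ultrafilter_le_nhds] at h
  obtain ⟨x, _, hx⟩ := h (u.map μ) (by simp)
  exact ⟨x, hx⟩

variable {Y : Type*} [TopologicalSpace Y] [CompactSpace Y] [PolishSpace Y]
  [MeasurableSpace Y] [BorelSpace Y]

instance omBorel : BorelSpace (T1 × (T2 × (Y × (Y × Bool)))) := by
  have h1 : BorelSpace (T2 × (Y × (Y × Bool))) := inferInstance
  have h2 : SecondCountableTopology (T2 × (Y × (Y × Bool))) := inferInstance
  have h3 : SecondCountableTopologyEither T1 (T2 × (Y × (Y × Bool))) := inferInstance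
  exact Prod.borelSpace

open Classical in
/-- the graph map into the big space -/
noncomputable def gm (g : ℕ → Y ≃ₜ Y) (k k' : Y → ℝ) (E : Set (Y × Y)) (d : T1) (ζ : Y → T2)
    (y : Y) : Om Y :=
  (d, (ζ y, (y, (Hm g k y, if y ∈ dm g k k' E then true else false))))

omit [CompactSpace Y] in
lemma measurable_gm {g : ℕ → Y ≃ₜ Y} {k k' : Y → ℝ} (hk : Continuous k) (hk' : Continuous k')
    {E : Set (Y × Y)} (hE : MeasurableSet E) (d : T1) {ζ : Y → T2} (hζ : Measurable ζ) :
    Measurable (gm g k k' E d ζ) := by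
  classical
  refine measurable_const.prodMk (hζ.prodMk (measurable_id.prodMk
    ((measurable_Hm hk.measurable).prodMk ?_)))
  exact Measurable.ite (meas_dm hk hk' hE) measurable_const measurable_const

/-- **Limit lemma**. -/
theorem Good.limit {ι : Type*} (u : Ultrafilter ι) {g : ℕ → Y ≃ₜ Y} {k k' : Fin 3 → C(Y, ℝ)}
    {κ : Fin 2 → C(Y, ℝ)} {δ : ℝ} {d : ι → T1} {d0 : T1} (hd : Tendsto d u (𝓝 d0))
    {ν : ι → ProbabilityMeasure Y} {ν0 : ProbabilityMeasure Y} (hν : Tendsto ν u (𝓝 ν0))
    (hinv : ∀ i n, MeasurePreserving (g n) (ν i : Measure Y) (ν i : Measure Y))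
    (hgood : ∀ i, Good g k k' κ δ (d i) (ν i : Measure Y)) :
    Good g k k' κ (57 * δ) d0 (ν0 : Measure Y) := by
  classical
  choose ζ mζ aζ bζ using hgood
  have hδ : 0 ≤ δ := by
    have : Nonempty ι := u.neBot.nonempty
    exact measureReal_nonneg.trans (bζ (Classical.arbitrary ι))
  -- invariance of the limit
  have hν0 : ∀ n, MeasurePreserving (g n) (ν0 : Measure Y) (ν0 : Measure Y) := by
    intro n
    have hc : Continuous (g n) := (g n).continuous
    have h1 := ProbabilityMeasure.tendsto_map_of_tendsto_of_continuous ν ν0 hν hc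
    have h2 : (fun i => (ν i).map hc.measurable.aemeasurable) = ν := by
      funext i
      apply Subtype.ext
      exact (hinv i n).map_eq
    rw [h2] at h1
    have h3 := tendsto_nhds_unique h1 hν
    exact ⟨hc.measurable, congrArg Subtype.val h3⟩
  -- the joinings
  have hjm : ∀ i, Measurable (fun y => (ζ i y, y)) := fun i => (mζ i).prodMk measurable_id
  let j : ι → ProbabilityMeasure (T2 × Y) := fun i => (ν i).map (hjm i).aemeasurable
  obtain ⟨j0, hj0⟩ := exists_lim u j
  let E : ι → Fin 3 → Set (Y × Y) := fun i s => {p | ζ i p.2 = S (d i) s (ζ i p.1)}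
  have hE : ∀ i s, MeasurableSet (E i s) := fun i s =>
    measurableSet_eq_fun ((mζ i).comp measurable_snd)
      ((continuous_S' (d i) s).measurable.comp ((mζ i).comp measurable_fst))
  have hgm : ∀ i s, Measurable (gm g (k s) (k' s) (E i s) (d i) (ζ i)) := fun i s =>
    measurable_gm (k s).continuous (k' s).continuous (hE i s) (d i) (mζ i)
  let r : Fin 3 → ι → ProbabilityMeasure (Om Y) := fun s i => (ν i).map (hgm i s).aemeasurable
  have hr : ∀ s, ∃ ρ0, Tendsto (r s) u (𝓝 ρ0) := fun s => exists_lim u (r s)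
  choose ρ0 hρ0 using hr
  have hrapp : ∀ s i (A : Set (Om Y)), MeasurableSet A → (r s i : Measure (Om Y)) A =
      (ν i : Measure Y) (gm g (k s) (k' s) (E i s) (d i) (ζ i) ⁻¹' A) := fun s i A hA =>
    Measure.map_apply (hgm i s) hA
  refine rigid d0 (ν0 : Measure Y) hν0 (j0 : Measure (T2 × Y)) ?_ ?_
    (fun s => (ρ0 s : Measure (Om Y))) ?_ ?_ ?_ ?_ ?_
  · -- marginal
    have hc : Continuous (Prod.snd : T2 × Y → Y) := continuous_snd
    have h1 := ProbabilityMeasure.tendsto_map_of_tendsto_of_continuous j j0 hj0 hc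
    have h2 : (fun i => (j i).map hc.measurable.aemeasurable) = ν := by
      funext i
      apply Subtype.ext
      change ((ν i : Measure Y).map (fun y => (ζ i y, y))).map Prod.snd = (ν i : Measure Y)
      rw [Measure.map_map measurable_snd (hjm i)]
      exact Measure.map_id
    rw [h2] at h1
    have e := tendsto_nhds_unique h1 hν
    exact congrArg (fun μ : ProbabilityMeasure Y => (μ : Measure Y)) e
  · -- nearness
    have h1 := weak_open_le hj0 (isOpen_not_near κ) (c := ENNReal.ofReal δ) (fun i => by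
      change ((ν i : Measure Y).map (fun y => (ζ i y, y))) _ ≤ _
      rw [Measure.map_apply (hjm i) (isOpen_not_near κ).measurableSet]
      exact (ENNReal.le_ofReal_iff_toReal_le (measure_ne_top _ _) hδ).2 (bζ i))
    exact (ENNReal.le_ofReal_iff_toReal_le (measure_ne_top _ _) hδ).1 h1
  · -- F1
    intro s
    have hc : Continuous (fun ω : Om Y => (ω.2.1, ω.2.2.1)) := by fun_prop
    have h1 := ProbabilityMeasure.tendsto_map_of_tendsto_of_continuous (r s) (ρ0 s) (hρ0 s) hc
    have h2 : (fun i => (r s i).map hc.measurable.aemeasurable) = j := by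
      funext i
      apply Subtype.ext
      change ((ν i : Measure Y).map (gm g (k s) (k' s) (E i s) (d i) (ζ i))).map _ =
        (ν i : Measure Y).map _
      rw [Measure.map_map hc.measurable (hgm i s)]
      rfl
    rw [h2] at h1
    have e := tendsto_nhds_unique h1 hj0
    exact congrArg (fun μ : ProbabilityMeasure (T2 × Y) => (μ : Measure (T2 × Y))) e
  · -- F2
    intro s
    have hopen : IsOpen {ω : Om Y | ω.2.2.2.2 = true ∧
        ¬ Rl g (k s) (k' s) ω.2.2.1 ω.2.2.2.1} := by
      have o1 : IsOpen {ω : Om Y | ω.2.2.2.2 = true} :=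
        (isOpen_discrete ({true} : Set Bool)).preimage
          (by fun_prop : Continuous fun ω : Om Y => ω.2.2.2.2)
      have o2 : IsOpen {ω : Om Y | ¬ Rl g (k s) (k' s) ω.2.2.1 ω.2.2.2.1} :=
        (isClosed_Rl (k s).continuous (k' s).continuous).isOpen_compl.preimage
          (by fun_prop : Continuous fun ω : Om Y => (ω.2.2.1, ω.2.2.2.1))
      exact o1.inter o2
    have h1 := weak_open_le (hρ0 s) hopen (c := 0) (fun i => by
      rw [hrapp s i _ hopen.measurableSet, nonpos_iff_eq_zero]
      convert measure_empty (μ := (ν i : Measure Y))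
      ext y
      simp only [mem_preimage, mem_ofPred_eq, gm, mem_empty_iff_false, iff_false, not_and, not_not]
      intro h
      have hy : y ∈ dm g (k s) (k' s) (E i s) := by
        by_contra hcon; simp [hcon] at h
      obtain ⟨y', r', _⟩ := hy
      rw [← r'.eq_Hm]; exact r')
    exact nonpos_iff_eq_zero.1 h1
  · -- F3
    intro s
    have hopen : IsOpen {ω : Om Y | ω.2.2.2.2 = false} :=
      (isOpen_discrete ({false} : Set Bool)).preimage
          (by fun_prop : Continuous fun ω : Om Y => ω.2.2.2.2)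
    have h1 := weak_open_le (hρ0 s) hopen (c := ENNReal.ofReal δ) (fun i => by
      rw [hrapp s i _ hopen.measurableSet]
      have e : gm g (k s) (k' s) (E i s) (d i) (ζ i) ⁻¹' {ω : Om Y | ω.2.2.2.2 = false} =
          (dm g (k s) (k' s) (E i s))ᶜ := by
        ext y
        simp [gm]
      rw [e]
      exact (ENNReal.le_ofReal_iff_toReal_le (measure_ne_top _ _) hδ).2 (aζ i s))
    exact (ENNReal.le_ofReal_iff_toReal_le (measure_ne_top _ _) hδ).1 h1
  · -- F4
    intro s
    have hbt : MeasurableSet {ω : Om Y | ω.2.2.2.2 = true} :=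
      (measurable_snd.comp (measurable_snd.comp (measurable_snd.comp measurable_snd)))
        (measurableSet_singleton true)
    have hΦ : Continuous (fun ω : Om Y => (S ω.1 s ω.2.1, ω.2.2.2.1)) :=
      ((continuous_S s).comp (by fun_prop : Continuous fun ω : Om Y => (ω.1, ω.2.1))).prodMk
        (by fun_prop)
    have hfin : IsFiniteMeasure (((ρ0 s : Measure (Om Y)).restrict
        {ω | ω.2.2.2.2 = true}).map (fun ω => (S ω.1 s ω.2.1, ω.2.2.2.1))) := inferInstance
    refine measure_le_of_lintegral_le fun f => ?_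
    -- the continuous integrand
    have hF : Continuous (fun ω : Om Y =>
        (if ω.2.2.2.2 = true then f (S ω.1 s ω.2.1, ω.2.2.2.1) else 0 : ℝ≥0)) := by
      refine Continuous.if ?_ (f.continuous.comp hΦ) continuous_const
      intro ω hω
      exfalso
      have hcl : IsClopen {ω : Om Y | ω.2.2.2.2 = true} :=
        (isClopen_discrete ({true} : Set Bool)).preimage
          (by fun_prop : Continuous fun ω : Om Y => ω.2.2.2.2)
      rw [hcl.frontier_eq] at hω
      exact hω
    let F : Om Y →ᵇ ℝ≥0 := BoundedContinuousFunction.mkOfCompact ⟨_, hF⟩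
    have t1 := (ProbabilityMeasure.tendsto_iff_forall_lintegral_tendsto.1 (hρ0 s)) F
    have t2 := (ProbabilityMeasure.tendsto_iff_forall_lintegral_tendsto.1 hj0) f
    have e0 : ∫⁻ x, f x ∂(((ρ0 s : Measure (Om Y)).restrict
        {ω | ω.2.2.2.2 = true}).map (fun ω => (S ω.1 s ω.2.1, ω.2.2.2.1))) =
        ∫⁻ ω, (F ω : ℝ≥0∞) ∂(ρ0 s : Measure (Om Y)) := by
      rw [lintegral_map (by fun_prop) hΦ.measurable, ← lintegral_indicator hbt]
      refine lintegral_congr fun ω => ?_
      by_cases h : ω.2.2.2.2 = true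
      · rw [indicator_of_mem (show ω ∈ {ω : Om Y | ω.2.2.2.2 = true} from h)]
        change _ = (((if ω.2.2.2.2 = true then f (S ω.1 s ω.2.1, ω.2.2.2.1) else 0 : ℝ≥0)) : ℝ≥0∞)
        rw [if_pos h]
      · rw [indicator_of_notMem (show ω ∉ {ω : Om Y | ω.2.2.2.2 = true} from h)]
        change _ = (((if ω.2.2.2.2 = true then f (S ω.1 s ω.2.1, ω.2.2.2.1) else 0 : ℝ≥0)) : ℝ≥0∞)
        rw [if_neg h]; rfl
    rw [e0]
    refine le_of_tendsto_of_tendsto' t1 t2 fun i => ?_
    change ∫⁻ ω, (F ω : ℝ≥0∞) ∂((ν i : Measure Y).map (gm g (k s) (k' s) (E i s) (d i) (ζ i))) ≤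
      ∫⁻ x, (f x : ℝ≥0∞) ∂((ν i : Measure Y).map (fun y => (ζ i y, y)))
    rw [lintegral_map (by fun_prop) (hgm i s), lintegral_map (by fun_prop) (hjm i)]
    have hdm := meas_dm (g := g) (k s).continuous (k' s).continuous (hE i s)
    have hfm : Measurable (fun y => (f (ζ i y, y) : ℝ≥0∞)) := by
      have := (f.continuous.measurable.comp (hjm i))
      exact this.coe_nnreal_ennreal
    calc ∫⁻ y, (F (gm g (k s) (k' s) (E i s) (d i) (ζ i) y) : ℝ≥0∞) ∂(ν i : Measure Y)
        = ∫⁻ y in dm g (k s) (k' s) (E i s), (f (ζ i (Hm g (k s) y), Hm g (k s) y) : ℝ≥0∞)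
            ∂(ν i : Measure Y) := by
          rw [← lintegral_indicator hdm]
          refine lintegral_congr fun y => ?_
          by_cases h : y ∈ dm g (k s) (k' s) (E i s)
          · rw [indicator_of_mem h]
            change (((if (if y ∈ dm g (k s) (k' s) (E i s) then true else false) = true then
              f (S (d i) s (ζ i y), Hm g (k s) y) else 0 : ℝ≥0)) : ℝ≥0∞) = _
            obtain ⟨y', r', e⟩ := id h
            have e' : ζ i y' = S (d i) s (ζ i y) := e
            rw [if_pos h, if_pos rfl, ← r'.eq_Hm, e']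
          · rw [indicator_of_notMem h]
            change (((if (if y ∈ dm g (k s) (k' s) (E i s) then true else false) = true then
              f (S (d i) s (ζ i y), Hm g (k s) y) else 0 : ℝ≥0)) : ℝ≥0∞) = _
            rw [if_neg h]; simp
      _ = ∫⁻ y, (f (ζ i y, y) : ℝ≥0∞)
            ∂(((ν i : Measure Y).restrict (dm g (k s) (k' s) (E i s))).map (Hm g (k s))) := by
          rw [lintegral_map hfm (measurable_Hm (k s).continuous.measurable)]
      _ ≤ ∫⁻ y, (f (ζ i y, y) : ℝ≥0∞) ∂(ν i : Measure Y) :=
          lintegral_mono' (map_Hm_le (k s).continuous (k' s).continuous (hinv i) (hE i s)) le_rfl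
  · -- F7
    intro s
    have hc : Continuous (Prod.fst : Om Y → T1) := continuous_fst
    have h1 := ProbabilityMeasure.tendsto_map_of_tendsto_of_continuous (r s) (ρ0 s) (hρ0 s) hc
    have h2 : (fun i => (r s i).map hc.measurable.aemeasurable) = fun i => diracProba (d i) := by
      funext i
      apply Subtype.ext
      change ((ν i : Measure Y).map (gm g (k s) (k' s) (E i s) (d i) (ζ i))).map _ =
        Measure.dirac (d i)
      rw [Measure.map_map hc.measurable (hgm i s)]
      have : (Prod.fst ∘ gm g (k s) (k' s) (E i s) (d i) (ζ i)) = fun _ => d i := rfl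
      rw [this, Measure.map_const]; simp
    rw [h2] at h1
    have h3 := (continuous_diracProba.tendsto d0).comp hd
    have e := tendsto_nhds_unique h1 h3
    have h5 : (ρ0 s : Measure (Om Y)).map Prod.fst = Measure.dirac d0 :=
      congrArg (fun μ : ProbabilityMeasure T1 => (μ : Measure T1)) e
    have hne : MeasurableSet {x : T1 | x ≠ d0} := (measurableSet_singleton d0).compl
    have h6 : (ρ0 s : Measure (Om Y)).map Prod.fst {x : T1 | x ≠ d0} = 0 := by
      rw [h5, Measure.dirac_apply' _ hne]; simp
    rw [Measure.map_apply measurable_fst hne] at h6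
    exact h6

end Pool.Agent.CBER
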