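import Pool.Agent.Lib.MP_ff62c8_lc.Choice

/-! # The main argument -/

set_option autoImplicit false

open MeasureTheory Set ProbabilityTheory Filter Topology
open scoped ENNReal NNReal BoundedContinuousFunction

namespace Pool.Agent.CBER

/-- A Borel isomorphism of the orbit relation with that of countably many homeomorphisms. -/
structure Real' (A : Set T1) (K : Type) [TopologicalSpace K] [MeasurableSpace K] where
  g : ℕ → K ≃ₜ K
  f : XA A ≃ᵐ K
  fwd : ∀ n y, ∃ w, f.symm (g n y) = actX A w (f.symm y)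
  bwd : ∀ w y, ∃ n, f (actX A w (f.symm y)) = g n y

section
variable {A : Set T1} {K : Type} [TopologicalSpace K] [CompactSpace K] [PolishSpace K]
  [MeasurableSpace K] [BorelSpace K] (R : Real' A K)

/-- the fibre measure on the realization -/
noncomputable def Real'.nu (x : T1) (hx : x ∈ A) : Measure K := (mxA A x hx).map R.f

instance (x : T1) (hx : x ∈ A) : IsProbabilityMeasure (R.nu x hx) :=
  Measure.isProbabilityMeasure_map R.f.measurable.aemeasurable

lemma Real'.inv (hA : MeasurableSet A) (x : T1) (hx : x ∈ A) (n : ℕ) :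
    MeasurePreserving (R.g n) (R.nu x hx) (R.nu x hx) := by
  have hsb : StandardBorelSpace (XA A) :=
    (measurable_fst hA : MeasurableSet {p : V | p.1 ∈ A}).standardBorel
  refine transfer_inv R.f (actX A) (R.g n).toMeasurableEquiv (actX_mp A x hx) fun w => ?_
  obtain ⟨v, hv⟩ := R.fwd n (R.f w)
  refine ⟨v, ?_⟩
  rw [R.f.symm_apply_apply] at hv
  exact hv

lemma Real'.inv' (m : Measure K) (hm : ∀ n, MeasurePreserving (R.g n) m m)
    (w : FreeGroup (Fin 4)) :
    MeasurePreserving (actX A w) (m.map R.f.symm) (m.map R.f.symm) := by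
  refine transfer_inv R.f.symm (fun n => (R.g n).toMeasurableEquiv) (actX A w) hm fun y => ?_
  obtain ⟨n, hn⟩ := R.bwd w y
  exact ⟨n, hn⟩

lemma Real'.data (hA : MeasurableSet A) {DK : ℕ → C(K, ℝ)} (hD : DenseRange DK)
    (x : T1) (hx : x ∈ A) {δ : ℝ} (hδ : 0 < δ) :
    ∃ j, GoodJ R.g DK δ j x (R.nu x hx) := by
  let c : Fin 3 → FreeGroup (Fin 4) := fun s => FreeGroup.of (Fin.castSucc s)
  have hfs : Measurable R.f.symm := R.f.symm.measurable
  have hG : MeasurableSet {y : K | (R.f.symm y).1.1 = x} :=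
    ((measurable_subtype_coe.comp hfs).fst) (measurableSet_singleton x)
  have h := good_of_maps (R.nu x hx) (R.inv hA x hx) hD (ζ := fun y => (R.f.symm y).1.2)
    ((measurable_subtype_coe.comp hfs).snd) x (fun _ => {y : K | (R.f.symm y).1.1 = x})
    (fun _ => hG) (fun s y => R.f (actX A (c s) (R.f.symm y)))
    (fun s y => R.f ((actX A (c s)).symm (R.f.symm y)))
    (fun s => R.f.measurable.comp ((actX A (c s)).measurable.comp hfs))
    (fun s => R.f.measurable.comp ((actX A (c s)).symm.measurable.comp hfs))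
    (fun s y _ => by simp) (fun s y _ => R.bwd (c s) y)
    (fun s y hy => by
      have hy' : (R.f.symm y).1.1 = x := hy
      change (R.f.symm (R.f (actX A (c s) (R.f.symm y)))).1.2 = S x s (R.f.symm y).1.2
      rw [R.f.symm_apply_apply]
      change (act (c s) (R.f.symm y).1).2 = _
      rw [act_of]
      fin_cases s
      · exact (congrFun (S_zero x) _).symm
      · exact (congrFun (S_one x) _).symm
      · refine Eq.trans ?_ (S_two x _).symm
        rw [← hy']; rfl)
    (a := 0) (b := δ) (fun s => by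
      have h0 : R.nu x hx {y : K | (R.f.symm y).1.1 = x}ᶜ = 0 := by
        rw [Real'.nu, Measure.map_apply R.f.measurable hG.compl, mxA,
          Measure.map_apply (measurable_fib A x hx) (R.f.measurable hG.compl)]
        have : fib A x hx ⁻¹' (R.f ⁻¹' {y : K | (R.f.symm y).1.1 = x}ᶜ) = ∅ := by
          ext z; simp [fib]
        rw [this, measure_empty]
      rw [Measure.real, h0]; simp) le_rfl hδ
  rw [zero_add] at h
  exact h

lemma Real'.fubini (hA : MeasurableSet A) (hirr : ∀ x ∈ A, Irr x) (m : Measure K)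
    [IsProbabilityMeasure m] (hm : ∀ n, MeasurePreserving (R.g n) m m) {B : Set K}
    (hB : MeasurableSet B) : ∃ x, ∃ hx : x ∈ A, R.nu x hx B ≤ m B := by
  let M : Measure (XA A) := m.map R.f.symm
  have hM : IsProbabilityMeasure M :=
    Measure.isProbabilityMeasure_map R.f.symm.measurable.aemeasurable
  have h1 := inv_XA A hirr M (R.inv' m hm)
  have hval : MeasurableEmbedding (Subtype.val : XA A → V) :=
    MeasurableEmbedding.subtype_coe (measurable_fst hA : MeasurableSet {p : V | p.1 ∈ A})
  let B' : Set V := Subtype.val '' (R.f ⁻¹' B)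
  have hB' : MeasurableSet B' := hval.measurableSet_image' (R.f.measurable hB)
  let L : Measure T1 := (M.map Subtype.val).fst
  have hMv : IsProbabilityMeasure (M.map (Subtype.val : XA A → V)) :=
    Measure.isProbabilityMeasure_map hval.measurable.aemeasurable
  have hL : IsProbabilityMeasure L := by
    change IsProbabilityMeasure ((M.map (Subtype.val : XA A → V)).fst)
    infer_instance
  have hLA : L Aᶜ = 0 := by
    change (M.map (Subtype.val : XA A → V)).fst Aᶜ = 0
    rw [Measure.fst_apply hA.compl, Measure.map_apply hval.measurable (measurable_fst hA.compl)]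
    have : (Subtype.val : XA A → V) ⁻¹' (Prod.fst ⁻¹' Aᶜ) = ∅ := by
      ext p
      simp only [mem_preimage, mem_compl_iff, mem_empty_iff_false, iff_false, not_not]
      exact p.2
    rw [this, measure_empty]
  have e1 : (M.map (Subtype.val : XA A → V)) B' = m B := by
    rw [Measure.map_apply hval.measurable hB', preimage_image_eq _ Subtype.val_injective]
    change (m.map R.f.symm) _ = _
    rw [Measure.map_apply R.f.symm.measurable (R.f.measurable hB)]
    congr 1
    ext y; simp
  have e2 : (M.map (Subtype.val : XA A → V)) B' =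
      ∫⁻ x, (volume : Measure T2) (Prod.mk x ⁻¹' B') ∂L := by
    conv_lhs => rw [h1]
    exact Measure.prod_apply hB'
  obtain ⟨x, hx, hle⟩ := exists_notMem_null_le_lintegral (μ := L)
    (measurable_measure_prodMk_left (ν := (volume : Measure T2)) hB').aemeasurable hLA
  have hxA : x ∈ A := by simpa using hx
  refine ⟨x, hxA, ?_⟩
  rw [← e1, e2]
  refine le_trans (le_of_eq ?_) hle
  rw [Real'.nu, Measure.map_apply R.f.measurable hB, mxA,
    Measure.map_apply (measurable_fib A x hxA) (R.f.measurable hB)]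
  congr 1
  ext z
  simp only [mem_preimage]
  constructor
  · intro h
    exact ⟨fib A x hxA z, h, rfl⟩
  · rintro ⟨p, hp, e⟩
    have : p = fib A x hxA z := Subtype.ext e
    rw [← this]; exact hp

lemma Real'.transfer (hA : MeasurableSet A) (x : T1) (hx : x ∈ A) {k k' : Fin 3 → C(K, ℝ)}
    {ζ : K → T2} (hζ : Measurable ζ) (d : T1) {a b : ℝ}
    (ha : ∀ s, (R.nu x hx).real (dm R.g (k s) (k' s) {p | ζ p.2 = S d s (ζ p.1)})ᶜ ≤ a)
    (hb : 0 < b) : ∃ j, GoodJ gV DV (a + b) j d (mx x) := by
  classical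
  have ha0 : 0 ≤ a := measureReal_nonneg.trans (ha 0)
  let F : V → K := fun p => R.f (fib A x hx p.2)
  have hF : Measurable F := R.f.measurable.comp ((measurable_fib A x hx).comp measurable_snd)
  have hE : ∀ s, MeasurableSet {p : K × K | ζ p.2 = S d s (ζ p.1)} := fun s =>
    measurableSet_eq_fun (hζ.comp measurable_snd)
      ((continuous_S' d s).measurable.comp (hζ.comp measurable_fst))
  let G : Fin 3 → Set V := fun s =>
    {p | p.1 = x} ∩ F ⁻¹' (dm R.g (k s) (k' s) {p | ζ p.2 = S d s (ζ p.1)})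
  have hdm : ∀ s, MeasurableSet (dm R.g (k s) (k' s) {p | ζ p.2 = S d s (ζ p.1)}) := fun s =>
    meas_dm (k s).continuous (k' s).continuous (hE s)
  have hx1 : MeasurableSet {p : V | p.1 = x} := measurable_fst (measurableSet_singleton x)
  have hG : ∀ s, MeasurableSet (G s) := fun s => hx1.inter (hF (hdm s))
  let H : Fin 3 → V → V := fun s p => (R.f.symm (Hm R.g (k s) (F p))).1
  let H' : Fin 3 → V → V := fun s p =>
    (R.f.symm (Hm (fun n => (R.g n).symm) (k' s) (F p))).1
  have hfs : Measurable (fun y : K => (R.f.symm y).1) :=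
    measurable_subtype_coe.comp R.f.symm.measurable
  have hH : ∀ s, Measurable (H s) := fun s =>
    hfs.comp ((measurable_Hm (k s).continuous.measurable).comp hF)
  have hH' : ∀ s, Measurable (H' s) := fun s =>
    hfs.comp ((measurable_Hm (k' s).continuous.measurable).comp hF)
  -- points of the fibre are recovered
  have f1' : ∀ p : V, p.1 = x → (R.f.symm (F p)).1 = p := by
    intro p hp
    change (R.f.symm (R.f (fib A x hx p.2))).1 = p
    rw [R.f.symm_apply_apply]
    exact Prod.ext hp.symm rfl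
  have f3' : ∀ y : K, (R.f.symm y).1.1 = x → F (R.f.symm y).1 = y := by
    intro y hy
    change R.f (fib A x hx (R.f.symm y).1.2) = y
    have : fib A x hx (R.f.symm y).1.2 = R.f.symm y := by
      apply Subtype.ext
      exact Prod.ext hy.symm rfl
    rw [this, R.f.apply_symm_apply]
  have f2' : ∀ (p : V) (n : ℕ), p.1 = x →
      ∃ w, (R.f.symm (R.g n (F p))).1 = act w p := by
    intro p n hp
    obtain ⟨w, hw⟩ := R.fwd n (F p)
    refine ⟨w, ?_⟩
    rw [hw]
    change act w (R.f.symm (F p)).1 = _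
    rw [f1' p hp]
  have main : ∀ s, ∀ p ∈ G s, H' s (H s p) = p ∧ (∃ n, H s p = gV n p) ∧
      ζ (F (H s p)) = S d s (ζ (F p)) := by
    rintro s p ⟨hp, y', hr, he⟩
    have hp' : p.1 = x := hp
    have ey : y' = Hm R.g (k s) (F p) := hr.eq_Hm
    obtain ⟨n, h1, h2, h3⟩ := hr
    obtain ⟨w, hw⟩ := f2' p n hp'
    have eH : H s p = (R.f.symm y').1 := by rw [ey]
    have eq1 : H s p = act w p := by rw [eH, h3, hw]
    have ex : (R.f.symm y').1.1 = x := by rw [← eH, eq1, act_fst, hp']
    have eF : F (H s p) = y' := by rw [eH]; exact f3' y' ex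
    refine ⟨?_, ?_, ?_⟩
    · change (R.f.symm (Hm (fun n => (R.g n).symm) (k' s) (F (H s p)))).1 = p
      rw [eF]
      have : F p = Hm (fun n => (R.g n).symm) (k' s) y' := by
        refine Rl.eq_Hm (k' := k s) ⟨n, h2, h1, ?_⟩
        rw [h3]; exact ((R.g n).symm_apply_apply _).symm
      rw [← this]
      exact f1' p hp'
    · obtain ⟨m, hm⟩ := ew_surj w
      refine ⟨m, ?_⟩
      rw [eq1, gV, hm]
    · rw [eF]; exact he
  refine good_of_maps (mx x) (gV_mp x) DV_dense (ζ := fun p => ζ (F p)) (hζ.comp hF) d G hG H H'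
    hH hH' (fun s p hp => (main s p hp).1) (fun s p hp => (main s p hp).2.1)
    (fun s p hp => (main s p hp).2.2) (fun s => ?_) ha0 hb
  have e1 : (mx x) (G s)ᶜ =
      R.nu x hx (dm R.g (k s) (k' s) {p | ζ p.2 = S d s (ζ p.1)})ᶜ := by
    have hm : Measurable (fun z : T2 => (x, z)) := by fun_prop
    rw [Real'.nu, Measure.map_apply R.f.measurable (hdm s).compl, mxA,
      Measure.map_apply (measurable_fib A x hx) (R.f.measurable (hdm s).compl), mx,
      Measure.map_apply hm (hG s).compl]
    congr 1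
    ext z
    simp [G, F]
  rw [Measure.real, e1]
  exact ha s

/-- **Main theorem**: for the chosen set of parameters there is no realization. -/
theorem no_real {A D : Set T1} {𝒞 : Set (Set T1)} (h1 : 𝒞.Countable)
    (h2 : ∀ C ∈ 𝒞, IsClosed C ∧ interior C = ∅) (h3 : Aᶜ = ⋃₀ 𝒞) (h4 : ∀ x ∈ A, Irr x)
    (h5 : Dense D) {δ : ℝ} (hδ : 0 < δ)
    (h6 : ∀ d ∈ D, ∀ x ∈ A, ∀ j, ¬ GoodJ gV DV (172 * δ) j d (mx x))
    (R : Real' A K) : False := by
  classical
  have hA : MeasurableSet A := by
    rw [← compl_compl A, h3]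
    exact (MeasurableSet.sUnion h1 fun C hC => (h2 C hC).1.measurableSet).compl
  let DK : ℕ → C(K, ℝ) := TopologicalSpace.denseSeq C(K, ℝ)
  have hDK : DenseRange DK := TopologicalSpace.denseRange_denseSeq _
  have hdata : ∀ x (hx : x ∈ A), ∃ j, GoodJ R.g DK δ j x (R.nu x hx) := fun x hx =>
    R.data hA hDK x hx hδ
  -- Baire
  let AJ : J → Set T1 := fun j => {x | ∃ hx : x ∈ A, GoodJ R.g DK δ j x (R.nu x hx)}
  have hcount : Countable 𝒞 := h1.to_subtype
  let Fm : (𝒞 ⊕ J) → Set T1 := fun i => Sum.elim (fun C : 𝒞 => (C : Set T1))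
    (fun j => closure (AJ j)) i
  have hFc : ∀ i, IsClosed (Fm i) := by
    rintro (C | j)
    · exact (h2 C C.2).1
    · exact isClosed_closure
  have hFu : ⋃ i, Fm i = univ := by
    refine eq_univ_of_forall fun x => ?_
    rw [mem_iUnion]
    by_cases hx : x ∈ A
    · obtain ⟨j, hj⟩ := hdata x hx
      exact ⟨Sum.inr j, subset_closure ⟨hx, hj⟩⟩
    · have : x ∈ ⋃₀ 𝒞 := by rw [← h3]; exact hx
      obtain ⟨C, hC, hxC⟩ := this
      exact ⟨Sum.inl ⟨C, hC⟩, hxC⟩
  obtain ⟨i, hi⟩ := nonempty_interior_of_iUnion_of_closed hFc hFu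
  rcases i with C | j
  · have := (h2 C C.2).2
    change (interior (C : Set T1)).Nonempty at hi
    rw [this] at hi
    exact not_nonempty_empty hi
  change (interior (closure (AJ j))).Nonempty at hi
  obtain ⟨d, hd1, hdD⟩ := h5.inter_open_nonempty _ isOpen_interior hi
  obtain ⟨xs, hxs, hlim⟩ := mem_closure_iff_seq_limit.1 (interior_subset hd1)
  choose hxA hxG using hxs
  let nus : ℕ → ProbabilityMeasure K := fun n => ⟨R.nu (xs n) (hxA n), inferInstance⟩
  obtain ⟨nu0, hnu0⟩ := exists_lim (hyperfilter ℕ) nus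
  have hinvs : ∀ i n, MeasurePreserving (R.g n) (nus i : Measure K) (nus i : Measure K) :=
    fun i n => R.inv hA _ _ n
  have hgood := Good.limit (hyperfilter ℕ) (hlim.mono_left Nat.hyperfilter_le_atTop) hnu0
    hinvs hxG
  have hinv0 : ∀ n, MeasurePreserving (R.g n) (nu0 : Measure K) (nu0 : Measure K) := by
    intro n
    have hc : Continuous (R.g n) := (R.g n).continuous
    have h1 := ProbabilityMeasure.tendsto_map_of_tendsto_of_continuous nus nu0 hnu0 hc
    have h2 : (fun i => (nus i).map hc.measurable.aemeasurable) = nus := by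
      funext i
      apply Subtype.ext
      exact (hinvs i n).map_eq
    rw [h2] at h1
    have h3 := tendsto_nhds_unique h1 hnu0
    exact ⟨hc.measurable, congrArg Subtype.val h3⟩
  obtain ⟨ζ, hζ, hb, _⟩ := hgood
  have hE : ∀ s, MeasurableSet {p : K × K | ζ p.2 = S d s (ζ p.1)} := fun s =>
    measurableSet_eq_fun (hζ.comp measurable_snd)
      ((continuous_S' d s).measurable.comp (hζ.comp measurable_fst))
  let P : Fin 3 → Set K := fun s => (dm R.g (DK (j.1 s)) (DK (j.2.1 s))
    {p | ζ p.2 = S d s (ζ p.1)})ᶜ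
  have hP : ∀ s, MeasurableSet (P s) := fun s =>
    (meas_dm (DK (j.1 s)).continuous (DK (j.2.1 s)).continuous (hE s)).compl
  have hU : MeasurableSet (⋃ s, P s) := MeasurableSet.iUnion hP
  obtain ⟨x, hx, hle⟩ := R.fubini hA h4 (nu0 : Measure K) hinv0 hU
  have hsum : (nu0 : Measure K).real (⋃ s, P s) ≤ 171 * δ := by
    refine (measureReal_iUnion_fintype_le (μ := (nu0 : Measure K)) P).trans ?_
    rw [Fin.sum_univ_three]
    have e0 := hb 0
    have e1 := hb 1
    have e2 := hb 2
    change (nu0 : Measure K).real (P 0) ≤ _ at e0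
    change (nu0 : Measure K).real (P 1) ≤ _ at e1
    change (nu0 : Measure K).real (P 2) ≤ _ at e2
    linarith
  have hbad : ∀ s, (R.nu x hx).real (P s) ≤ 171 * δ := by
    intro s
    refine le_trans (measureReal_mono (subset_iUnion P s)) (le_trans ?_ hsum)
    exact ENNReal.toReal_mono (measure_ne_top _ _) hle
  obtain ⟨j', hj'⟩ := R.transfer hA x hx hζ d hbad hδ
  refine h6 d hdD x hx j' ?_
  have : 171 * δ + δ = 172 * δ := by ring
  rw [this] at hj'
  exact hj'

end

end Pool.Agent.CBER
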