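import Pool.Agent.Lib.MP_ff62c8_lc.Approx

/-! # The model: the group acting on the circle times the torus -/

set_option autoImplicit false

open MeasureTheory Set ProbabilityTheory Filter Topology
open scoped ENNReal NNReal BoundedContinuousFunction

namespace Pool.Agent.CBER

/-- the total space -/
abbrev V := T1 × T2

instance borelV : BorelSpace (T1 × (T1 × T1)) := by
  have h1 : BorelSpace (T1 × T1) := inferInstance
  have h2 : SecondCountableTopology (T1 × T1) := inferInstance
  have h3 : SecondCountableTopologyEither T1 (T1 × T1) := inferInstance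
  exact Prod.borelSpace

instance meqV : MeasurableEq (T1 × (T1 × T1)) := inferInstance

/-- the generators -/
def gen0 : V ≃ₜ V where
  toFun p := (p.1, f1 p.2)
  invFun p := (p.1, f1i p.2)
  left_inv p := by simp [f1i_f1]
  right_inv p := by simp [f1_f1i]
  continuous_toFun := continuous_fst.prodMk (continuous_f1.comp continuous_snd)
  continuous_invFun := continuous_fst.prodMk (continuous_f1i.comp continuous_snd)

def gen1 : V ≃ₜ V where
  toFun p := (p.1, f2 p.2)
  invFun p := (p.1, f2i p.2)
  left_inv p := by simp [f2i_f2]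
  right_inv p := by simp [f2_f2i]
  continuous_toFun := continuous_fst.prodMk (continuous_f2.comp continuous_snd)
  continuous_invFun := continuous_fst.prodMk (continuous_f2i.comp continuous_snd)

def gen2 : V ≃ₜ V where
  toFun p := (p.1, (p.2.1 + p.1, p.2.2))
  invFun p := (p.1, (p.2.1 - p.1, p.2.2))
  left_inv p := by simp
  right_inv p := by simp
  continuous_toFun := by fun_prop
  continuous_invFun := by fun_prop

def gen3 : V ≃ₜ V where
  toFun p := (p.1, (p.2.1, p.2.2 + p.1))
  invFun p := (p.1, (p.2.1, p.2.2 - p.1))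
  left_inv p := by simp
  right_inv p := by simp
  continuous_toFun := by fun_prop
  continuous_invFun := by fun_prop

/-- the four generators -/
def gen (i : Fin 4) : V ≃ₜ V := ![gen0, gen1, gen2, gen3] i

/-- the action of the free group on four generators -/
noncomputable def act : FreeGroup (Fin 4) →* (V ≃ₜ V) := FreeGroup.lift gen

lemma act_of (i : Fin 4) : act (FreeGroup.of i) = gen i := by simp [act]

lemma act_mul_apply (a b : FreeGroup (Fin 4)) (p : V) : act (a * b) p = act a (act b p) := by
  rw [map_mul]; rfl

lemma act_one_apply (p : V) : act 1 p = p := by rw [map_one]; rfl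

lemma act_inv_apply (a : FreeGroup (Fin 4)) (p : V) : act a⁻¹ (act a p) = p := by
  rw [← act_mul_apply, inv_mul_cancel, act_one_apply]

lemma act_inv_apply' (a : FreeGroup (Fin 4)) (p : V) : act a (act a⁻¹ p) = p := by
  rw [← act_mul_apply, mul_inv_cancel, act_one_apply]

/-- an induction principle for elements of the free group acting -/
lemma act_induction {P : (V ≃ₜ V) → Prop} (h1 : P 1) (hg : ∀ i, P (gen i))
    (hi : ∀ a, P a → P a⁻¹) (hm : ∀ a b, P a → P b → P (a * b)) (w : FreeGroup (Fin 4)) :
    P (act w) := by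
  refine FreeGroup.induction_on (C := fun w => P (act w)) w ?_ ?_ ?_ ?_
  · rw [map_one]; exact h1
  · intro i; have := hg i; rwa [← act_of] at this
  · intro i h; rw [map_inv]; exact hi _ h
  · intro a b ha hb; rw [map_mul]; exact hm _ _ ha hb

lemma act_fst (w : FreeGroup (Fin 4)) (p : V) : (act w p).1 = p.1 := by
  revert p
  refine act_induction (P := fun a => ∀ p, (a p).1 = p.1) ?_ ?_ ?_ ?_ w
  · intro p; rfl
  · intro i p
    fin_cases i <;> rfl
  · intro a ha p
    have := ha (a⁻¹ p)
    rw [← this]
    have h2 : a (a⁻¹ p) = p := a.apply_symm_apply p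
    rw [h2]
  · intro a b ha hb p
    change (a (b p)).1 = p.1
    rw [ha, hb]

/-- the fibre measure on `V` -/
noncomputable def mx (x : T1) : Measure V := (volume : Measure T2).map (fun z => (x, z))

instance : IsProbabilityMeasure (volume : Measure T2) := by
  rw [Measure.volume_eq_prod]; infer_instance

instance (x : T1) : IsProbabilityMeasure (mx x) :=
  Measure.isProbabilityMeasure_map (by fun_prop)

lemma mp_f2 : MeasurePreserving f2 (volume : Measure T2) volume := by
  rw [Measure.volume_eq_prod]
  refine (MeasurePreserving.id (volume : Measure T1)).skew_product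
    (g := fun a c : T1 => c + (2 : ℕ) • a) (by fun_prop) ?_
  exact ae_of_all _ fun a => volume_inv _

lemma mp_f1 : MeasurePreserving f1 (volume : Measure T2) volume := by
  have hs : MeasurePreserving (Prod.swap : T2 → T2) volume volume := by
    rw [Measure.volume_eq_prod]; exact Measure.measurePreserving_swap
  have := (hs.comp mp_f2).comp hs
  exact this

lemma mp_ta (x : T1) : MeasurePreserving (fun z : T2 => (z.1 + x, z.2)) volume volume := by
  rw [Measure.volume_eq_prod]
  exact (measurePreserving_add_right volume x).prod (MeasurePreserving.id _)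

lemma mp_tb (x : T1) : MeasurePreserving (fun z : T2 => (z.1, z.2 + x)) volume volume := by
  rw [Measure.volume_eq_prod]
  exact (MeasurePreserving.id _).prod (measurePreserving_add_right volume x)

lemma mp_aux {x : T1} {s : V → V} (hs : Measurable s) {r : T2 → T2}
    (hr : MeasurePreserving r volume volume) (h : ∀ z, s (x, z) = (x, r z)) :
    MeasurePreserving s (mx x) (mx x) := by
  refine ⟨hs, ?_⟩
  have hm : Measurable (fun z : T2 => (x, z)) := by fun_prop
  rw [mx, Measure.map_map hs hm]
  have : s ∘ (fun z : T2 => (x, z)) = (fun z : T2 => (x, z)) ∘ r := by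
    funext z; exact h z
  rw [this, ← Measure.map_map hm hr.measurable, hr.map_eq]

lemma act_mp (w : FreeGroup (Fin 4)) (x : T1) : MeasurePreserving (act w) (mx x) (mx x) := by
  refine act_induction (P := fun a => MeasurePreserving a (mx x) (mx x)) ?_ ?_ ?_ ?_ w
  · exact MeasurePreserving.id _
  · intro i
    have hm := (gen i).continuous.measurable
    fin_cases i
    · exact mp_aux hm mp_f1 fun z => rfl
    · exact mp_aux hm mp_f2 fun z => rfl
    · exact mp_aux hm (mp_ta x) fun z => rfl
    · exact mp_aux hm (mp_tb x) fun z => rfl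
  · intro a ha
    exact MeasurePreserving.symm a.toMeasurableEquiv ha
  · intro a b ha hb
    exact ha.comp hb

instance : Nontrivial T1 := by
  refine ⟨((1/2 : ℝ) : T1), 0, fun h => ?_⟩
  have h1 : ‖((1/2 : ℝ) : T1)‖ = |(1/2 : ℝ)| :=
    (AddCircle.norm_coe_eq_abs_iff 1 (by norm_num)).2 (by norm_num [abs_of_pos])
  rw [h, norm_zero] at h1
  norm_num at h1

instance nebT1 (x : T1) : NeBot (𝓝[≠] x) :=
  ConnectedSpace.neBot_nhdsWithin_compl_of_nontrivial_of_t1space x

instance : NullSingletonClass (volume : Measure T2) := by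
  rw [Measure.volume_eq_prod]; infer_instance

lemma countable_null {s : Set T2} (hs : s.Countable) : (volume : Measure T2) s = 0 :=
  hs.measure_zero _

/-- elements of the full group preserve the measure -/
theorem full_group {W ι : Type*} [MeasurableSpace W] [StandardBorelSpace W] [Countable ι]
    {μ : Measure W} (h : ι → W ≃ᵐ W) (hh : ∀ i, MeasurePreserving (h i) μ μ)
    (r : W ≃ᵐ W) (hr : ∀ w, ∃ i, r w = h i w) : MeasurePreserving r μ μ := by
  classical
  rcases isEmpty_or_nonempty W with hW | hW
  · refine ⟨r.measurable, ?_⟩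
    ext A hA
    have : A = ∅ := Subsingleton.elim _ _
    simp [this]
  have hι : Nonempty ι := ⟨(hr (Classical.arbitrary W)).choose⟩
  obtain ⟨e, he⟩ := exists_surjective_nat ι
  have hP : ∀ w, ∃ n : ℕ, r w = h (e n) w := fun w => by
    obtain ⟨i, hi⟩ := hr w
    obtain ⟨n, rfl⟩ := he i
    exact ⟨n, hi⟩
  have hPm : ∀ n : ℕ, MeasurableSet {w | r w = h (e n) w} := fun n =>
    measurableSet_eq_fun r.measurable (h (e n)).measurable
  let N : W → ℕ := fun w => Nat.find (hP w)
  have hN : Measurable N := measurable_find hP hPm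
  have hNs : ∀ w, r w = h (e (N w)) w := fun w => Nat.find_spec (hP w)
  refine ⟨r.measurable, ?_⟩
  ext A hA
  rw [Measure.map_apply r.measurable hA]
  have hDm : ∀ n, MeasurableSet (N ⁻¹' {n}) := fun n => hN (measurableSet_singleton n)
  have hU : ∀ B : Set W, B = ⋃ n, B ∩ N ⁻¹' {n} := fun B => by
    ext w; simp
  have hd : ∀ B : Set W, Pairwise (Function.onFun Disjoint fun n => B ∩ N ⁻¹' {n}) := by
    intro B n m hnm
    rw [Function.onFun, Set.disjoint_left]
    rintro w ⟨_, h1⟩ ⟨_, h2⟩
    exact hnm (h1.symm.trans h2)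
  have hrA : MeasurableSet (r ⁻¹' A) := r.measurable hA
  calc μ (r ⁻¹' A) = ∑' n, μ (r ⁻¹' A ∩ N ⁻¹' {n}) := by
        conv_lhs => rw [hU (r ⁻¹' A)]
        exact measure_iUnion (hd _) fun n => hrA.inter (hDm n)
    _ = ∑' n, μ (r '' (r ⁻¹' A ∩ N ⁻¹' {n})) := by
        refine tsum_congr fun n => ?_
        have e1 : r '' (r ⁻¹' A ∩ N ⁻¹' {n}) = h (e n) '' (r ⁻¹' A ∩ N ⁻¹' {n}) := by
          refine image_congr fun w hw => ?_
          have : N w = n := hw.2
          rw [hNs w, this]
        rw [e1]
        have hm : MeasurableSet (h (e n) '' (r ⁻¹' A ∩ N ⁻¹' {n})) :=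
          (h (e n)).measurableSet_image.2 (hrA.inter (hDm n))
        have := (hh (e n)).measure_preimage hm.nullMeasurableSet
        rw [preimage_image_eq _ (h (e n)).injective] at this
        exact this
    _ = μ (⋃ n, r '' (r ⁻¹' A ∩ N ⁻¹' {n})) := by
        rw [measure_iUnion]
        · intro n m hnm
          exact (disjoint_image_iff r.injective).2 (hd _ hnm)
        · exact fun n => r.measurableSet_image.2 (hrA.inter (hDm n))
    _ = μ A := by
        rw [← image_iUnion, ← hU, image_preimage_eq _ r.surjective]

/-- the phase space over a set of parameters -/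
abbrev XA (A : Set T1) : Type := {p : V // p.1 ∈ A}

/-- the action on the phase space -/
noncomputable def actX (A : Set T1) (w : FreeGroup (Fin 4)) : XA A ≃ᵐ XA A where
  toFun p := ⟨act w p.1, by rw [act_fst]; exact p.2⟩
  invFun p := ⟨act w⁻¹ p.1, by rw [act_fst]; exact p.2⟩
  left_inv p := by apply Subtype.ext; exact act_inv_apply w p.1
  right_inv p := by apply Subtype.ext; exact act_inv_apply' w p.1
  measurable_toFun := by
    refine Measurable.subtype_mk ?_
    exact (act w).continuous.measurable.comp measurable_subtype_coe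
  measurable_invFun := by
    refine Measurable.subtype_mk ?_
    exact (act w⁻¹).continuous.measurable.comp measurable_subtype_coe

/-- the equivalence relation -/
def RA (A : Set T1) (p q : XA A) : Prop := ∃ w, act w p.1 = q.1

lemma RA_equiv (A : Set T1) : Equivalence (RA A) where
  refl p := ⟨1, act_one_apply p.1⟩
  symm := by
    rintro p q ⟨w, h⟩
    exact ⟨w⁻¹, by rw [← h, act_inv_apply]⟩
  trans := by
    rintro p q r ⟨w, h⟩ ⟨v, h'⟩
    exact ⟨v * w, by rw [act_mul_apply, h, h']⟩

lemma RA_meas (A : Set T1) : MeasurableSet {p : XA A × XA A | RA A p.1 p.2} := by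
  have : {p : XA A × XA A | RA A p.1 p.2} = ⋃ w, {p | act w p.1.1 = p.2.1} := by
    ext p; simp [RA]
  rw [this]
  refine MeasurableSet.iUnion fun w => measurableSet_eq_fun ?_ ?_
  · exact (act w).continuous.measurable.comp (measurable_subtype_coe.comp measurable_fst)
  · exact measurable_subtype_coe.comp measurable_snd

lemma RA_countable (A : Set T1) (p : XA A) : {q | RA A p q}.Countable := by
  have : {q | RA A p q} ⊆ range (fun w => actX A w p) := by
    rintro q ⟨w, h⟩
    exact ⟨w, Subtype.ext h⟩
  exact (countable_range _).mono this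

lemma RA_infinite (A : Set T1) (hA : ∀ x ∈ A, Irr x) (p : XA A) : {q | RA A p q}.Infinite := by
  have hpow : ∀ n : ℕ, ∀ p : V, (act (FreeGroup.of 2 ^ n) p) = (p.1, (p.2.1 + n • p.1, p.2.2)) := by
    intro n
    induction n with
    | zero => intro p; simp
    | succ n ih =>
      intro p
      rw [pow_succ, act_mul_apply, act_of]
      change act (FreeGroup.of 2 ^ n) (p.1, (p.2.1 + p.1, p.2.2)) = _
      rw [ih]
      simp only [Prod.mk.injEq, true_and, and_true]
      rw [succ_nsmul]; abel
  refine infinite_of_injective_forall_mem (f := fun n : ℕ => actX A (FreeGroup.of 2 ^ n) p) ?_ ?_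
  · intro n m hnm
    have h1 : act (FreeGroup.of 2 ^ n) p.1 = act (FreeGroup.of 2 ^ m) p.1 :=
      congrArg Subtype.val hnm
    rw [hpow, hpow] at h1
    have h2 : n • p.1.1 = m • p.1.1 := by
      have := (Prod.mk.inj (Prod.mk.inj h1).2).1
      exact add_left_cancel this
    by_contra hne
    have h3 : ((n : ℤ) - m) • p.1.1 = 0 := by
      rw [sub_smul, natCast_zsmul, natCast_zsmul, h2, sub_self]
    exact hA _ p.2 _ (by omega) h3
  · intro n
    exact ⟨_, rfl⟩

end Pool.Agent.CBER
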