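import Pool.Agent.Lib.MP_ff62c8_lc.Model

/-! # Fibre measures, non-smoothness, invariant measures -/

set_option autoImplicit false

open MeasureTheory Set ProbabilityTheory Filter Topology
open scoped ENNReal NNReal BoundedContinuousFunction

namespace Pool.Agent.CBER

/-- inclusion of the fibre -/
def fib (A : Set T1) (x : T1) (hx : x ∈ A) (z : T2) : XA A := ⟨(x, z), hx⟩

lemma measurable_fib (A : Set T1) (x : T1) (hx : x ∈ A) : Measurable (fib A x hx) :=
  Measurable.subtype_mk (by fun_prop)

/-- the fibre measure on the phase space -/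
noncomputable def mxA (A : Set T1) (x : T1) (hx : x ∈ A) : Measure (XA A) :=
  (volume : Measure T2).map (fib A x hx)

instance (A : Set T1) (x : T1) (hx : x ∈ A) : IsProbabilityMeasure (mxA A x hx) :=
  Measure.isProbabilityMeasure_map (measurable_fib A x hx).aemeasurable

lemma mp_fibre (w : FreeGroup (Fin 4)) (x : T1) :
    MeasurePreserving (fun z : T2 => (act w (x, z)).2) volume volume := by
  have hm : Measurable (fun z : T2 => (x, z)) := by fun_prop
  have ha : Measurable (act w) := (act w).continuous.measurable
  refine ⟨(measurable_snd.comp ha).comp hm, ?_⟩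
  have h1 := (act_mp w x).map_eq
  have h2 : (volume : Measure T2).map (fun z : T2 => (act w (x, z)).2) =
      ((mx x).map (act w)).map Prod.snd := by
    rw [mx, Measure.map_map ha hm, Measure.map_map measurable_snd (ha.comp hm)]; rfl
  rw [h2, h1, mx, Measure.map_map measurable_snd hm]
  exact Measure.map_id

lemma actX_mp (A : Set T1) (x : T1) (hx : x ∈ A) (w : FreeGroup (Fin 4)) :
    MeasurePreserving (actX A w) (mxA A x hx) (mxA A x hx) := by
  refine ⟨(actX A w).measurable, ?_⟩
  have hm := measurable_fib A x hx
  rw [mxA, Measure.map_map (actX A w).measurable hm]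
  have h1 : (actX A w) ∘ (fib A x hx) = (fib A x hx) ∘ (fun z : T2 => (act w (x, z)).2) := by
    funext z
    apply Subtype.ext
    change act w (x, z) = (x, (act w (x, z)).2)
    exact Prod.ext (act_fst w (x, z)) rfl
  rw [h1, ← Measure.map_map hm (mp_fibre w x).measurable, (mp_fibre w x).map_eq]

/-- invariant measures on the phase space are products -/
theorem inv_XA (A : Set T1) (hA : ∀ x ∈ A, Irr x) (m : Measure (XA A)) [IsFiniteMeasure m]
    (hm : ∀ w, MeasurePreserving (actX A w) m m) :
    m.map Subtype.val = ((m.map Subtype.val).fst).prod (volume : Measure T2) := by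
  have hval : Measurable (Subtype.val : XA A → V) := measurable_subtype_coe
  refine inv_prod2 _ ?_ ?_ ?_
  · refine (ae_map_iff hval.aemeasurable (p := fun p : V => Irr p.1)
      (measurable_fst irr_meas)).2 ?_
    exact ae_of_all _ fun p => hA _ p.2
  · have h1 : ta ∘ (Subtype.val : XA A → V) = Subtype.val ∘ (actX A (FreeGroup.of 2)) := by
      funext p
      change ta p.1 = act (FreeGroup.of 2) p.1
      rw [act_of]; rfl
    rw [Measure.map_map continuous_ta.measurable hval, h1,
      ← Measure.map_map hval (actX A _).measurable, (hm _).map_eq]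
  · have h1 : tb ∘ (Subtype.val : XA A → V) = Subtype.val ∘ (actX A (FreeGroup.of 3)) := by
      funext p
      change tb p.1 = act (FreeGroup.of 3) p.1
      rw [act_of]; rfl
    rw [Measure.map_map continuous_tb.measurable hval, h1,
      ← Measure.map_map hval (actX A _).measurable, (hm _).map_eq]

/-- the fibre of the translation action is ergodic -/
lemma ergodic_fibre {x : T1} (hx : Irr x) {B : Set T2} (hB : MeasurableSet B)
    (h1 : (fun z : T2 => (z.1 + x, z.2)) ⁻¹' B = B)
    (h2 : (fun z : T2 => (z.1, z.2 + x)) ⁻¹' B = B) :
    (volume : Measure T2) B = 0 ∨ (volume : Measure T2) B = 1 := by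
  have hm : Measurable (fun z : T2 => (x, z)) := by fun_prop
  let m : Measure V := ((volume : Measure T2).restrict B).map (fun z : T2 => (x, z))
  have hr1 : ((volume : Measure T2).restrict B).map (fun z : T2 => (z.1 + x, z.2)) =
      (volume : Measure T2).restrict B := by
    have := (mp_ta x).restrict_preimage hB
    rw [h1] at this; exact this.map_eq
  have hr2 : ((volume : Measure T2).restrict B).map (fun z : T2 => (z.1, z.2 + x)) =
      (volume : Measure T2).restrict B := by
    have := (mp_tb x).restrict_preimage hB
    rw [h2] at this; exact this.map_eq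
  have hfin : IsFiniteMeasure m := inferInstance
  have hprod : m = m.fst.prod (volume : Measure T2) := by
    refine inv_prod2 m ?_ ?_ ?_
    · refine (ae_map_iff hm.aemeasurable (p := fun p : V => Irr p.1)
        (measurable_fst irr_meas)).2 ?_
      exact ae_of_all _ fun z => hx
    · rw [Measure.map_map continuous_ta.measurable hm]
      have : ta ∘ (fun z : T2 => (x, z)) = (fun z : T2 => (x, z)) ∘
        (fun z : T2 => (z.1 + x, z.2)) := rfl
      rw [this, ← Measure.map_map hm (mp_ta x).measurable, hr1]
    · rw [Measure.map_map continuous_tb.measurable hm]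
      have : tb ∘ (fun z : T2 => (x, z)) = (fun z : T2 => (x, z)) ∘
        (fun z : T2 => (z.1, z.2 + x)) := rfl
      rw [this, ← Measure.map_map hm (mp_tb x).measurable, hr2]
  have e1 : m (univ ×ˢ B) = volume B := by
    rw [Measure.map_apply hm (MeasurableSet.univ.prod hB),
      Measure.restrict_apply (hm (MeasurableSet.univ.prod hB))]
    congr 1
    ext z; simp
  have e2 : m.fst univ = volume B := by
    rw [Measure.fst_univ, Measure.map_apply hm MeasurableSet.univ]; simp
  have e3 : (volume : Measure T2) B = volume B * volume B := by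
    conv_lhs => rw [← e1, hprod, Measure.prod_prod, e2]
  by_cases h0 : (volume : Measure T2) B = 0
  · left; exact h0
  · right
    have hne : (volume : Measure T2) B ≠ ∞ := measure_ne_top _ _
    have : (volume : Measure T2) B * 1 = volume B * volume B := by rw [mul_one]; exact e3
    exact ((ENNReal.mul_right_inj h0 hne).1 this).symm

theorem RA_nonsmooth (A : Set T1) (hA : ∀ x ∈ A, Irr x) (hne : A.Nonempty) :
    ¬ ∃ f : XA A → ℝ, Measurable f ∧ ∀ p q : XA A, RA A p q ↔ f p = f q := by
  rintro ⟨f, hf, hfe⟩
  obtain ⟨x, hx⟩ := hne
  let φ : T2 → ℝ := fun z => f (fib A x hx z)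
  have hφ : Measurable φ := hf.comp (measurable_fib A x hx)
  have i1 : ∀ z : T2, φ (z.1 + x, z.2) = φ z := by
    intro z
    refine ((hfe _ _).1 ⟨FreeGroup.of 2, ?_⟩).symm
    rw [act_of]; rfl
  have i2 : ∀ z : T2, φ (z.1, z.2 + x) = φ z := by
    intro z
    refine ((hfe _ _).1 ⟨FreeGroup.of 3, ?_⟩).symm
    rw [act_of]; rfl
  have hconst : ∃ a, φ =ᵐ[(volume : Measure T2)] Function.const _ a := by
    refine exists_eventuallyEq_const_of_forall_separating (MeasurableSet : Set ℝ → Prop)
      fun U hU => ?_
    have hB := hφ hU
    rcases ergodic_fibre (hA x hx) hB (by ext z; simp only [mem_preimage, i1])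
      (by ext z; simp only [mem_preimage, i2]) with h | h
    · right
      exact measure_eq_zero_iff_ae_notMem.1 h
    · left
      have : (volume : Measure T2) (φ ⁻¹' U)ᶜ = 0 := by
        rw [measure_compl hB (measure_ne_top _ _), h, measure_univ, tsub_self]
      have := measure_eq_zero_iff_ae_notMem.1 this
      filter_upwards [this] with z hz
      simpa using hz
  obtain ⟨a, ha⟩ := hconst
  have hpos : ∃ z, φ z = a := ha.exists
  obtain ⟨z0, hz0⟩ := hpos
  have hsub : {z | φ z = a} ⊆ (fun q : XA A => q.1.2) '' {q | RA A (fib A x hx z0) q} := by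
    intro z hz
    refine ⟨fib A x hx z, ?_, rfl⟩
    refine (hfe _ _).2 ?_
    change φ z0 = φ z
    rw [hz0]; exact hz.symm
  have hc : {z | φ z = a}.Countable := ((RA_countable A _).image _).mono hsub
  have h0 := countable_null hc
  have h1 : (volume : Measure T2) {z | φ z = a}ᶜ = 0 := by
    have := ha
    rw [Filter.EventuallyEq, ae_iff] at this
    exact this
  have h2 : (volume : Measure T2) univ = 0 := by
    rw [← union_compl_self {z | φ z = a}]
    exact measure_union_null h0 h1
  simp at h2

lemma XA_uncountable (A : Set T1) (hne : A.Nonempty) : Uncountable (XA A) := by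
  rw [← not_countable_iff]
  intro hc
  obtain ⟨x, hx⟩ := hne
  have hinj : Function.Injective (fib A x hx) := by
    intro z z' h
    exact (Prod.mk.inj (congrArg Subtype.val h)).2
  have : Countable T2 := hinj.countable
  have h0 := countable_null (countable_univ (α := T2))
  simp at h0

end Pool.Agent.CBER
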