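import Pool.Agent.Lib.MP_ff62c8_lc.Main

/-!
An explicit nonsmooth aperiodic countable Borel equivalence relation without compact action
realization: the restriction to `B × 𝕋²`, for every dense `G_δ` set `B` of parameters inside a
suitable dense `G_δ` subset of the circle `𝕋`, of the orbit equivalence relation of a continuous
action of the free group on four generators on the compact space `𝕋 × 𝕋²`.
-/

set_option autoImplicit false

open MeasureTheory Set Topology

universe u v

namespace Pool.Agent.Lib.MP_ff62c8_lc.Own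

/-- `E` is a countable Borel equivalence relation on `X`. -/
def IsCBER {X : Type} [MeasurableSpace X] (E : X → X → Prop) : Prop :=
  Equivalence E ∧ MeasurableSet {p : X × X | E p.1 p.2} ∧ ∀ x, {y | E x y}.Countable

/-- Every class of `E` is infinite. -/
def IsAperiodic {X : Type} (E : X → X → Prop) : Prop := ∀ x, {y | E x y}.Infinite

/-- Some Borel map `f` from `X` to a standard Borel space has `E x y ↔ f x = f y`. -/
def IsSmooth {X : Type} [MeasurableSpace X] (E : X → X → Prop) : Prop :=
  ∃ (Y : Type u) (_ : MeasurableSpace Y) (_ : StandardBorelSpace Y) (f : X → Y),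
    Measurable f ∧ ∀ x y, E x y ↔ f x = f y

/-- Some Borel bijection carries `E` to `F`. -/
def BorelIsomorphic {X : Type} {Y : Type u} [MeasurableSpace X] [MeasurableSpace Y]
    (E : X → X → Prop) (F : Y → Y → Prop) : Prop :=
  ∃ φ : X → Y, Measurable φ ∧ Function.Bijective φ ∧ ∀ x y, E x y ↔ F (φ x) (φ y)

/-- `E` is Borel isomorphic to the orbit equivalence relation of a continuous action of a
countable (discrete) group `G` on a compact Polish space `Y`. -/
def HasCompactActionRealization {X : Type} [MeasurableSpace X] (E : X → X → Prop) : Prop :=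
  ∃ (Y : Type u) (_ : TopologicalSpace Y) (_ : CompactSpace Y) (_ : PolishSpace Y)
    (_ : MeasurableSpace Y) (_ : BorelSpace Y) (G : Type v) (_ : Group G) (_ : Countable G)
    (_ : MulAction G Y) (_ : ContinuousConstSMul G Y),
    BorelIsomorphic E (fun x y : Y => ∃ g : G, g • x = y)

/-- The four homeomorphisms of `𝕋 × 𝕋²`:
`(x, y, z) ↦ (x, y + 2z, z)`, `(x, y, z + 2y)`, `(x, y + x, z)`, `(x, y, z + x)`. -/
def generator : Fin 4 →
    ((UnitAddCircle × (UnitAddCircle × UnitAddCircle)) ≃ₜ
      (UnitAddCircle × (UnitAddCircle × UnitAddCircle))) :=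
  ![{ toFun := fun p => (p.1, (p.2.1 + (2 : ℕ) • p.2.2, p.2.2))
      invFun := fun p => (p.1, (p.2.1 - (2 : ℕ) • p.2.2, p.2.2))
      left_inv := fun p => by simp
      right_inv := fun p => by simp
      continuous_toFun := by fun_prop
      continuous_invFun := by fun_prop },
    { toFun := fun p => (p.1, (p.2.1, p.2.2 + (2 : ℕ) • p.2.1))
      invFun := fun p => (p.1, (p.2.1, p.2.2 - (2 : ℕ) • p.2.1))
      left_inv := fun p => by simp
      right_inv := fun p => by simp
      continuous_toFun := by fun_prop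
      continuous_invFun := by fun_prop },
    { toFun := fun p => (p.1, (p.2.1 + p.1, p.2.2))
      invFun := fun p => (p.1, (p.2.1 - p.1, p.2.2))
      left_inv := fun p => by simp
      right_inv := fun p => by simp
      continuous_toFun := by fun_prop
      continuous_invFun := by fun_prop },
    { toFun := fun p => (p.1, (p.2.1, p.2.2 + p.1))
      invFun := fun p => (p.1, (p.2.1, p.2.2 - p.1))
      left_inv := fun p => by simp
      right_inv := fun p => by simp
      continuous_toFun := by fun_prop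
      continuous_invFun := by fun_prop }]

/-- The set `B × 𝕋²`, for a set `B` of parameters. -/
abbrev Phase (B : Set UnitAddCircle) : Type :=
  {p : UnitAddCircle × (UnitAddCircle × UnitAddCircle) // p.1 ∈ B}

/-- Two points of `B × 𝕋²` are related if some element of the free group on the four generators
moves the first to the second. -/
def Orbit (B : Set UnitAddCircle) (p q : Phase B) : Prop :=
  ∃ w : FreeGroup (Fin 4), FreeGroup.lift generator w p.1 = q.1

theorem generator_eq : generator = Pool.Agent.CBER.gen := by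
  funext i
  fin_cases i <;> rfl

theorem orbit_eq (B : Set UnitAddCircle) : Orbit B = Pool.Agent.CBER.RA B := by
  funext p q
  unfold Orbit
  rw [generator_eq]
  rfl

/-- A bare copy of the set `B × 𝕋²`. -/
def Copy (B : Set UnitAddCircle) : Type := Phase B

/-- No compact Polish space, in any universe. -/
theorem no_realization {B D : Set UnitAddCircle} {𝒞 : Set (Set UnitAddCircle)}
    (h1 : 𝒞.Countable) (h2 : ∀ C ∈ 𝒞, IsClosed C ∧ interior C = ∅) (h3 : Bᶜ = ⋃₀ 𝒞)
    (h4 : ∀ x ∈ B, Pool.Agent.CBER.Irr x) (h5 : Dense D) {δ : ℝ} (hδ : 0 < δ)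
    (h6 : ∀ d ∈ D, ∀ x ∈ B, ∀ j, ¬ Pool.Agent.CBER.GoodJ Pool.Agent.CBER.gV
      Pool.Agent.CBER.DV (172 * δ) j d (Pool.Agent.CBER.mx x)) :
    ¬ HasCompactActionRealization.{u, v} (Orbit B) := by
  rintro ⟨Y, tY, cY, pY, mY, bY, G, gG, nG, aG, kG, φ, hφ, hbij, hE⟩
  have hB : MeasurableSet B := by
    rw [← compl_compl B, h3]
    exact (MeasurableSet.sUnion h1 fun c hc => (h2 c hc).1.measurableSet).compl
  have hsb : StandardBorelSpace (Phase B) :=
    (measurable_fst hB :
      MeasurableSet {p : Pool.Agent.CBER.V | p.1 ∈ B}).standardBorel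
  -- the Borel isomorphism
  let e₀ : Phase B ≃ Y := Equiv.ofBijective φ hbij
  have hemb : MeasurableEmbedding φ := hφ.measurableEmbedding hbij.1
  let e : Phase B ≃ᵐ Y :=
    { toEquiv := e₀
      measurable_toFun := hφ
      measurable_invFun := by
        intro s hs
        have h := hemb.measurableSet_image.2 hs
        have h' : (e₀.symm) ⁻¹' s = φ '' s := by
          ext y
          constructor
          · intro hy
            exact ⟨e₀.symm y, hy, e₀.apply_symm_apply y⟩
          · rintro ⟨x, hx, rfl⟩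
            change e₀.symm (e₀ x) ∈ s
            rw [e₀.symm_apply_apply]
            exact hx
        change MeasurableSet ((e₀.symm) ⁻¹' s)
        rw [h']
        exact h }
  have he : ∀ x, e x = φ x := fun _ => rfl
  obtain ⟨c, hc⟩ := exists_surjective_nat G
  -- the copy of `Y`
  let k₀ : Copy B ≃ Y := e₀
  let tK : TopologicalSpace (Copy B) := TopologicalSpace.induced k₀ tY
  let mK : MeasurableSpace (Copy B) := borel (Copy B)
  have bK : BorelSpace (Copy B) := ⟨rfl⟩
  let k : Copy B ≃ₜ Y := k₀.toHomeomorphOfIsInducing ⟨rfl⟩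
  have cK : CompactSpace (Copy B) := k.symm.compactSpace
  have pK : PolishSpace (Copy B) := k.isClosedEmbedding.polishSpace
  have hk : ∀ y, k (k.symm y) = y := fun y => k.apply_symm_apply y
  have hk' : ∀ y, k.symm (k y) = y := fun y => k.symm_apply_apply y
  refine Pool.Agent.CBER.no_real (K := Copy B) h1 h2 h3 h4 h5 hδ h6
    { g := fun n => (k.trans (Homeomorph.smul (c n))).trans k.symm
      f := e.trans k.symm.toMeasurableEquiv
      fwd := fun n y => ?_
      bwd := fun w y => ?_ }
  · change ∃ w, e.symm (k (k.symm (c n • k y))) = Pool.Agent.CBER.actX B w (e.symm (k y))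
    rw [hk]
    have h : Orbit B (e.symm (k y)) (e.symm (c n • k y)) := by
      refine (hE _ _).2 ⟨c n, ?_⟩
      rw [← he, ← he, e.apply_symm_apply, e.apply_symm_apply]
    rw [orbit_eq] at h
    obtain ⟨w, hw⟩ := h
    exact ⟨w, Subtype.ext hw.symm⟩
  · change ∃ n, k.symm (e (Pool.Agent.CBER.actX B w (e.symm (k y)))) =
      k.symm (c n • k y)
    have h : Orbit B (e.symm (k y)) (Pool.Agent.CBER.actX B w (e.symm (k y))) := by
      rw [orbit_eq]
      exact ⟨w, rfl⟩
    obtain ⟨γ, hγ⟩ := (hE _ _).1 h
    obtain ⟨n, rfl⟩ := hc γ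
    refine ⟨n, ?_⟩
    rw [← he, ← he, e.apply_symm_apply] at hγ
    rw [hγ]

theorem not_smooth (B : Set UnitAddCircle) (hB : ∀ x ∈ B, Pool.Agent.CBER.Irr x)
    (hne : B.Nonempty) : ¬ IsSmooth.{u} (Orbit B) := by
  rintro ⟨Y, mY, sY, f, hf, h⟩
  obtain ⟨j, hj⟩ := exists_measurableEmbedding_real Y
  refine Pool.Agent.CBER.RA_nonsmooth B hB hne ⟨fun p => j (f p), hj.measurable.comp hf, ?_⟩
  intro p q
  rw [← orbit_eq, h p q]
  exact hj.injective.eq_iff.symm

/-- The relations without compact action realization. -/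
theorem main :
    ∃ A : Set UnitAddCircle, IsGδ A ∧ Dense A ∧
      ∀ B : Set UnitAddCircle, B ⊆ A → IsGδ B → Dense B →
        StandardBorelSpace (Phase B) ∧ IsCBER (Orbit B) ∧ IsAperiodic (Orbit B) ∧
          ¬ IsSmooth.{u} (Orbit B) ∧ ¬ HasCompactActionRealization.{u, v} (Orbit B) := by
  obtain ⟨A, D, C, h1, h2, h3, h4, h5, h6⟩ :=
    Pool.Agent.CBER.choice (172 * (1 / 1000000)) (by norm_num)
  refine ⟨A, ?_, ?_, ?_⟩
  · rw [← compl_compl A, h3, compl_sUnion]
    refine ⟨compl '' C, ?_, h1.image _, rfl⟩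
    rintro _ ⟨c, hc, rfl⟩
    exact (h2 c hc).1.isOpen_compl
  · rw [← compl_compl A, h3, compl_sUnion]
    refine dense_sInter_of_isOpen ?_ (h1.image _) ?_
    · rintro _ ⟨c, hc, rfl⟩
      exact (h2 c hc).1.isOpen_compl
    · rintro _ ⟨c, hc, rfl⟩
      exact interior_eq_empty_iff_dense_compl.1 (h2 c hc).2
  · intro B hBA hG hd
    obtain ⟨T, hTo, hTc, rfl⟩ := hG
    have g1 : (compl '' T).Countable := hTc.image _
    have g2 : ∀ c ∈ compl '' T, IsClosed c ∧ interior c = ∅ := by
      rintro _ ⟨t, ht, rfl⟩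
      refine ⟨(hTo t ht).isClosed_compl, ?_⟩
      rw [interior_eq_empty_iff_dense_compl, compl_compl]
      exact hd.mono (sInter_subset_of_mem ht)
    have g3 : (⋂₀ T)ᶜ = ⋃₀ (compl '' T) := compl_sInter T
    have g4 : ∀ x ∈ ⋂₀ T, Pool.Agent.CBER.Irr x := fun x hx => h4 x (hBA hx)
    have hB : MeasurableSet (⋂₀ T) := by
      rw [← compl_compl (⋂₀ T), g3]
      exact (MeasurableSet.sUnion g1 fun c hc => (g2 c hc).1.measurableSet).compl
    have hne : (⋂₀ T).Nonempty := hd.nonempty
    refine ⟨(measurable_fst hB :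
      MeasurableSet {p : Pool.Agent.CBER.V | p.1 ∈ ⋂₀ T}).standardBorel, ?_, ?_,
      not_smooth _ g4 hne, ?_⟩
    · rw [orbit_eq]
      exact ⟨Pool.Agent.CBER.RA_equiv _, Pool.Agent.CBER.RA_meas _,
        Pool.Agent.CBER.RA_countable _⟩
    · rw [orbit_eq]
      exact Pool.Agent.CBER.RA_infinite _ g4
    · exact no_realization g1 g2 g3 g4 h5 (δ := 1 / 1000000) (by norm_num)
        fun d hdD x hx j => h6 d hdD x (hBA hx) j

end Pool.Agent.Lib.MP_ff62c8_lc.Own
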