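import Pool.Agent.Lib.MP_ff62c8_lc.Model2

/-! # Producing good data out of Borel maps along the orbits -/

set_option autoImplicit false

open MeasureTheory Set ProbabilityTheory Filter Topology
open scoped ENNReal NNReal BoundedContinuousFunction

namespace Pool.Agent.CBER

section idx
variable {Y : Type*} [TopologicalSpace Y]

open Classical in
/-- the least index of a homeomorphism taking the first point to the second one -/
noncomputable def idx (g : ℕ → Y ≃ₜ Y) (p : Y × Y) : ℕ :=
  if h : ∃ n, p.2 = g n p.1 then Nat.find h else 0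

lemma idx_spec {g : ℕ → Y ≃ₜ Y} {p : Y × Y} (h : ∃ n, p.2 = g n p.1) :
    p.2 = g (idx g p) p.1 := by
  classical
  rw [idx, dif_pos h]; exact Nat.find_spec h

lemma measurable_idx [T2Space Y] [SecondCountableTopology Y] [MeasurableSpace Y] [BorelSpace Y]
    (g : ℕ → Y ≃ₜ Y) : Measurable (idx g) := by
  classical
  have hP : ∀ p : Y × Y, ∃ n : ℕ, (p.2 = g n p.1 ∨ ¬ ∃ m, p.2 = g m p.1) := by
    intro p
    by_cases h : ∃ m, p.2 = g m p.1
    · obtain ⟨m, hm⟩ := h; exact ⟨m, Or.inl hm⟩
    · exact ⟨0, Or.inr h⟩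
  have hm : ∀ n : ℕ, MeasurableSet {p : Y × Y | p.2 = g n p.1} := fun n =>
    (isClosed_eq continuous_snd ((g n).continuous.comp continuous_fst)).measurableSet
  have hm2 : MeasurableSet {p : Y × Y | ¬ ∃ m, p.2 = g m p.1} := by
    have : {p : Y × Y | ¬ ∃ m, p.2 = g m p.1} = (⋃ m, {p : Y × Y | p.2 = g m p.1})ᶜ := by
      ext p; simp
    rw [this]
    exact (MeasurableSet.iUnion hm).compl
  have h1 : Measurable (fun p => Nat.find (hP p)) :=
    measurable_find hP fun n => (hm n).union hm2
  have : idx g = fun p => Nat.find (hP p) := by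
    funext p
    by_cases h : ∃ n, p.2 = g n p.1
    · rw [idx, dif_pos h]
      congr 1
      funext n
      simp [h]
    · rw [idx, dif_neg h]
      symm
      rw [Nat.find_eq_zero]
      exact Or.inr h
  rw [this]; exact h1

end idx

section maps
variable {Y : Type*} [TopologicalSpace Y] [PolishSpace Y] [MeasurableSpace Y] [BorelSpace Y]

/-- an injective map inside the orbits does not increase an invariant measure -/
theorem map_le_of_orbit {g : ℕ → Y ≃ₜ Y} {ν : Measure Y}
    (hν : ∀ n, MeasurePreserving (g n) ν ν) {G : Set Y} (hG : MeasurableSet G) {H H' : Y → Y}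
    (hH : Measurable H) (h1 : ∀ y ∈ G, H' (H y) = y) (h2 : ∀ y ∈ G, ∃ n, H y = g n y) :
    (ν.restrict G).map H ≤ ν := by
  refine Measure.le_iff.2 fun A hA => ?_
  rw [Measure.map_apply hH hA, Measure.restrict_apply (hH hA)]
  let N : Y → ℕ := fun y => idx g (y, H y)
  have hN : Measurable N := (measurable_idx g).comp (measurable_id.prodMk hH)
  have hNs : ∀ y ∈ G, H y = g (N y) y := fun y hy => idx_spec (p := (y, H y)) (h2 y hy)
  let P : ℕ → Set Y := fun n => (H ⁻¹' A ∩ G) ∩ N ⁻¹' {n}
  have hP : ∀ n, MeasurableSet (P n) := fun n =>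
    ((hH hA).inter hG).inter (hN (measurableSet_singleton n))
  have hU : H ⁻¹' A ∩ G = ⋃ n, P n := by
    ext y; simp [P]
  have hinj : InjOn H G := fun y hy y' hy' e => by
    rw [← h1 y hy, ← h1 y' hy', e]
  have hd : Pairwise (Function.onFun Disjoint P) := by
    intro n m hnm
    rw [Function.onFun, Set.disjoint_left]
    rintro w ⟨_, e1⟩ ⟨_, e2⟩
    exact hnm (e1.symm.trans e2)
  have him : ∀ n, g n '' P n = H '' P n := by
    intro n
    refine image_congr fun y hy => ?_
    have e : N y = n := hy.2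
    rw [hNs y hy.1.2, e]
  have hmi : ∀ n, MeasurableSet (g n '' P n) := fun n =>
    (g n).toMeasurableEquiv.measurableEmbedding.measurableSet_image' (hP n)
  calc ν (H ⁻¹' A ∩ G) = ∑' n, ν (P n) := by
        conv_lhs => rw [hU]
        exact measure_iUnion hd hP
    _ = ∑' n, ν (g n '' P n) := by
        refine tsum_congr fun n => ?_
        have := (hν n).measure_preimage (hmi n).nullMeasurableSet
        rw [preimage_image_eq _ (g n).injective] at this
        exact this
    _ = ν (⋃ n, g n '' P n) := by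
        rw [measure_iUnion _ hmi]
        intro n m hnm
        rw [Function.onFun, him, him, Set.disjoint_left]
        rintro _ ⟨y, hy, rfl⟩ ⟨y', hy', e⟩
        have := hinj hy'.1.2 hy.1.2 e
        subst this
        exact Set.disjoint_left.1 (hd hnm) hy hy'
    _ ≤ ν A := by
        refine measure_mono (iUnion_subset fun n => ?_)
        rw [him]
        rintro _ ⟨y, hy, rfl⟩
        exact hy.1.1

/-- real representative of a point of the circle -/
noncomputable def rep (z : T1) : ℝ := (AddCircle.equivIoc (1 : ℝ) 0 z : ℝ)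

lemma coe_rep (z : T1) : ((rep z : ℝ) : T1) = z := by
  rw [rep]
  exact (AddCircle.equivIoc (1 : ℝ) 0).symm_apply_apply z

lemma measurable_rep : Measurable rep := by
  have := (AddCircle.measurableEquivIoc (1 : ℝ) 0).measurable
  exact measurable_subtype_coe.comp this

lemma norm_coe_le (r : ℝ) : ‖(r : T1)‖ ≤ |r| := by
  rw [AddCircle.norm_eq]
  simp only [inv_one, one_mul, mul_one]
  exact round_le r 0 |>.trans (by simp)

theorem good_of_maps [CompactSpace Y] {g : ℕ → Y ≃ₜ Y} (ν : Measure Y) [IsProbabilityMeasure ν]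
    (hν : ∀ n, MeasurePreserving (g n) ν ν) {D : ℕ → C(Y, ℝ)} (hD : DenseRange D)
    {ζ : Y → T2} (hζ : Measurable ζ) (d : T1) (G : Fin 3 → Set Y)
    (hG : ∀ s, MeasurableSet (G s)) (H H' : Fin 3 → Y → Y)
    (hH : ∀ s, Measurable (H s)) (hH' : ∀ s, Measurable (H' s))
    (h1 : ∀ s, ∀ y ∈ G s, H' s (H s y) = y)
    (h2 : ∀ s, ∀ y ∈ G s, ∃ n, H s y = g n y)
    (h3 : ∀ s, ∀ y ∈ G s, ζ (H s y) = S d s (ζ y)) {a b : ℝ}
    (ha : ∀ s, ν.real (G s)ᶜ ≤ a) (ha0 : 0 ≤ a) (hb : 0 < b) :
    ∃ j : (Fin 3 → ℕ) × (Fin 3 → ℕ) × (Fin 2 → ℕ),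
      Good g (fun s => D (j.1 s)) (fun s => D (j.2.1 s)) (fun t => D (j.2.2 t)) (a + b) d ν := by
  classical
  let N : Fin 3 → Y → ℕ := fun s y => idx g (y, H s y)
  let N' : Fin 3 → Y → ℕ := fun s y => idx g (H' s y, y)
  have hN : ∀ s, Measurable (N s) := fun s => (measurable_idx g).comp (measurable_id.prodMk (hH s))
  have hN' : ∀ s, Measurable (N' s) := fun s =>
    (measurable_idx g).comp ((hH' s).prodMk measurable_id)
  have hNr : ∀ s, Measurable (fun y => (N s y : ℝ)) := fun s =>
    (measurable_from_top (f := fun n : ℕ => (n : ℝ))).comp (hN s)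
  have hNr' : ∀ s, Measurable (fun y => (N' s y : ℝ)) := fun s =>
    (measurable_from_top (f := fun n : ℕ => (n : ℝ))).comp (hN' s)
  have hq : (0 : ℝ) < 1 / 4 := by norm_num
  choose i hi using fun s => approx ν (hNr s) hq (half_pos hb) hD
  choose i' hi' using fun s => approx ν (hNr' s) hq (half_pos hb) hD
  let r : Fin 2 → Y → ℝ := fun t y => if t = 0 then rep (ζ y).1 else rep (ζ y).2
  have hr : ∀ t, Measurable (r t) := by
    intro t
    fin_cases t
    · exact measurable_rep.comp hζ.fst
    · exact measurable_rep.comp hζ.snd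
  choose l hl using fun t => approx ν (hr t) (show (0 : ℝ) < 1 / 16 by norm_num) (half_pos hb) hD
  refine ⟨(i, i', l), ζ, hζ, fun s => ?_, ?_⟩
  · -- the partial maps
    have hsub : (dm g (D (i s)) (D (i' s)) {p | ζ p.2 = S d s (ζ p.1)})ᶜ ⊆
        (G s)ᶜ ∪ ({y | ¬ |D (i s) y - N s y| ≤ 1 / 4} ∪
          (H s ⁻¹' {y | ¬ |D (i' s) y - N' s y| ≤ 1 / 4} ∩ G s)) := by
      intro y hy
      by_contra hcon
      simp only [mem_union, mem_compl_iff, mem_ofPred_eq, mem_inter_iff, mem_preimage, not_or,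
        not_not, not_and] at hcon
      obtain ⟨c1, c2, c3⟩ := hcon
      apply hy
      have e0 : H s y = g (N s y) y := idx_spec (p := (y, H s y)) (h2 s y c1)
      have e1 : N' s (H s y) = N s y := by
        change idx g (H' s (H s y), H s y) = idx g (y, H s y)
        rw [h1 s y c1]
      refine ⟨H s y, ⟨N s y, c2, ?_, e0⟩, h3 s y c1⟩
      by_contra hc
      refine c3 ?_ c1
      rw [e1]; exact hc
    have hm : MeasurableSet {y | ¬ |D (i' s) y - N' s y| ≤ 1 / 4} :=
      (measurableSet_le (((D (i' s)).continuous.measurable.sub (hNr' s)).abs)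
        measurable_const).compl
    have hle := map_le_of_orbit hν (hG s) (hH s) (h1 s) (h2 s)
    have e3 : ν.real (H s ⁻¹' {y | ¬ |D (i' s) y - N' s y| ≤ 1 / 4} ∩ G s) ≤ b / 2 := by
      have := hle {y | ¬ |D (i' s) y - N' s y| ≤ 1 / 4}
      rw [Measure.map_apply (hH s) hm, Measure.restrict_apply ((hH s) hm)] at this
      exact (ENNReal.toReal_mono (measure_ne_top _ _) this).trans (hi' s)
    have e4 := (measureReal_mono (μ := ν) hsub).trans (measureReal_union_le _ _)
    have e5 := measureReal_union_le (μ := ν) {y | ¬ |D (i s) y - N s y| ≤ 1 / 4}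
      (H s ⁻¹' {y | ¬ |D (i' s) y - N' s y| ≤ 1 / 4} ∩ G s)
    have e6 := hi s
    have e7 := ha s
    linarith
  · have hsub : {y | ¬ near (ζ y) (D (l 0) y) (D (l 1) y)} ⊆
        {y | ¬ |D (l 0) y - r 0 y| ≤ 1 / 16} ∪ {y | ¬ |D (l 1) y - r 1 y| ≤ 1 / 16} := by
      intro y hy
      by_contra hcon
      simp only [mem_union, mem_ofPred_eq, not_or, not_not] at hcon
      apply hy
      constructor
      · have : (ζ y).1 - ((D (l 0) y : ℝ) : T1) = ((r 0 y - D (l 0) y : ℝ) : T1) := by
          rw [AddCircle.coe_sub]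
          congr 1
          exact (coe_rep _).symm
        rw [this]
        refine (norm_coe_le _).trans ?_
        rw [abs_sub_comm]; exact hcon.1
      · have : (ζ y).2 - ((D (l 1) y : ℝ) : T1) = ((r 1 y - D (l 1) y : ℝ) : T1) := by
          rw [AddCircle.coe_sub]
          congr 1
          exact (coe_rep _).symm
        rw [this]
        refine (norm_coe_le _).trans ?_
        rw [abs_sub_comm]; exact hcon.2
    have e4 := (measureReal_mono (μ := ν) hsub).trans (measureReal_union_le _ _)
    have e5 := hl 0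
    have e6 := hl 1
    change ν.real {y | ¬ near (ζ y) (D (l 0) y) (D (l 1) y)} ≤ a + b
    linarith

end maps

/-- transfer of invariance along a Borel isomorphism of orbit relations -/
lemma transfer_inv {W₁ W₂ ι : Type*} [MeasurableSpace W₁] [StandardBorelSpace W₁]
    [MeasurableSpace W₂] [Countable ι] (f : W₁ ≃ᵐ W₂) (h₁ : ι → W₁ ≃ᵐ W₁)
    (h₂ : W₂ ≃ᵐ W₂) {μ : Measure W₁} (hμ : ∀ i, MeasurePreserving (h₁ i) μ μ)
    (hyp : ∀ w, ∃ i, f.symm (h₂ (f w)) = h₁ i w) :
    MeasurePreserving h₂ (μ.map f) (μ.map f) := by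
  have h := full_group h₁ hμ ((f.trans h₂).trans f.symm) hyp
  refine ⟨h₂.measurable, ?_⟩
  rw [Measure.map_map h₂.measurable f.measurable]
  have : (h₂ : W₂ → W₂) ∘ f = f ∘ ((f.trans h₂).trans f.symm) := by
    funext w
    simp
  rw [this, ← Measure.map_map f.measurable (MeasurableEquiv.measurable _), h.map_eq]

end Pool.Agent.CBER
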