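import Pool.Agent.Lib.MP_ff62c8_lc.Kern

/-! # Weak limits, comparison of measures, selection of a function from a kernel -/

set_option autoImplicit false

open MeasureTheory Set ProbabilityTheory Filter Topology
open scoped ENNReal NNReal BoundedContinuousFunction

namespace Pool.Agent.CBER

section W
variable {Ω ι : Type*} [MeasurableSpace Ω] [TopologicalSpace Ω] [HasOuterApproxClosed Ω]

lemma weak_open_le [OpensMeasurableSpace Ω] {L : Filter ι} [L.NeBot] {μ : ProbabilityMeasure Ω}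
    {μs : ι → ProbabilityMeasure Ω} (h : Tendsto μs L (𝓝 μ)) {G : Set Ω} (hG : IsOpen G)
    {c : ℝ≥0∞} (hc : ∀ i, (μs i : Measure Ω) G ≤ c) : (μ : Measure Ω) G ≤ c :=
  (ProbabilityMeasure.le_liminf_measure_open_of_tendsto h hG).trans
    (liminf_le_of_frequently_le' (Eventually.frequently (Eventually.of_forall hc)))

lemma measure_le_of_lintegral_le [BorelSpace Ω] [TopologicalSpace.PseudoMetrizableSpace Ω]
    {μ₁ μ₂ : Measure Ω} [IsFiniteMeasure μ₁] [IsFiniteMeasure μ₂]
    (h : ∀ f : Ω →ᵇ ℝ≥0, ∫⁻ x, f x ∂μ₁ ≤ ∫⁻ x, f x ∂μ₂) : μ₁ ≤ μ₂ := by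
  have hF : ∀ F : Set Ω, IsClosed F → μ₁ F ≤ μ₂ F := by
    intro F hF
    refine ge_of_tendsto (HasOuterApproxClosed.tendsto_lintegral_apprSeq hF μ₂)
      (Eventually.of_forall fun n => ?_)
    exact (HasOuterApproxClosed.measure_le_lintegral hF μ₁ n).trans (h _)
  refine Measure.le_iff.2 fun A hA => ?_
  rw [hA.measure_eq_iSup_isClosed_of_ne_top (measure_ne_top μ₁ A)]
  refine iSup_le fun F => iSup_le fun hFA => iSup_le fun hFc => ?_
  exact (hF F hFc).trans (measure_mono hFA)

end W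

section Sel
variable {Y Z : Type*} [MeasurableSpace Y] [MeasurableSpace Z] [StandardBorelSpace Y]
  [StandardBorelSpace Z] [Nonempty Z]

lemma measurable_atom (K : Kernel Y Z) [IsFiniteKernel K] :
    Measurable (fun p : Y × Z => K p.1 {p.2}) := by
  have hA : MeasurableSet {q : (Y × Z) × Z | q.2 = q.1.2} :=
    measurableSet_eq_fun measurable_snd (measurable_snd.comp measurable_fst)
  let K' : Kernel (Y × Z) Z := K.comap Prod.fst measurable_fst
  have := Kernel.measurable_kernel_prodMk_left (κ := K') hA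
  have e : (fun p : Y × Z => K p.1 {p.2}) =
      fun a => (K' a) (Prod.mk a ⁻¹' {q | q.2 = q.1.2}) := by
    funext p
    rw [Kernel.comap_apply]
    rfl
  rw [e]; exact this

/-- If two conditionally independent copies agree with high probability, then the variable is
with high probability a function of the conditioning variable. -/
theorem exists_selection (ν : Measure Y) [IsProbabilityMeasure ν] (K : Kernel Y Z)
    [IsMarkovKernel K] (η : ℝ≥0∞) (h : pairLaw ν K {p | p.1 ≠ p.2} ≤ η) :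
    ∃ ζ : Y → Z, Measurable ζ ∧ (ν ⊗ₘ K) {p | p.2 ≠ ζ p.1} ≤ 2 * η := by
  have hne : MeasurableSet {p : Z × Z | p.1 ≠ p.2} :=
    (measurableSet_eq_fun measurable_fst measurable_snd).compl
  have hatom := measurable_atom K
  have hc : Measurable (fun p : Y × Z => K p.1 {p.2}ᶜ) := by
    have e : (fun p : Y × Z => K p.1 {p.2}ᶜ) = fun p => 1 - K p.1 {p.2} := by
      funext p
      rw [measure_compl (measurableSet_singleton _) (measure_ne_top _ _), measure_univ]
    rw [e]; exact measurable_const.sub hatom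
  have h1 : ∫⁻ p, K p.1 {p.2}ᶜ ∂(ν ⊗ₘ K) ≤ η := by
    rw [pairLaw_apply _ _ hne] at h
    rw [Measure.lintegral_compProd hc]
    refine le_trans (le_of_eq ?_) h
    refine lintegral_congr fun y => ?_
    rw [Measure.prod_apply hne]
    refine lintegral_congr fun z => ?_
    congr 1
    ext z'
    simp only [mem_compl_iff, mem_singleton_iff, mem_preimage, mem_ofPred_eq]
    exact ⟨fun h => fun h' => h h'.symm, fun h => fun h' => h h'.symm⟩
  let T : Set (Y × Z) := {p | 2⁻¹ < K p.1 {p.2}}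
  have hT : MeasurableSet T := measurableSet_lt measurable_const hatom
  have h2 : (ν ⊗ₘ K) Tᶜ ≤ 2 * η := by
    have h3 := mul_meas_ge_le_lintegral (μ := ν ⊗ₘ K) hc 2⁻¹
    have h4 : Tᶜ ⊆ {p | 2⁻¹ ≤ K p.1 {p.2}ᶜ} := by
      intro p hp
      have hp' : K p.1 {p.2} ≤ 2⁻¹ := not_lt.1 hp
      change 2⁻¹ ≤ K p.1 {p.2}ᶜ
      rw [measure_compl (measurableSet_singleton _) (measure_ne_top _ _), measure_univ]
      calc (2⁻¹ : ℝ≥0∞) = 1 - 2⁻¹ := ENNReal.one_sub_inv_two.symm
        _ ≤ 1 - K p.1 {p.2} := tsub_le_tsub_left hp' 1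
    calc (ν ⊗ₘ K) Tᶜ ≤ (ν ⊗ₘ K) {p | 2⁻¹ ≤ K p.1 {p.2}ᶜ} := measure_mono h4
      _ = 2 * (2⁻¹ * (ν ⊗ₘ K) {p | 2⁻¹ ≤ K p.1 {p.2}ᶜ}) := by
          rw [← mul_assoc, ENNReal.mul_inv_cancel two_ne_zero ENNReal.ofNat_ne_top, one_mul]
      _ ≤ 2 * η := by gcongr; exact h3.trans h1
  -- the projection is injective on `T`
  have hinj : Function.Injective (fun p : T => p.1.1) := by
    rintro ⟨⟨y, z⟩, hp⟩ ⟨⟨y', z'⟩, hp'⟩ e
    obtain rfl : y = y' := e
    by_contra hcon
    have hz : z ≠ z' := fun e => hcon (by subst e; rfl)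
    have h5 : K y {z} + K y {z'} ≤ 1 := by
      rw [← measure_union (by simpa using hz) (measurableSet_singleton _)]
      exact prob_le_one
    have h6 : (2⁻¹ : ℝ≥0∞) + 2⁻¹ < K y {z} + K y {z'} := ENNReal.add_lt_add hp hp'
    rw [ENNReal.inv_two_add_inv_two] at h6
    exact absurd h5 (not_le.2 h6)
  have : StandardBorelSpace T := hT.standardBorel
  have hemb : MeasurableEmbedding (fun p : T => p.1.1) :=
    (measurable_fst.comp measurable_subtype_coe).measurableEmbedding hinj
  obtain ⟨ζ, hζ, e⟩ := hemb.exists_measurable_extend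
    (g := fun p : T => p.1.2) (measurable_snd.comp measurable_subtype_coe) (fun _ => inferInstance)
  refine ⟨ζ, hζ, le_trans (measure_mono ?_) h2⟩
  intro p hp hpT
  exact hp (congrFun e ⟨p, hpT⟩).symm

end Sel

end Pool.Agent.CBER
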